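import Mathlib

/-!
# Sum of a multiplicative function, upper bound by the Euler product (difficulty 3)

From `EulerProduct.summable_and_hasSum_smoothNumbers_prod_primesBelow_tsum` (Mathlib): the sum of `f`
over `Nat.smoothNumbers (N + 1)` is `∏ l ∈ primesBelow (N + 1), ∑' e, f (l ^ e)`, all numbers of
`Icc 1 N` are in `smoothNumbers (N + 1)`, and `∑' e, f (l ^ e) = 1 + ∑' e, f (l ^ (e + 1)) ≤ 1 + b l`
(`Summable` and `tsum_le` from the bound of the partial sums: `summable_of_sum_range_le`).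
If the Mathlib lemma wants multiplicativity for all coprime `m, n` including `0`: apply it to
`fun n => if n = 0 then 0 else f n`.
-/

set_option autoImplicit false

namespace Pool.Agent.PPW

open Finset

theorem eul (f : ℕ → ℝ) (b : ℕ → ℝ) (h0 : ∀ n, 0 ≤ f n) (h1 : f 1 = 1)
    (hm : ∀ m n : ℕ, m ≠ 0 → n ≠ 0 → Nat.Coprime m n → f (m * n) = f m * f n)
    (hb : ∀ l : ℕ, l.Prime → ∀ E : ℕ, ∑ e ∈ Icc 1 E, f (l ^ e) ≤ b l) (N : ℕ) :
    ∑ m ∈ Icc 1 N, f m ≤ ∏ l ∈ (Icc 1 N).filter Nat.Prime, (1 + b l) := by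
  have hg1 : (fun n : ℕ => if n = 0 then (0 : ℝ) else f n) 1 = 1 := by simp [h1]
  have hgm : ∀ {m n : ℕ}, Nat.Coprime m n →
      (fun n : ℕ => if n = 0 then (0 : ℝ) else f n) (m * n) =
        (fun n : ℕ => if n = 0 then (0 : ℝ) else f n) m *
          (fun n : ℕ => if n = 0 then (0 : ℝ) else f n) n := by
    intro m n hmn
    by_cases h2 : m = 0
    · simp [h2]
    by_cases h3 : n = 0
    · simp [h3]
    simp [h2, h3, hm m n h2 h3 hmn]
  have hpw : ∀ {p : ℕ}, p.Prime → ∀ n : ℕ,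
      (fun n : ℕ => if n = 0 then (0 : ℝ) else f n) (p ^ n) = f (p ^ n) := by
    intro p hp n
    have : p ^ n ≠ 0 := pow_ne_zero _ hp.ne_zero
    exact if_neg this
  have hr : ∀ {p : ℕ}, p.Prime → ∀ n : ℕ, ∑ i ∈ range n, f (p ^ i) ≤ 1 + b p := by
    intro p hp n
    calc ∑ i ∈ range n, f (p ^ i) ≤ ∑ i ∈ insert 0 (Icc 1 n), f (p ^ i) := by
          refine Finset.sum_le_sum_of_subset_of_nonneg ?_ fun i _ _ => h0 _
          intro i hi
          rw [Finset.mem_range] at hi
          rw [Finset.mem_insert, Finset.mem_Icc]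
          omega
      _ = 1 + ∑ i ∈ Icc 1 n, f (p ^ i) := by
          rw [Finset.sum_insert (by simp), pow_zero, h1]
      _ ≤ 1 + b p := by
          have := hb p hp n
          linarith
  have hsf : ∀ {p : ℕ}, p.Prime → Summable fun n : ℕ => f (p ^ n) := fun hp =>
    summable_of_sum_range_le (fun n => h0 _) (hr hp)
  have hsum : ∀ {p : ℕ}, p.Prime → Summable (fun n : ℕ =>
      ‖(fun n : ℕ => if n = 0 then (0 : ℝ) else f n) (p ^ n)‖) := by
    intro p hp
    refine (hsf hp).congr fun n => ?_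
    rw [hpw hp, Real.norm_of_nonneg (h0 _)]
  have hmain := (EulerProduct.summable_and_hasSum_factoredNumbers_prod_filter_prime_tsum
    (f := fun n : ℕ => if n = 0 then (0 : ℝ) else f n) hg1 hgm hsum (Icc 1 N)).2
  have hind : HasSum (Set.indicator (Nat.factoredNumbers (Icc 1 N))
      (fun n : ℕ => if n = 0 then (0 : ℝ) else f n))
      (∏ p ∈ (Icc 1 N).filter Nat.Prime, ∑' n : ℕ,
        (fun n : ℕ => if n = 0 then (0 : ℝ) else f n) (p ^ n)) :=
    hasSum_subtype_iff_indicator.1 hmain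
  have h5 := sum_le_hasSum (Icc 1 N) (fun i _ => by
    refine Set.indicator_nonneg (fun x _ => ?_) i
    split_ifs
    · exact le_rfl
    · exact h0 _) hind
  have h6 : ∑ m ∈ Icc 1 N, f m = ∑ m ∈ Icc 1 N, Set.indicator (Nat.factoredNumbers (Icc 1 N))
      (fun n : ℕ => if n = 0 then (0 : ℝ) else f n) m := by
    refine Finset.sum_congr rfl fun m hm' => ?_
    rw [Finset.mem_Icc] at hm'
    have hm0 : m ≠ 0 := by omega
    have hmem : m ∈ Nat.factoredNumbers (Icc 1 N) := by
      refine ⟨hm0, fun p hp => ?_⟩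
      have h7 := Nat.prime_of_mem_primeFactorsList hp
      have h8 := Nat.le_of_dvd (by omega) (Nat.dvd_of_mem_primeFactorsList hp)
      rw [Finset.mem_Icc]
      exact ⟨h7.one_le, by omega⟩
    rw [Set.indicator_of_mem hmem]
    simp [hm0]
  rw [h6]
  refine h5.trans ?_
  refine Finset.prod_le_prod (fun p _ => tsum_nonneg fun n => ?_) fun p hp => ?_
  · dsimp only
    split_ifs
    · exact le_rfl
    · exact h0 _
  · have hp' := (Finset.mem_filter.1 hp).2
    have h9 : ∑' n : ℕ, (fun n : ℕ => if n = 0 then (0 : ℝ) else f n) (p ^ n) =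
        ∑' n : ℕ, f (p ^ n) := tsum_congr fun n => hpw hp' n
    rw [h9]
    exact (hsf hp').tsum_le_of_sum_range_le (hr hp')

end Pool.Agent.PPW
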