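import Pool.Agent.PPS.Defs

/-!
# PP3 part (c), the weight: definitions (MP_0f260b_nt)

See `/team-store/notes_MP_0f260b_nt_PP3_weights.md`.  `PPS.del p a b c = a * b * c - p ^ 3`.
-/

set_option autoImplicit false

namespace Pool.Agent.PPW

open Finset Pool.Agent.PPS

/-- the number of the three integers `a, b, c` divisible by `l` -/
def nu (l : ℕ) (a b c : ℤ) : ℕ :=
  (if (l : ℤ) ∣ a then 1 else 0) + (if (l : ℤ) ∣ b then 1 else 0) + (if (l : ℤ) ∣ c then 1 else 0)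

/-- the local weight at a prime `l` dividing `Δ` exactly `k` times -/
def om (G l k : ℕ) (p a b c : ℤ) : ℕ :=
  if (l : ℤ) ∣ p then (if nu l a b c ≤ 1 then 3 else 3 * l)
  else if l ∣ 6 * G ∨ 3 ≤ k then 3 * (k + 1) * l ^ (k / 2)
  else if k = 2 then 6
  else rr l a b

/-- THE WEIGHT -/
def Wt (G : ℕ) (p a b c : ℤ) : ℕ :=
  ∏ l ∈ (del p a b c).natAbs.primeFactors,
    om G l ((del p a b c).natAbs.factorization l) p a b c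

/-- the exponent of `l` in the bad part -/
def be (G l k : ℕ) (p : ℤ) : ℕ :=
  if (l : ℤ) ∣ p then 1 else if l ∣ 6 * G ∨ 2 ≤ k then k else 0

/-- the bad part of `n` -/
def mst (G : ℕ) (p : ℤ) (n : ℕ) : ℕ := ∏ l ∈ n.primeFactors, l ^ be G l (n.factorization l) p

/-- the local majorant: a function of `(p, a, b, c)` modulo `l ^ e` -/
def sl (G l e : ℕ) (p a b c : ℤ) : ℕ :=
  if (l : ℤ) ∣ p then
    (if e = 1 then (if nu l a b c = 0 then 0 else if nu l a b c = 1 then 3 else 3 * l) else 0)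
  else if ((l ^ e : ℕ) : ℤ) ∣ del p a b c then
    (if l ∣ 6 * G ∨ 3 ≤ e then 3 * (e + 1) * l ^ (e / 2) else if e = 2 then 6 else 0)
  else 0

/-- the majorant modulo `m` -/
def sg (G m : ℕ) (p a b c : ℤ) : ℕ := ∏ l ∈ m.primeFactors, sl G l (m.factorization l) p a b c

/-- the sum of the majorant over all classes modulo `m` -/
def AG (G m : ℕ) : ℕ :=
  ∑ p ∈ range m, ∑ a ∈ range m, ∑ b ∈ range m, ∑ c ∈ range m, sg G m p a b c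

/-- `c(G)` -/
noncomputable def cG (G : ℕ) : ℝ := ∏ l ∈ G.primeFactors, (1 + 2000 / (l : ℝ))

/-- the dyadic box; `x = (p, a, b, c)` -/
noncomputable def Bx (P Y1 Y2 Y3 Z : ℕ) : Finset (ℤ × ℤ × ℤ × ℤ) :=
  ((Ioo (-(2 * P : ℤ)) (2 * P)) ×ˢ (Ioo (-(2 * Y1 : ℤ)) (2 * Y1)) ×ˢ
    (Ioo (-(2 * Y2 : ℤ)) (2 * Y2)) ×ˢ (Ioo (-(2 * Y3 : ℤ)) (2 * Y3))).filter
    (fun x => (P : ℤ) ≤ |x.1| ∧ (Y1 : ℤ) ≤ |x.2.1| ∧ (Y2 : ℤ) ≤ |x.2.2.1| ∧ (Y3 : ℤ) ≤ |x.2.2.2| ∧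
      (Z : ℤ) ≤ |del x.1 x.2.1 x.2.2.1 x.2.2.2| ∧ |del x.1 x.2.1 x.2.2.1 x.2.2.2| < 2 * Z)

/-- `Δ` of a point -/
def dx (x : ℤ × ℤ × ℤ × ℤ) : ℤ := del x.1 x.2.1 x.2.2.1 x.2.2.2

theorem mem_Bx {P Y1 Y2 Y3 Z : ℕ} {x : ℤ × ℤ × ℤ × ℤ} :
    x ∈ Bx P Y1 Y2 Y3 Z ↔ ((P : ℤ) ≤ |x.1| ∧ |x.1| < 2 * P) ∧
      ((Y1 : ℤ) ≤ |x.2.1| ∧ |x.2.1| < 2 * Y1) ∧ ((Y2 : ℤ) ≤ |x.2.2.1| ∧ |x.2.2.1| < 2 * Y2) ∧
      ((Y3 : ℤ) ≤ |x.2.2.2| ∧ |x.2.2.2| < 2 * Y3) ∧ ((Z : ℤ) ≤ |dx x| ∧ |dx x| < 2 * Z) := by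
  unfold Bx dx
  simp only [mem_filter, mem_product, mem_Ioo, abs_lt]
  tauto

/-- the exponent of `l` in the square of the majorant `H` -/
def ex (G l k : ℕ) (p : ℤ) : ℕ :=
  if (l : ℤ) ∣ p then (if k ≤ 1 then 1 else 3)
  else if l ∣ 6 * G ∨ 3 ≤ k then max (3 * (k / 2)) k
  else if k = 2 then 2
  else 0

/-- `H ^ 2` -/
def HH (G : ℕ) (p : ℤ) (n : ℕ) : ℕ := ∏ l ∈ n.primeFactors, l ^ ex G l (n.factorization l) p

/-- local factor of `phi` -/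
noncomputable def ph (G l k : ℕ) : ℝ :=
  if l ∣ 6 * G ∨ 3 ≤ k then Real.sqrt l ^ (max (3 * (k / 2)) k)
  else if k = 2 then (l : ℝ)
  else 0

/-- the part of `H` prime to `p`, as a function of the corresponding divisor of `Δ` -/
noncomputable def phi (G s : ℕ) : ℝ := ∏ l ∈ s.primeFactors, ph G l (s.factorization l)

/-- the nonzero integers of absolute value `< 2 P` -/
noncomputable def NZ (P : ℕ) : Finset ℤ := (Ioo (-(2 * P : ℤ)) (2 * P)).filter (fun x => x ≠ 0)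

end Pool.Agent.PPW
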