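import Pool.Agent.PPW.Eul
import Pool.Agent.PPW.Defs
import Pool.Agent.NTot.Mertens
import Pool.Agent.FTA.DivB

/-!
# The sum of `phi` (difficulty 4)

`f s = phi G s / s` is multiplicative (for coprime nonzero arguments), `f 1 = 1`.  With `x = √l ≥ √2`:
`f (l ^ k) = ph G l k / l ^ k`.
* `k ≥ 3`: `max (3 (k / 2)) k = 3 (k / 2)` and `f = x ^ (3 (k / 2)) / x ^ (2 k) ≤ x ^ (- (k - k / 2))`
  (`2 k - 3 (k / 2) ≥ k - k / 2`).  `k = 2`: `f = x ^ (-1)` if `l ∣ 6 G`, `f = 1 / l` otherwise;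
  `k = 1`: `f = x ^ (-1)` if `l ∣ 6 G`, `0` otherwise.
* `l` not dividing `6 G`: `∑ k ∈ Icc 1 E, f ≤ 1 / l + 2 ∑ j ≥ 2, x ^ (-j) ≤ 1 / l +
  2 x ^ (-2) / (1 - 1/√2) ≤ 8 / l`; `l ∣ 6 G`: `≤ 2 ∑ j ≥ 1, x ^ (-j) ≤ 7`.
So by `eul`: `∑ s ∈ Icc 1 N, f s ≤ ∏ l ≤ N, (1 + b l) ≤ exp (8 ∑ l ≤ N, 1 / l) * 8 ^ ω(6 G)`
`≤ C (log (N + 3)) ^ 8 * 8 ^ ω(6 G)` (`NTot.mertens_inv`), `8 ^ ω(n) = (2 ^ ω(n)) ^ 3 ≤ d(n) ^ 3`,
`divisor_bound`.  With `N ≤ 2 T ^ 8`, `G ≤ T`, this is at most `K T ^ ε` (logarithms against a power: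
`Real.log_le_rpow_div` or `Real.add_pow_le_pow_mul_pow_of_add_eq_one`).
-/

set_option autoImplicit false

namespace Pool.Agent.PPW

open Finset Pool.Agent.PPS

private theorem phs_nn (G l k : ℕ) : 0 ≤ ph G l k := by
  unfold ph
  split_ifs
  · positivity
  · positivity
  · exact le_rfl

private theorem phs_phi_nn (G n : ℕ) : 0 ≤ phi G n :=
  Finset.prod_nonneg fun l _ => phs_nn G l _

private theorem phs_mul (G m n : ℕ) (hm : m ≠ 0) (hn : n ≠ 0) (h : Nat.Coprime m n) :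
    phi G (m * n) = phi G m * phi G n := by
  unfold phi
  rw [Nat.primeFactors_mul hm hn, Finset.prod_union h.disjoint_primeFactors]
  congr 1
  · refine Finset.prod_congr rfl fun l hl => ?_
    rw [Nat.factorization_eq_of_coprime_left h (Nat.mem_primeFactors_iff_mem_primeFactorsList.1 hl)]
  · refine Finset.prod_congr rfl fun l hl => ?_
    rw [Nat.factorization_eq_of_coprime_right h
      (Nat.mem_primeFactors_iff_mem_primeFactorsList.1 hl)]

private theorem phs_pp (G l e : ℕ) (hl : l.Prime) (he : 1 ≤ e) : phi G (l ^ e) = ph G l e := by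
  unfold phi
  rw [Nat.primeFactors_prime_pow (by omega) hl, Finset.prod_singleton, hl.factorization_pow]
  simp

/-- the geometric sum -/
private theorem phs_geo (y : ℝ) (hy0 : 0 ≤ y) (hy1 : y < 1) (E : ℕ) :
    ∑ e ∈ Icc 1 E, y ^ ((e + 1) / 2) ≤ 2 * y / (1 - y) := by
  have h1 : ∀ n : ℕ, (1 - y) * ∑ e ∈ Icc 1 (2 * n), y ^ ((e + 1) / 2) = 2 * y * (1 - y ^ n) := by
    intro n
    induction n with
    | zero => simp
    | succ n ih =>
      rw [show 2 * (n + 1) = 2 * n + 1 + 1 by ring, Finset.sum_Icc_succ_top (by omega),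
        Finset.sum_Icc_succ_top (by omega), show (2 * n + 1 + 1) / 2 = n + 1 by omega,
        show (2 * n + 1 + 1 + 1) / 2 = n + 1 by omega, mul_add, mul_add, ih]
      ring
  have h2 : ∑ e ∈ Icc 1 E, y ^ ((e + 1) / 2) ≤ ∑ e ∈ Icc 1 (2 * E), y ^ ((e + 1) / 2) := by
    refine Finset.sum_le_sum_of_subset_of_nonneg (Icc_subset_Icc le_rfl (by omega)) ?_
    intro i _ _
    positivity
  refine h2.trans ?_
  have h3 : 0 < 1 - y := by linarith
  rw [le_div_iff₀ h3, mul_comm, h1]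
  have h4 : 0 ≤ y ^ E := by positivity
  nlinarith

private theorem phs_y (l : ℕ) (hl : 2 ≤ l) : ∃ y : ℝ, 0 < y ∧ y ≤ 5 / 7 ∧ y ^ 2 = 1 / l ∧
    Real.sqrt l = y⁻¹ := by
  have hl0 : (0 : ℝ) < l := by
    have : 0 < l := by omega
    exact_mod_cast this
  have hs : 0 < Real.sqrt l := Real.sqrt_pos.2 hl0
  refine ⟨(Real.sqrt l)⁻¹, inv_pos.2 hs, ?_, ?_, (inv_inv _).symm⟩
  · rw [inv_le_comm₀ hs (by norm_num)]
    refine Real.le_sqrt_of_sq_le ?_
    have : (2 : ℝ) ≤ l := by exact_mod_cast hl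
    norm_num
    linarith
  · rw [inv_pow, Real.sq_sqrt hl0.le, one_div]

private theorem phs_t (y : ℝ) (hy0 : 0 < y) (hy1 : y ≤ 1) (e : ℕ) (he : 1 ≤ e) :
    y⁻¹ ^ (max (3 * (e / 2)) e) * y ^ (2 * e) ≤ y ^ ((e + 1) / 2) := by
  have h1 : max (3 * (e / 2)) e ≤ 2 * e := by omega
  have h2 : y⁻¹ ^ (max (3 * (e / 2)) e) * y ^ (2 * e) = y ^ (2 * e - max (3 * (e / 2)) e) := by
    obtain ⟨r, hr⟩ : ∃ r, 2 * e = max (3 * (e / 2)) e + r := ⟨2 * e - max (3 * (e / 2)) e, by omega⟩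
    rw [hr, Nat.add_sub_cancel_left, pow_add, ← mul_assoc, ← mul_pow, inv_mul_cancel₀ hy0.ne',
      one_pow, one_mul]
  rw [h2]
  exact pow_le_pow_of_le_one hy0.le hy1 (by omega)

private theorem phs_loc (G l : ℕ) (hl : l.Prime) (E : ℕ) :
    ∑ e ∈ Icc 1 E, phi G (l ^ e) / ((l ^ e : ℕ) : ℝ) ≤
      if l ∣ 6 * G then 7 else 8 / (l : ℝ) := by
  obtain ⟨y, hy0, hy57, hy2, hys⟩ := phs_y l hl.two_le
  have hl0 : (0 : ℝ) < l := by exact_mod_cast hl.pos
  have hy1 : y ≤ 1 := by linarith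
  have hinv : ∀ e : ℕ, 1 / ((l ^ e : ℕ) : ℝ) = y ^ (2 * e) := by
    intro e
    rw [pow_mul, hy2, one_div, one_div, inv_pow]
    push_cast
    rfl
  have hf : ∀ e ∈ Icc 1 E, phi G (l ^ e) / ((l ^ e : ℕ) : ℝ) = ph G l e * y ^ (2 * e) := by
    intro e he
    rw [phs_pp G l e hl (mem_Icc.1 he).1, ← hinv e]
    ring
  rw [Finset.sum_congr rfl hf]
  have hb : ∀ e : ℕ, 1 ≤ e → (l ∣ 6 * G ∨ 3 ≤ e) → ph G l e * y ^ (2 * e) ≤ y ^ ((e + 1) / 2) := by
    intro e he h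
    unfold ph
    rw [if_pos h, hys]
    exact phs_t y hy0 hy1 e he
  split_ifs with h
  · calc ∑ e ∈ Icc 1 E, ph G l e * y ^ (2 * e) ≤ ∑ e ∈ Icc 1 E, y ^ ((e + 1) / 2) :=
          Finset.sum_le_sum fun e he => hb e (mem_Icc.1 he).1 (Or.inl h)
      _ ≤ 2 * y / (1 - y) := phs_geo y hy0.le (by linarith) E
      _ ≤ 7 := by
          rw [div_le_iff₀ (by linarith)]
          linarith
  · have hmono : ∑ e ∈ Icc 1 E, ph G l e * y ^ (2 * e) ≤
        ∑ e ∈ Icc 1 (E + 2), ph G l e * y ^ (2 * e) := by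
      refine Finset.sum_le_sum_of_subset_of_nonneg (Icc_subset_Icc le_rfl (by omega)) ?_
      intro i _ _
      have := phs_nn G l i
      positivity
    have hsplit : ∀ E : ℕ, ∑ e ∈ Icc 1 (E + 2), ph G l e * y ^ (2 * e) ≤
        y ^ 2 + y * ∑ e ∈ Icc 1 E, y ^ ((e + 1) / 2) := by
      intro E
      induction E with
      | zero =>
        rw [show (0 : ℕ) + 2 = 0 + 1 + 1 by rfl, Finset.sum_Icc_succ_top (by omega),
          Finset.sum_Icc_succ_top (by omega)]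
        have e1 : ph G l 1 = 0 := by
          unfold ph
          rw [if_neg (by push Not; exact ⟨h, by norm_num⟩), if_neg (by norm_num)]
        have e2 : ph G l 2 = l := by
          unfold ph
          rw [if_neg (by push Not; exact ⟨h, by norm_num⟩), if_pos rfl]
        simp only [zero_add, show (1 : ℕ) + 1 = 2 from rfl]
        rw [e1, e2]
        have e3 : (l : ℝ) * y ^ (2 * 2) = y ^ 2 := by
          rw [show 2 * 2 = 2 + 2 by norm_num, pow_add]
          nth_rewrite 1 [hy2]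
          rw [← mul_assoc, mul_one_div, div_self hl0.ne', one_mul]
        rw [e3]
        simp
      | succ E ih =>
        have s1 : ∑ e ∈ Icc 1 (E + 1 + 2), ph G l e * y ^ (2 * e) =
            ∑ e ∈ Icc 1 (E + 2), ph G l e * y ^ (2 * e) +
              ph G l (E + 2 + 1) * y ^ (2 * (E + 2 + 1)) :=
          Finset.sum_Icc_succ_top (by omega) _
        have s2 : ∑ e ∈ Icc 1 (E + 1), y ^ ((e + 1) / 2) =
            ∑ e ∈ Icc 1 E, y ^ ((e + 1) / 2) + y ^ ((E + 1 + 1) / 2) :=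
          Finset.sum_Icc_succ_top (by omega) _
        rw [s1, s2]
        have e1 := hb (E + 2 + 1) (by omega) (Or.inr (by omega))
        have e2 : y ^ ((E + 2 + 1 + 1) / 2) = y * y ^ ((E + 1 + 1) / 2) := by
          rw [← pow_succ']
          congr 1
          omega
        rw [e2] at e1
        linarith
    have hgeo := phs_geo y hy0.le (by linarith) E
    have h8 : y ^ 2 + y * (2 * y / (1 - y)) ≤ 8 / (l : ℝ) := by
      have e1 : (8 : ℝ) / l = 8 * y ^ 2 := by rw [hy2]; ring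
      have e2 : 2 * y / (1 - y) ≤ 7 * y := by
        rw [div_le_iff₀ (by linarith)]
        nlinarith
      rw [e1]
      nlinarith [mul_le_mul_of_nonneg_left e2 hy0.le]
    have h9 := mul_le_mul_of_nonneg_left hgeo hy0.le
    linarith [hsplit E]

private theorem phs_omega (n : ℕ) (hn : n ≠ 0) :
    (8 : ℝ) ^ n.primeFactors.card ≤ (n.divisors.card : ℝ) ^ 3 := by
  have h1 : 2 ^ n.primeFactors.card ≤ n.divisors.card := by
    rw [Nat.card_divisors hn, ← Finset.prod_const]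
    refine Finset.prod_le_prod' fun l hl => ?_
    have := (Nat.mem_primeFactors.1 hl)
    have h2 : 1 ≤ n.factorization l := this.1.factorization_pos_of_dvd hn this.2.1
    omega
  have h2 : ((2 : ℝ) ^ n.primeFactors.card) ≤ n.divisors.card := by exact_mod_cast h1
  calc (8 : ℝ) ^ n.primeFactors.card = ((2 : ℝ) ^ n.primeFactors.card) ^ 3 := by
        rw [← pow_mul, mul_comm, pow_mul]
        norm_num
    _ ≤ (n.divisors.card : ℝ) ^ 3 := pow_le_pow_left₀ (by positivity) h2 3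

private theorem phs_prod (G N : ℕ) (hG : 1 ≤ G) :
    ∏ l ∈ (Icc 1 N).filter Nat.Prime, (1 + if l ∣ 6 * G then (7 : ℝ) else 8 / (l : ℝ)) ≤
      Real.exp (8 * ∑ l ∈ (Icc 1 N).filter Nat.Prime, (1 : ℝ) / l) *
        8 ^ (6 * G).primeFactors.card := by
  have h1 : ∀ l ∈ (Icc 1 N).filter Nat.Prime,
      (1 + if l ∣ 6 * G then (7 : ℝ) else 8 / (l : ℝ)) ≤
      Real.exp (8 * (1 / (l : ℝ))) * (if l ∣ 6 * G then 8 else 1) := by
    intro l _
    split_ifs
    · have : 1 ≤ Real.exp (8 * (1 / (l : ℝ))) := Real.one_le_exp (by positivity)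
      linarith
    · have := Real.add_one_le_exp (8 * (1 / (l : ℝ)))
      have h2 : 8 * (1 / (l : ℝ)) = 8 / l := by ring
      rw [h2] at this ⊢
      linarith
  have h0 : ∀ l ∈ (Icc 1 N).filter Nat.Prime,
      0 ≤ (1 + if l ∣ 6 * G then (7 : ℝ) else 8 / (l : ℝ)) := by
    intro l _
    split_ifs <;> positivity
  refine (Finset.prod_le_prod h0 h1).trans ?_
  rw [Finset.prod_mul_distrib, ← Real.exp_sum, ← Finset.mul_sum]
  refine mul_le_mul_of_nonneg_left ?_ (Real.exp_pos _).le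
  rw [Finset.prod_ite, Finset.prod_const, Finset.prod_const_one, mul_one]
  refine pow_le_pow_right₀ (by norm_num) (card_le_card ?_)
  intro l hl
  rw [mem_filter, mem_filter] at hl
  rw [Nat.mem_primeFactors]
  exact ⟨hl.1.2, hl.2, by omega⟩

theorem phs {ε : ℝ} (hε : 0 < ε) : ∃ K : ℝ, 0 < K ∧ ∀ T : ℝ, 2 ≤ T → ∀ G : ℕ, 1 ≤ G →
    (G : ℝ) ≤ T → ∀ N : ℕ, (N : ℝ) ≤ 2 * T ^ 8 →
    ∑ s ∈ Icc 1 N, phi G s / (s : ℝ) ≤ K * T ^ ε := by
  obtain ⟨C, hC1, hC⟩ := NTot.mertens_inv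
  obtain ⟨c, hc0, hc⟩ := FTA.divisor_bound (ε := ε / 24) (by positivity)
  refine ⟨Real.exp (8 * C) * (10 * (16 / ε)) ^ 8 * c ^ 3, by positivity, ?_⟩
  intro T hT G hG hGT N hN
  have hT0 : 0 < T := by linarith
  have hT1 : 1 ≤ T := by linarith
  have h1 : ∑ s ∈ Icc 1 N, phi G s / (s : ℝ) ≤
      ∏ l ∈ (Icc 1 N).filter Nat.Prime, (1 + if l ∣ 6 * G then (7 : ℝ) else 8 / (l : ℝ)) := by
    refine eul (fun s => phi G s / (s : ℝ)) (fun l => if l ∣ 6 * G then (7 : ℝ) else 8 / (l : ℝ))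
      (fun n => div_nonneg (phs_phi_nn G n) (by positivity)) ?_ ?_ (fun l hl E => phs_loc G l hl E) N
    · unfold phi
      simp
    · intro m n hm hn hmn
      show phi G (m * n) / ((m * n : ℕ) : ℝ) = phi G m / (m : ℝ) * (phi G n / (n : ℝ))
      rw [phs_mul G m n hm hn hmn]
      push_cast
      rw [div_mul_div_comm]
  refine h1.trans ((phs_prod G N hG).trans ?_)
  -- the prime sum
  have hN3 : ∑ l ∈ (Icc 1 N).filter Nat.Prime, (1 : ℝ) / l ≤
      Real.log (Real.log ((N + 3 : ℕ) : ℝ)) + C := by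
    refine le_trans ?_ (hC (N + 3) (by omega))
    unfold NTot.PZ
    refine Finset.sum_le_sum_of_subset_of_nonneg ?_ (fun i _ _ => by positivity)
    exact filter_subset_filter _ (Icc_subset_Icc le_rfl (by omega))
  have hlogN : 1 ≤ Real.log ((N + 3 : ℕ) : ℝ) := by
    rw [Real.le_log_iff_exp_le (by positivity)]
    have h2 := Real.exp_one_lt_d9
    push_cast
    have : (0 : ℝ) ≤ N := by positivity
    linarith
  have hlogT : Real.log ((N + 3 : ℕ) : ℝ) ≤ 10 * Real.log T := by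
    have h2 : ((N + 3 : ℕ) : ℝ) ≤ T ^ 10 := by
      push_cast
      have h3 : (2 : ℝ) ^ 8 ≤ T ^ 8 := pow_le_pow_left₀ (by norm_num) hT 8
      have h4 : T ^ 10 = T ^ 8 * T ^ 2 := by ring
      have h5 : (4 : ℝ) ≤ T ^ 2 := by nlinarith
      rw [h4]
      nlinarith
    have h6 := Real.log_le_log (by positivity) h2
    rwa [Real.log_pow] at h6
  have hexp : Real.exp (8 * ∑ l ∈ (Icc 1 N).filter Nat.Prime, (1 : ℝ) / l) ≤
      Real.exp (8 * C) * (10 * (16 / ε)) ^ 8 * T ^ (ε / 2) := by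
    calc Real.exp (8 * ∑ l ∈ (Icc 1 N).filter Nat.Prime, (1 : ℝ) / l) ≤
          Real.exp (8 * (Real.log (Real.log ((N + 3 : ℕ) : ℝ)) + C)) :=
          Real.exp_le_exp.2 (by linarith)
      _ = Real.exp (8 * C) * (Real.log ((N + 3 : ℕ) : ℝ)) ^ 8 := by
          rw [mul_add, Real.exp_add, mul_comm]
          congr 1
          rw [show (8 : ℝ) * Real.log (Real.log ((N + 3 : ℕ) : ℝ)) =
            ((8 : ℕ) : ℝ) * Real.log (Real.log ((N + 3 : ℕ) : ℝ)) by norm_num, Real.exp_nat_mul,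
            Real.exp_log (by linarith)]
      _ ≤ Real.exp (8 * C) * (10 * (16 / ε) * T ^ (ε / 16)) ^ 8 := by
          refine mul_le_mul_of_nonneg_left (pow_le_pow_left₀ (by linarith) ?_ 8)
            (Real.exp_pos _).le
          refine hlogT.trans ?_
          have h2 := Real.log_le_rpow_div hT0.le (show 0 < ε / 16 by positivity)
          have h3 : T ^ (ε / 16) / (ε / 16) = (16 / ε) * T ^ (ε / 16) := by
            field_simp
          rw [h3] at h2
          nlinarith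
      _ = Real.exp (8 * C) * (10 * (16 / ε)) ^ 8 * T ^ (ε / 2) := by
          rw [mul_pow, ← Real.rpow_natCast (T ^ (ε / 16)) 8, ← Real.rpow_mul hT0.le]
          rw [show ε / 16 * ((8 : ℕ) : ℝ) = ε / 2 by push_cast; ring]
          ring
  have hom : (8 : ℝ) ^ (6 * G).primeFactors.card ≤ c ^ 3 * T ^ (ε / 2) := by
    have hG0 : 6 * G ≠ 0 := by omega
    refine (phs_omega (6 * G) hG0).trans ?_
    have h2 := hc (6 * G) hG0
    have h3 : ((6 * G : ℕ) : ℝ) ≤ T ^ 4 := by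
      push_cast
      have h5 : (6 : ℝ) ≤ T ^ 3 := by
        have := pow_le_pow_left₀ (by norm_num : (0 : ℝ) ≤ 2) hT 3
        linarith
      calc 6 * (G : ℝ) ≤ T ^ 3 * T := mul_le_mul h5 hGT (by positivity) (by positivity)
        _ = T ^ 4 := by ring
    have h4 : (((6 * G : ℕ) : ℝ)) ^ (ε / 24) ≤ T ^ (ε / 6) := by
      calc (((6 * G : ℕ) : ℝ)) ^ (ε / 24) ≤ (T ^ 4) ^ (ε / 24) :=
            Real.rpow_le_rpow (by positivity) h3 (by positivity)
        _ = T ^ (ε / 6) := by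
            rw [← Real.rpow_natCast T 4, ← Real.rpow_mul hT0.le]
            congr 1
            push_cast
            ring
    calc ((6 * G).divisors.card : ℝ) ^ 3 ≤ (c * T ^ (ε / 6)) ^ 3 := by
          refine pow_le_pow_left₀ (by positivity) (h2.trans ?_) 3
          exact mul_le_mul_of_nonneg_left h4 hc0.le
      _ = c ^ 3 * T ^ (ε / 2) := by
          rw [mul_pow, ← Real.rpow_natCast (T ^ (ε / 6)) 3, ← Real.rpow_mul hT0.le]
          rw [show ε / 6 * ((3 : ℕ) : ℝ) = ε / 2 by push_cast; ring]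
  calc Real.exp (8 * ∑ l ∈ (Icc 1 N).filter Nat.Prime, (1 : ℝ) / l) *
        8 ^ (6 * G).primeFactors.card ≤
        (Real.exp (8 * C) * (10 * (16 / ε)) ^ 8 * T ^ (ε / 2)) * (c ^ 3 * T ^ (ε / 2)) :=
        mul_le_mul hexp hom (by positivity) (by positivity)
    _ = Real.exp (8 * C) * (10 * (16 / ε)) ^ 8 * c ^ 3 * (T ^ (ε / 2) * T ^ (ε / 2)) := by ring
    _ = Real.exp (8 * C) * (10 * (16 / ε)) ^ 8 * c ^ 3 * T ^ ε := by
        rw [← Real.rpow_add hT0, add_halves]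

end Pool.Agent.PPW
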