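import Pool.Agent.PPW.Defs

/-!
# From the box to the pairs `(p, Δ)` (difficulty 3)

For `x = (p, a, b, c)` in the box: `p ≠ 0`, `n = dx x ≠ 0` (as `P, Z ≥ 1`), so `(p, n)` is in
`NZ P ×ˢ NZ Z`.  For a given pair `(p, n)` the number of `(a, b, c)` is at most `4 τ ^ 2`:
`N = a b c = n + p ^ 3` is nonzero (`Y_i ≥ 1`), `|N| ≤ 8 Y1 Y2 Y3`; `a` and `b` divide `N`
(`|a|, |b|` in `N.natAbs.divisors`, two signs each) and `c` is determined by `a, b`.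
(`Finset.sum_fiberwise_of_maps_to` and a bound of the cardinality of the fibres.)
`card_box`: the number of points of the box is at most `256 P Y1 Y2 Y3`; with `F = 1`, at most
`4 τ ^ 2 * 4 P * 4 Z`.
-/

set_option autoImplicit false

namespace Pool.Agent.PPW

open Finset Pool.Agent.PPS

private lemma tup_card_Ioo (N : ℕ) : (Ioo (-(2 * N : ℤ)) (2 * N)).card ≤ 4 * N := by
  rw [Int.card_Ioo]
  omega

private noncomputable def tupD (N : ℤ) : Finset ℤ :=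
  (N.natAbs.divisors.image (fun d : ℕ => (d : ℤ))) ∪ (N.natAbs.divisors.image (fun d : ℕ => -(d : ℤ)))

private lemma tupD_card (N : ℤ) : (tupD N).card ≤ 2 * N.natAbs.divisors.card := by
  unfold tupD
  refine (Finset.card_union_le _ _).trans ?_
  have h1 : (N.natAbs.divisors.image (fun d : ℕ => (d : ℤ))).card ≤ N.natAbs.divisors.card :=
    Finset.card_image_le
  have h2 : (N.natAbs.divisors.image (fun d : ℕ => -(d : ℤ))).card ≤ N.natAbs.divisors.card :=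
    Finset.card_image_le
  omega

private lemma mem_tupD {N a : ℤ} (hN : N ≠ 0) (h : a ∣ N) : a ∈ tupD N := by
  unfold tupD
  rw [Finset.mem_union, Finset.mem_image, Finset.mem_image]
  have h1 : a.natAbs ∈ N.natAbs.divisors := by
    rw [Nat.mem_divisors]
    exact ⟨Int.natAbs_dvd_natAbs.mpr h, Int.natAbs_ne_zero.mpr hN⟩
  rcases Int.natAbs_eq a with h2 | h2
  · left
    exact ⟨a.natAbs, h1, h2.symm⟩
  · right
    exact ⟨a.natAbs, h1, h2.symm⟩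

private lemma tup_ne {N : ℕ} {a : ℤ} (hN : 1 ≤ N) (h : (N : ℤ) ≤ |a|) : a ≠ 0 := by
  intro h0
  rw [h0, abs_zero] at h
  omega

private lemma tup_fibre {P Y1 Y2 Y3 Z τ : ℕ} (h1 : 1 ≤ Y1) (h2 : 1 ≤ Y2) (h3 : 1 ≤ Y3)
    (hτ : ∀ n : ℕ, n ≠ 0 → n ≤ 8 * (Y1 * Y2 * Y3) → n.divisors.card ≤ τ) (p n : ℤ) :
    ((Bx P Y1 Y2 Y3 Z).filter (fun x => (x.1, dx x) = (p, n))).card ≤ 4 * τ ^ 2 := by
  classical
  rcases Finset.eq_empty_or_nonempty ((Bx P Y1 Y2 Y3 Z).filter (fun x => (x.1, dx x) = (p, n)))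
    with h | ⟨x0, hx0⟩
  · rw [h]; simp
  · set N : ℤ := n + p ^ 3 with hN
    have key : ∀ x ∈ (Bx P Y1 Y2 Y3 Z).filter (fun x => (x.1, dx x) = (p, n)),
        x.1 = p ∧ x.2.1 * x.2.2.1 * x.2.2.2 = N ∧ x.2.1 ≠ 0 ∧ x.2.2.1 ≠ 0 ∧ x.2.2.2 ≠ 0 ∧
          |N| ≤ 8 * (Y1 * Y2 * Y3) := by
      intro x hx
      rw [Finset.mem_filter, mem_Bx] at hx
      obtain ⟨⟨⟨b1, b2⟩, ⟨b3, b4⟩, ⟨b5, b6⟩, ⟨b7, b8⟩, b9⟩, hxx⟩ := hx
      rw [Prod.mk.injEq] at hxx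
      obtain ⟨c1, c2⟩ := hxx
      have c3 : x.2.1 * x.2.2.1 * x.2.2.2 = N := by
        rw [hN, ← c2, ← c1]
        unfold dx del
        ring
      refine ⟨c1, c3, tup_ne h1 b3, tup_ne h2 b5, tup_ne h3 b7, ?_⟩
      rw [← c3, abs_mul, abs_mul]
      have e1 : |x.2.1| * |x.2.2.1| ≤ (2 * Y1) * (2 * Y2) :=
        mul_le_mul b4.le b6.le (abs_nonneg _) (by positivity)
      have e2 : |x.2.1| * |x.2.2.1| * |x.2.2.2| ≤ (2 * Y1) * (2 * Y2) * (2 * Y3) :=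
        mul_le_mul e1 b8.le (abs_nonneg _) (by positivity)
      refine e2.trans (le_of_eq ?_)
      ring
    have hN0 : N ≠ 0 := by
      obtain ⟨_, c3, n1, n2, n3, _⟩ := key x0 hx0
      rw [← c3]
      exact mul_ne_zero (mul_ne_zero n1 n2) n3
    have hNle : N.natAbs ≤ 8 * (Y1 * Y2 * Y3) := by
      obtain ⟨_, _, _, _, _, c6⟩ := key x0 hx0
      have : ((N.natAbs : ℕ) : ℤ) ≤ ((8 * (Y1 * Y2 * Y3) : ℕ) : ℤ) := by
        rw [Int.natCast_natAbs]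
        push_cast
        exact c6
      exact_mod_cast this
    have hcard : N.natAbs.divisors.card ≤ τ := hτ _ (Int.natAbs_ne_zero.mpr hN0) hNle
    have hmap : ∀ x ∈ (Bx P Y1 Y2 Y3 Z).filter (fun x => (x.1, dx x) = (p, n)),
        (x.2.1, x.2.2.1) ∈ tupD N ×ˢ tupD N := by
      intro x hx
      obtain ⟨_, c3, _, _, _, _⟩ := key x hx
      rw [Finset.mem_product]
      refine ⟨mem_tupD hN0 ?_, mem_tupD hN0 ?_⟩
      · exact ⟨x.2.2.1 * x.2.2.2, by rw [← c3]; ring⟩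
      · exact ⟨x.2.1 * x.2.2.2, by rw [← c3]; ring⟩
    have hinj : Set.InjOn (fun x : ℤ × ℤ × ℤ × ℤ => (x.2.1, x.2.2.1))
        ((Bx P Y1 Y2 Y3 Z).filter (fun x => (x.1, dx x) = (p, n)) : Finset (ℤ × ℤ × ℤ × ℤ)) := by
      intro x hx y hy hxy
      obtain ⟨c1, c3, c4, c5, _, _⟩ := key x (by exact_mod_cast hx)
      obtain ⟨d1, d3, _, _, _, _⟩ := key y (by exact_mod_cast hy)
      simp only [Prod.mk.injEq] at hxy
      obtain ⟨u1, u2⟩ := hxy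
      obtain ⟨x1, x2, x3, x4⟩ := x
      obtain ⟨y1, y2, y3, y4⟩ := y
      simp only at c1 c3 c4 c5 d1 d3 u1 u2
      subst u1 u2
      have h4 : x2 * x3 * x4 = x2 * x3 * y4 := c3.trans d3.symm
      have h5 : x4 = y4 := mul_left_cancel₀ (mul_ne_zero c4 c5) h4
      rw [c1, d1, h5]
    have h5 := Finset.card_le_card_of_injOn _ hmap hinj
    rw [Finset.card_product] at h5
    have h6 : (tupD N).card ≤ 2 * τ := (tupD_card N).trans (Nat.mul_le_mul_left 2 hcard)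
    calc _ ≤ (tupD N).card * (tupD N).card := h5
      _ ≤ (2 * τ) * (2 * τ) := Nat.mul_le_mul h6 h6
      _ = 4 * τ ^ 2 := by ring

theorem tup {P Y1 Y2 Y3 Z τ : ℕ} (hP : 1 ≤ P) (h1 : 1 ≤ Y1) (h2 : 1 ≤ Y2) (h3 : 1 ≤ Y3)
    (hZ : 1 ≤ Z) (hτ : ∀ n : ℕ, n ≠ 0 → n ≤ 8 * (Y1 * Y2 * Y3) → n.divisors.card ≤ τ)
    (F : ℤ → ℤ → ℝ) (hF : ∀ p n, 0 ≤ F p n) :
    ∑ x ∈ Bx P Y1 Y2 Y3 Z, F x.1 (dx x) ≤
      4 * (τ : ℝ) ^ 2 * ∑ p ∈ NZ P, ∑ n ∈ NZ Z, F p n := by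
  classical
  have hmaps : ∀ x ∈ Bx P Y1 Y2 Y3 Z, (x.1, dx x) ∈ NZ P ×ˢ NZ Z := by
    intro x hx
    rw [mem_Bx] at hx
    obtain ⟨⟨b1, b2⟩, _, _, _, ⟨b9, b10⟩⟩ := hx
    rw [Finset.mem_product]
    unfold NZ
    rw [Finset.mem_filter, Finset.mem_filter, Finset.mem_Ioo, Finset.mem_Ioo]
    exact ⟨⟨abs_lt.mp b2, tup_ne hP b1⟩, ⟨abs_lt.mp b10, tup_ne hZ b9⟩⟩
  have hrhs : 4 * (τ : ℝ) ^ 2 * ∑ p ∈ NZ P, ∑ n ∈ NZ Z, F p n
      = ∑ y ∈ NZ P ×ˢ NZ Z, 4 * (τ : ℝ) ^ 2 * F y.1 y.2 := by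
    rw [Finset.mul_sum, Finset.sum_product]
    refine Finset.sum_congr rfl fun p _ => ?_
    rw [Finset.mul_sum]
  rw [← Finset.sum_fiberwise_of_maps_to hmaps, hrhs]
  refine Finset.sum_le_sum fun y _ => ?_
  obtain ⟨p, n⟩ := y
  have hinner : ∑ x ∈ (Bx P Y1 Y2 Y3 Z).filter (fun x => (x.1, dx x) = (p, n)), F x.1 (dx x)
      = (((Bx P Y1 Y2 Y3 Z).filter (fun x => (x.1, dx x) = (p, n))).card : ℝ) * F p n := by
    rw [← nsmul_eq_mul, ← Finset.sum_const]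
    refine Finset.sum_congr rfl fun x hx => ?_
    rw [Finset.mem_filter, Prod.mk.injEq] at hx
    rw [hx.2.1, hx.2.2]
  rw [hinner]
  refine mul_le_mul_of_nonneg_right ?_ (hF p n)
  have h := tup_fibre (P := P) (Z := Z) h1 h2 h3 hτ p n
  exact_mod_cast h

theorem card_NZ {P : ℕ} (hP : 1 ≤ P) : (NZ P).card ≤ 4 * P := by
  unfold NZ
  exact (Finset.card_filter_le _ _).trans (tup_card_Ioo P)

theorem card_box (P Y1 Y2 Y3 Z : ℕ) :
    (Bx P Y1 Y2 Y3 Z).card ≤ 256 * (P * (Y1 * Y2 * Y3)) := by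
  unfold Bx
  refine (Finset.card_filter_le _ _).trans ?_
  rw [Finset.card_product, Finset.card_product, Finset.card_product]
  calc _ ≤ (4 * P) * ((4 * Y1) * ((4 * Y2) * (4 * Y3))) :=
        Nat.mul_le_mul (tup_card_Ioo P) (Nat.mul_le_mul (tup_card_Ioo Y1)
          (Nat.mul_le_mul (tup_card_Ioo Y2) (tup_card_Ioo Y3)))
    _ = 256 * (P * (Y1 * Y2 * Y3)) := by ring

end Pool.Agent.PPW
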