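import Pool.Agent.PPW.Rrs
import Pool.Agent.PPW.Phs
import Pool.Agent.PPW.Tup

/-!
# The sum of `H` over the pairs `(p, n)` (difficulty 3)
-/

set_option autoImplicit false

namespace Pool.Agent.PPW

open Finset Pool.Agent.PPS

theorem cnt_dvd {P r : ℕ} (hr : 1 ≤ r) :
    (((NZ P).filter (fun x => (r : ℤ) ∣ x)).card : ℝ) ≤ 4 * P / r := by
  classical
  have hrR : (0 : ℝ) < r := by exact_mod_cast hr
  -- map `t ∈ [1, 2P/r]` and sign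
  have hsub : (NZ P).filter (fun x => (r : ℤ) ∣ x) ⊆
      ((Icc 1 (2 * P / r)).image (fun t : ℕ => ((r * t : ℕ) : ℤ))) ∪
        ((Icc 1 (2 * P / r)).image (fun t : ℕ => -((r * t : ℕ) : ℤ))) := by
    intro x hx
    simp only [NZ, mem_filter, mem_Ioo] at hx
    obtain ⟨⟨⟨h1, h2⟩, h0⟩, hd⟩ := hx
    have hna : r ∣ x.natAbs := Int.natCast_dvd.1 hd
    obtain ⟨t, ht⟩ := hna
    have hxa : x.natAbs < 2 * P := by omega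
    have ht1 : 1 ≤ t := by
      rcases Nat.eq_zero_or_pos t with h | h
      · rw [h, mul_zero] at ht
        exact absurd (Int.natAbs_eq_zero.1 ht) h0
      · exact h
    have ht2 : t ≤ 2 * P / r := by
      rw [Nat.le_div_iff_mul_le (by omega), mul_comm]
      omega
    rw [mem_union, mem_image, mem_image]
    rcases Int.natAbs_eq x with h | h
    · left
      exact ⟨t, mem_Icc.2 ⟨ht1, ht2⟩, by rw [h, ht]⟩
    · right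
      exact ⟨t, mem_Icc.2 ⟨ht1, ht2⟩, by rw [h, ht]⟩
  have hc : ((NZ P).filter (fun x => (r : ℤ) ∣ x)).card ≤ 2 * (2 * P / r) := by
    refine (card_le_card hsub).trans ((card_union_le _ _).trans ?_)
    have e1 := card_image_le (s := Icc 1 (2 * P / r)) (f := fun t : ℕ => ((r * t : ℕ) : ℤ))
    have e2 := card_image_le (s := Icc 1 (2 * P / r)) (f := fun t : ℕ => -((r * t : ℕ) : ℤ))
    rw [Nat.card_Icc] at e1 e2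
    omega
  have hc2 : (((NZ P).filter (fun x => (r : ℤ) ∣ x)).card : ℝ) ≤ 2 * ((2 * P / r : ℕ) : ℝ) := by
    exact_mod_cast hc
  have h3 : ((2 * P / r : ℕ) : ℝ) ≤ 2 * P / r := by
    have := @Nat.cast_div_le ℝ _ _ _ (2 * P) r
    push_cast at this
    exact this
  calc (((NZ P).filter (fun x => (r : ℤ) ∣ x)).card : ℝ) ≤ 2 * ((2 * P / r : ℕ) : ℝ) := hc2
    _ ≤ 2 * (2 * P / r) := by linarith
    _ = 4 * P / r := by ring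

/-- the constant `∑ √r / r ^ 2` -/
private theorem Hsm_sum : ∃ S : ℝ, 0 < S ∧ ∀ A : ℕ,
    ∑ r ∈ Icc 1 A, Real.sqrt r / (r : ℝ) ^ 2 ≤ S := by
  have hs : Summable (fun n : ℕ => (n : ℝ) ^ (-(3 / 2 : ℝ))) :=
    Real.summable_nat_rpow.2 (by norm_num)
  refine ⟨∑' n : ℕ, (n : ℝ) ^ (-(3 / 2 : ℝ)) + 1, ?_, fun A => ?_⟩
  · have : 0 ≤ ∑' n : ℕ, (n : ℝ) ^ (-(3 / 2 : ℝ)) := tsum_nonneg fun n => by positivity
    linarith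
  · have h1 : ∑ r ∈ Icc 1 A, Real.sqrt r / (r : ℝ) ^ 2 = ∑ r ∈ Icc 1 A, (r : ℝ) ^ (-(3 / 2 : ℝ)) := by
      refine sum_congr rfl fun r hr => ?_
      have hr0 : (0 : ℝ) < r := by
        have := (mem_Icc.1 hr).1
        exact_mod_cast this
      rw [Real.sqrt_eq_rpow, ← Real.rpow_natCast, ← Real.rpow_sub hr0]
      norm_num
    rw [h1]
    have h2 := hs.sum_le_tsum (Icc 1 A) (fun n _ => by positivity)
    linarith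

theorem hsm {ε : ℝ} (hε : 0 < ε) : ∃ K : ℝ, 0 < K ∧ ∀ T : ℝ, 2 ≤ T → ∀ G : ℕ, 1 ≤ G →
    (G : ℝ) ≤ T → ∀ P Z : ℕ, 1 ≤ P → (P : ℝ) ≤ T ^ 8 → 1 ≤ Z → (Z : ℝ) ≤ T ^ 8 →
    ∑ p ∈ NZ P, ∑ n ∈ NZ Z, Real.sqrt (HH G p n.natAbs) ≤ K * T ^ ε * (P * Z) := by
  classical
  obtain ⟨K0, hK0, hK⟩ := phs hε
  obtain ⟨S, hS, hSum⟩ := Hsm_sum
  refine ⟨16 * S * S * K0, by positivity, ?_⟩
  intro T hT G hG hGT P Z hP hPT hZ hZT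
  have hmemA : ∀ p ∈ NZ P, p ≠ 0 ∧ p.natAbs ≤ 2 * P := by
    intro p hp
    simp only [NZ, mem_filter, mem_Ioo] at hp
    exact ⟨hp.2, by omega⟩
  have hmemN : ∀ p ∈ NZ Z, p ≠ 0 ∧ p.natAbs ≤ 2 * Z := by
    intro p hp
    simp only [NZ, mem_filter, mem_Ioo] at hp
    exact ⟨hp.2, by omega⟩
  -- step 1: the pointwise bound
  have h1 : ∑ p ∈ NZ P, ∑ n ∈ NZ Z, Real.sqrt (HH G p n.natAbs) ≤
      ∑ p ∈ NZ P, ∑ n ∈ NZ Z, ∑ r1 ∈ Icc 1 (2 * P), ∑ r2 ∈ Icc 1 (2 * P), ∑ s ∈ Icc 1 (2 * Z),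
        (if ((r1 * r2 : ℕ) : ℤ) ∣ p ∧ ((r1 * r2 ^ 2 * s : ℕ) : ℤ) ∣ n then
        Real.sqrt r1 * Real.sqrt r2 ^ 3 * phi G s else 0) := by
    refine sum_le_sum fun p hp => sum_le_sum fun n hn => ?_
    exact rrs (hmemA p hp).1 (hmemN n hn).1 (hmemA p hp).2 (hmemN n hn).2
  refine h1.trans ?_
  -- step 2: exchange of the sums
  have h2 : ∑ p ∈ NZ P, ∑ n ∈ NZ Z, ∑ r1 ∈ Icc 1 (2 * P), ∑ r2 ∈ Icc 1 (2 * P),
        ∑ s ∈ Icc 1 (2 * Z),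
        (if ((r1 * r2 : ℕ) : ℤ) ∣ p ∧ ((r1 * r2 ^ 2 * s : ℕ) : ℤ) ∣ n then
        Real.sqrt r1 * Real.sqrt r2 ^ 3 * phi G s else 0) =
      ∑ r1 ∈ Icc 1 (2 * P), ∑ r2 ∈ Icc 1 (2 * P), ∑ s ∈ Icc 1 (2 * Z),
        (Real.sqrt r1 * Real.sqrt r2 ^ 3 * phi G s) *
        ((((NZ P).filter (fun x => ((r1 * r2 : ℕ) : ℤ) ∣ x)).card : ℝ) *
        (((NZ Z).filter (fun x => ((r1 * r2 ^ 2 * s : ℕ) : ℤ) ∣ x)).card : ℝ)) := by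
    have e1 : ∀ p ∈ NZ P, ∑ n ∈ NZ Z, ∑ r1 ∈ Icc 1 (2 * P), ∑ r2 ∈ Icc 1 (2 * P),
        ∑ s ∈ Icc 1 (2 * Z),
        (if ((r1 * r2 : ℕ) : ℤ) ∣ p ∧ ((r1 * r2 ^ 2 * s : ℕ) : ℤ) ∣ n then
        Real.sqrt r1 * Real.sqrt r2 ^ 3 * phi G s else 0) =
        ∑ r1 ∈ Icc 1 (2 * P), ∑ r2 ∈ Icc 1 (2 * P),
        ∑ s ∈ Icc 1 (2 * Z), ∑ n ∈ NZ Z,
        (if ((r1 * r2 : ℕ) : ℤ) ∣ p ∧ ((r1 * r2 ^ 2 * s : ℕ) : ℤ) ∣ n then
        Real.sqrt r1 * Real.sqrt r2 ^ 3 * phi G s else 0) := by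
      intro p _
      rw [sum_comm]
      refine sum_congr rfl fun r1 _ => ?_
      rw [sum_comm]
      refine sum_congr rfl fun r2 _ => ?_
      rw [sum_comm]
    rw [sum_congr rfl e1, sum_comm]
    refine sum_congr rfl fun r1 _ => ?_
    rw [sum_comm]
    refine sum_congr rfl fun r2 _ => ?_
    rw [sum_comm]
    refine sum_congr rfl fun s _ => ?_
    have e2 : ∀ p ∈ NZ P, ∑ n ∈ NZ Z,
        (if ((r1 * r2 : ℕ) : ℤ) ∣ p ∧ ((r1 * r2 ^ 2 * s : ℕ) : ℤ) ∣ n then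
        Real.sqrt r1 * Real.sqrt r2 ^ 3 * phi G s else 0) =
        if ((r1 * r2 : ℕ) : ℤ) ∣ p then (Real.sqrt r1 * Real.sqrt r2 ^ 3 * phi G s) *
          (((NZ Z).filter (fun x => ((r1 * r2 ^ 2 * s : ℕ) : ℤ) ∣ x)).card : ℝ) else 0 := by
      intro p _
      by_cases hp : ((r1 * r2 : ℕ) : ℤ) ∣ p
      · simp only [hp, true_and, if_true]
        rw [← sum_filter, sum_const, nsmul_eq_mul, mul_comm]
      · simp only [hp, false_and, if_false, sum_const_zero]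
    rw [sum_congr rfl e2, ← sum_filter, sum_const, nsmul_eq_mul]
    ring
  rw [h2]
  -- step 3: the bound of each term
  have h3 : ∀ r1 ∈ Icc 1 (2 * P), ∀ r2 ∈ Icc 1 (2 * P), ∀ s ∈ Icc 1 (2 * Z),
      (Real.sqrt r1 * Real.sqrt r2 ^ 3 * phi G s) *
        ((((NZ P).filter (fun x => ((r1 * r2 : ℕ) : ℤ) ∣ x)).card : ℝ) *
        (((NZ Z).filter (fun x => ((r1 * r2 ^ 2 * s : ℕ) : ℤ) ∣ x)).card : ℝ)) ≤
      16 * (P * Z) * ((Real.sqrt r1 / (r1 : ℝ) ^ 2) * ((Real.sqrt r2 / (r2 : ℝ) ^ 2) *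
        (phi G s / (s : ℝ)))) := by
    intro r1 hr1 r2 hr2 s hs
    have g1 : 1 ≤ r1 := (mem_Icc.1 hr1).1
    have g2 : 1 ≤ r2 := (mem_Icc.1 hr2).1
    have g3 : 1 ≤ s := (mem_Icc.1 hs).1
    have p1 : (0 : ℝ) < r1 := by exact_mod_cast g1
    have p2 : (0 : ℝ) < r2 := by exact_mod_cast g2
    have p3 : (0 : ℝ) < s := by exact_mod_cast g3
    have c1 := cnt_dvd (P := P) (r := r1 * r2) (Nat.mul_pos g1 g2)
    have c2 := cnt_dvd (P := Z) (r := r1 * r2 ^ 2 * s)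
      (Nat.mul_pos (Nat.mul_pos g1 (pow_pos g2 2)) g3)
    have hphi := phi_nonneg G s
    have hc := mul_le_mul c1 c2 (by positivity) (by positivity)
    refine (mul_le_mul_of_nonneg_left hc (by positivity)).trans (le_of_eq ?_)
    have hsq : Real.sqrt r2 ^ 3 = r2 * Real.sqrt r2 := by
      rw [pow_succ, Real.sq_sqrt p2.le]
    rw [hsq]
    push_cast
    field_simp
    ring
  have h4 : ∑ r1 ∈ Icc 1 (2 * P), ∑ r2 ∈ Icc 1 (2 * P), ∑ s ∈ Icc 1 (2 * Z),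
        (Real.sqrt r1 * Real.sqrt r2 ^ 3 * phi G s) *
        ((((NZ P).filter (fun x => ((r1 * r2 : ℕ) : ℤ) ∣ x)).card : ℝ) *
        (((NZ Z).filter (fun x => ((r1 * r2 ^ 2 * s : ℕ) : ℤ) ∣ x)).card : ℝ)) ≤
      ∑ r1 ∈ Icc 1 (2 * P), ∑ r2 ∈ Icc 1 (2 * P), ∑ s ∈ Icc 1 (2 * Z),
      16 * (P * Z) * ((Real.sqrt r1 / (r1 : ℝ) ^ 2) * ((Real.sqrt r2 / (r2 : ℝ) ^ 2) *
        (phi G s / (s : ℝ)))) :=
    sum_le_sum fun r1 hr1 => sum_le_sum fun r2 hr2 => sum_le_sum fun s hs => h3 r1 hr1 r2 hr2 s hs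
  refine h4.trans ?_
  have h5 : ∑ r1 ∈ Icc 1 (2 * P), ∑ r2 ∈ Icc 1 (2 * P), ∑ s ∈ Icc 1 (2 * Z),
      16 * ((P : ℝ) * Z) * ((Real.sqrt r1 / (r1 : ℝ) ^ 2) * ((Real.sqrt r2 / (r2 : ℝ) ^ 2) *
        (phi G s / (s : ℝ)))) =
      16 * (P * Z) * ((∑ r1 ∈ Icc 1 (2 * P), Real.sqrt r1 / (r1 : ℝ) ^ 2) *
        ((∑ r2 ∈ Icc 1 (2 * P), Real.sqrt r2 / (r2 : ℝ) ^ 2) *
        (∑ s ∈ Icc 1 (2 * Z), phi G s / (s : ℝ)))) := by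
    simp only [← mul_sum, ← sum_mul]
  rw [h5]
  have hZ2 : ((2 * Z : ℕ) : ℝ) ≤ 2 * T ^ 8 := by push_cast; linarith
  have k1 := hSum (2 * P)
  have k3 := hK T hT G hG hGT (2 * Z) hZ2
  have n1 : 0 ≤ ∑ r ∈ Icc 1 (2 * P), Real.sqrt r / (r : ℝ) ^ 2 :=
    sum_nonneg fun r _ => by positivity
  have n3 : 0 ≤ ∑ s ∈ Icc 1 (2 * Z), phi G s / (s : ℝ) :=
    sum_nonneg fun s _ => div_nonneg (phi_nonneg G s) (Nat.cast_nonneg s)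
  have hT0 : 0 ≤ T ^ ε := Real.rpow_nonneg (by linarith) _
  have hPZ : (0 : ℝ) ≤ 16 * ((P : ℝ) * Z) := by positivity
  have k4 : (∑ r1 ∈ Icc 1 (2 * P), Real.sqrt r1 / (r1 : ℝ) ^ 2) *
        ((∑ r2 ∈ Icc 1 (2 * P), Real.sqrt r2 / (r2 : ℝ) ^ 2) *
        (∑ s ∈ Icc 1 (2 * Z), phi G s / (s : ℝ))) ≤ S * (S * (K0 * T ^ ε)) :=
    mul_le_mul k1 (mul_le_mul k1 k3 n3 hS.le) (mul_nonneg n1 n3) hS.le
  calc 16 * ((P : ℝ) * Z) * ((∑ r1 ∈ Icc 1 (2 * P), Real.sqrt r1 / (r1 : ℝ) ^ 2) *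
        ((∑ r2 ∈ Icc 1 (2 * P), Real.sqrt r2 / (r2 : ℝ) ^ 2) *
        (∑ s ∈ Icc 1 (2 * Z), phi G s / (s : ℝ))))
      ≤ 16 * ((P : ℝ) * Z) * (S * (S * (K0 * T ^ ε))) := mul_le_mul_of_nonneg_left k4 hPZ
    _ = 16 * S * S * K0 * T ^ ε * (P * Z) := by ring

end Pool.Agent.PPW
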