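import Pool.Agent.PPW.Wle
import Pool.Agent.PPW.Hsm
import Pool.Agent.FTA.DivB

/-!
# The average over all boxes with a divisor condition (difficulty 4; same proof as `avall` in Tail)

Notation of module Tail.  `∑ x ∈ Bx, W ^ (3/2) ≤ K T ^ η P Z`.  Let `B_d` be the set of `x ∈ Bx` with
`d ∣ dx x`.  By `tup` with `F p n = 1` if `d ∣ n`, `0` otherwise, `card_NZ` and `cnt_dvd` (Hsm):
`card B_d ≤ 4 τ ^ 2 * 4 P * (4 Z / d) = 64 τ ^ 2 P Z / d`; also `card B_d ≤ 256 τ ^ 2 P min Z (Y1 Y2 Y3)`.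
So `card B_d ≤ (64 τ ^ 2 P Z / d) ^ (2/5) * (256 τ ^ 2 P min) ^ (3/5)`.  Hölder (`3/2`, `3`):
`∑ x ∈ B_d, W ≤ (K T ^ η P Z) ^ (2/3) * (card B_d) ^ (1/3)
≤ K' T ^ ε * P * Z ^ (2/3 + 2/15) * min ^ (1/5) * d ^ (-2/15)`, `2/3 + 2/15 = 4/5`.
-/

set_option autoImplicit false

namespace Pool.Agent.PPW

open Finset Pool.Agent.PPS

private theorem tld_w32 {w τ h : ℕ} (hτ : 1 ≤ τ) (hw : w ^ 3 ≤ τ ^ 9 * h) :
    (w : ℝ) ^ (3 / 2 : ℝ) ≤ (τ : ℝ) ^ 5 * Real.sqrt h := by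
  have h0 : (0 : ℝ) ≤ w := Nat.cast_nonneg w
  have e1 : (w : ℝ) ^ (3 / 2 : ℝ) = Real.sqrt ((w : ℝ) ^ 3) := by
    rw [Real.sqrt_eq_rpow, ← Real.rpow_natCast (w : ℝ) 3, ← Real.rpow_mul h0]
    norm_num
  have hτr : (1 : ℝ) ≤ τ := by exact_mod_cast hτ
  have hw' : (w : ℝ) ^ 3 ≤ (τ : ℝ) ^ 9 * h := by exact_mod_cast hw
  have h2 : (w : ℝ) ^ 3 ≤ ((τ : ℝ) ^ 5) ^ 2 * h := by
    refine hw'.trans ?_
    have h3 : (τ : ℝ) ^ 9 ≤ ((τ : ℝ) ^ 5) ^ 2 := by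
      rw [← pow_mul]
      exact pow_le_pow_right₀ hτr (by norm_num)
    exact mul_le_mul_of_nonneg_right h3 (Nat.cast_nonneg h)
  rw [e1]
  calc Real.sqrt ((w : ℝ) ^ 3) ≤ Real.sqrt (((τ : ℝ) ^ 5) ^ 2 * h) := Real.sqrt_le_sqrt h2
    _ = (τ : ℝ) ^ 5 * Real.sqrt h := by
      rw [Real.sqrt_mul (by positivity), Real.sqrt_sq (by positivity)]

private theorem tld_holder {ι : Type*} (A : Finset ι) (f : ι → ℝ) (hf : ∀ i ∈ A, 0 ≤ f i) :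
    ∑ i ∈ A, f i ≤ (∑ i ∈ A, f i ^ (3 / 2 : ℝ)) ^ (2 / 3 : ℝ) * (A.card : ℝ) ^ (1 / 3 : ℝ) := by
  have hpq : (3 / 2 : ℝ).HolderConjugate 3 := by
    rw [Real.holderConjugate_iff]; norm_num
  have h := Real.inner_le_Lp_mul_Lq_of_nonneg A (g := fun _ => (1 : ℝ)) hpq hf
    (fun _ _ => zero_le_one)
  have e1 : (1 / (3 / 2) : ℝ) = 2 / 3 := by norm_num
  simp only [mul_one, Real.one_rpow, sum_const, nsmul_eq_mul, e1] at h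
  exact h

private theorem tld_core {ε : ℝ} (hε : 0 < ε) : ∃ K : ℝ, 0 < K ∧ ∀ T : ℝ, 2 ≤ T → ∀ G : ℕ, 1 ≤ G →
    (G : ℝ) ≤ T → ∀ P Y1 Y2 Y3 Z : ℕ, 1 ≤ P → 1 ≤ Y1 → 1 ≤ Y2 → 1 ≤ Y3 → 1 ≤ Z →
    (P : ℝ) ≤ T ^ 8 → (Y1 : ℝ) ≤ T ^ 8 → (Y2 : ℝ) ≤ T ^ 8 → (Y3 : ℝ) ≤ T ^ 8 →
    (Z : ℝ) ≤ T ^ 8 → ∃ U : ℝ, 0 < U ∧ U ≤ K * T ^ ε ∧
      (∀ A : Finset (ℤ × ℤ × ℤ × ℤ), A ⊆ Bx P Y1 Y2 Y3 Z →
        ∑ x ∈ A, (Wt G x.1 x.2.1 x.2.2.1 x.2.2.2 : ℝ) ≤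
          (U * (P * Z)) ^ (2 / 3 : ℝ) * (A.card : ℝ) ^ (1 / 3 : ℝ)) ∧
      ((Bx P Y1 Y2 Y3 Z).card : ℝ) ≤ U * (P * min (Z : ℝ) (Y1 * Y2 * Y3)) ∧
      ∀ d : ℕ, 1 ≤ d → (((Bx P Y1 Y2 Y3 Z).filter (fun x => (d : ℤ) ∣ dx x)).card : ℝ) ≤
        U * (P * (Z / d)) := by
  obtain ⟨c, hc, hdiv⟩ := Pool.Agent.FTA.divisor_bound (ε := ε / 2000) (by positivity)
  obtain ⟨K, hK, hsum⟩ := hsm (ε := ε / 2) (by positivity)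
  refine ⟨256 * (K + 1) * c ^ 7, by positivity, ?_⟩
  intro T hT G hG hGT P Y1 Y2 Y3 Z hP h1 h2 h3 hZ hP8 h18 h28 h38 hZ8
  have hT0 : (0 : ℝ) < T := by linarith
  have hT1 : (1 : ℝ) ≤ T := by linarith
  obtain ⟨D, hD⟩ : ∃ D : ℝ, D = c * T ^ (27 * (ε / 2000)) := ⟨_, rfl⟩
  have hD0 : 0 < D := by rw [hD]; positivity
  have hdd : ∀ n : ℕ, n ≠ 0 → (n : ℝ) ≤ T ^ 27 → n.divisors.card ≤ ⌊D⌋₊ := by
    intro n hn hn27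
    apply Nat.le_floor
    refine (hdiv n hn).trans ?_
    rw [hD]
    apply mul_le_mul_of_nonneg_left _ hc.le
    calc (n : ℝ) ^ (ε / 2000) ≤ (T ^ 27) ^ (ε / 2000) :=
          Real.rpow_le_rpow (Nat.cast_nonneg n) hn27 (by positivity)
      _ = T ^ (27 * (ε / 2000)) := by
          rw [← Real.rpow_natCast T 27, ← Real.rpow_mul hT0.le]
          norm_num
  obtain ⟨τ, hτ⟩ : ∃ τ : ℕ, τ = ⌊D⌋₊ := ⟨_, rfl⟩
  rw [← hτ] at hdd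
  have hτD : (τ : ℝ) ≤ D := by rw [hτ]; exact Nat.floor_le hD0.le
  have hτ1 : 1 ≤ τ := by
    have h := hdd 1 one_ne_zero (by simpa using one_le_pow₀ hT1)
    simpa using h
  have hτr : (1 : ℝ) ≤ τ := by exact_mod_cast hτ1
  have hTe1 : (1 : ℝ) ≤ T ^ (ε / 2) := Real.one_le_rpow hT1 (by positivity)
  have hT24 : (8 : ℝ) * T ^ 24 ≤ T ^ 27 := by
    have e : T ^ 27 = T ^ 3 * T ^ 24 := by ring
    rw [e]
    have h8 : (8 : ℝ) ≤ T ^ 3 := by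
      calc (8 : ℝ) = 2 ^ 3 := by norm_num
        _ ≤ T ^ 3 := pow_le_pow_left₀ (by norm_num) hT 3
    exact mul_le_mul_of_nonneg_right h8 (by positivity)
  have hY24 : ((Y1 * Y2 * Y3 : ℕ) : ℝ) ≤ T ^ 24 := by
    push_cast
    calc (Y1 : ℝ) * Y2 * Y3 ≤ T ^ 8 * T ^ 8 * T ^ 8 := by gcongr
      _ = T ^ 24 := by ring
  have hτY : ∀ n : ℕ, n ≠ 0 → n ≤ 8 * (Y1 * Y2 * Y3) → n.divisors.card ≤ τ := by
    intro n hn hle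
    apply hdd n hn
    have h4 : (n : ℝ) ≤ 8 * ((Y1 * Y2 * Y3 : ℕ) : ℝ) := by exact_mod_cast hle
    linarith
  have hPZ : (0 : ℝ) ≤ P * Z := by positivity
  -- the constant
  obtain ⟨U, hU⟩ : ∃ U : ℝ, U = 256 * (K + 1) * T ^ (ε / 2) * (τ : ℝ) ^ 7 := ⟨_, rfl⟩
  have hU0 : 0 < U := by rw [hU]; positivity
  have hUK : U ≤ 256 * (K + 1) * c ^ 7 * T ^ ε := by
    rw [hU]
    have h4 : (τ : ℝ) ^ 7 ≤ D ^ 7 := pow_le_pow_left₀ (by positivity) hτD 7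
    have h5 : D ^ 7 = c ^ 7 * T ^ (189 * (ε / 2000)) := by
      rw [hD, mul_pow, ← Real.rpow_natCast (T ^ (27 * (ε / 2000))) 7, ← Real.rpow_mul hT0.le]
      congr 2
      push_cast
      ring
    have h6 : T ^ (ε / 2) * T ^ (189 * (ε / 2000)) ≤ T ^ ε := by
      rw [← Real.rpow_add hT0]
      exact Real.rpow_le_rpow_of_exponent_le hT1 (by linarith)
    calc 256 * (K + 1) * T ^ (ε / 2) * (τ : ℝ) ^ 7
        ≤ 256 * (K + 1) * T ^ (ε / 2) * (c ^ 7 * T ^ (189 * (ε / 2000))) := by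
          rw [← h5]; gcongr
      _ = 256 * (K + 1) * c ^ 7 * (T ^ (ε / 2) * T ^ (189 * (ε / 2000))) := by ring
      _ ≤ 256 * (K + 1) * c ^ 7 * T ^ ε := by gcongr
  -- the sum of `H`
  have hS : ∑ x ∈ Bx P Y1 Y2 Y3 Z, Real.sqrt (HH G x.1 (dx x).natAbs)
      ≤ 4 * (τ : ℝ) ^ 2 * (K * T ^ (ε / 2) * (P * Z)) := by
    refine (tup hP h1 h2 h3 hZ hτY (fun p n => Real.sqrt (HH G p n.natAbs))
      (fun p n => Real.sqrt_nonneg _)).trans ?_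
    exact mul_le_mul_of_nonneg_left (hsum T hT G hG hGT P Z hP hP8 hZ hZ8) (by positivity)
  have hτ27 : (τ : ℝ) ^ 2 ≤ (τ : ℝ) ^ 7 := pow_le_pow_right₀ hτr (by norm_num)
  refine ⟨U, hU0, hUK, ?_, ?_, ?_⟩
  · intro A hA
    refine (tld_holder A _ fun x _ => Nat.cast_nonneg _).trans ?_
    apply mul_le_mul_of_nonneg_right _ (by positivity)
    apply Real.rpow_le_rpow (Finset.sum_nonneg fun x _ => by positivity) _ (by norm_num)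
    have h4 : ∀ x ∈ A, ((Wt G x.1 x.2.1 x.2.2.1 x.2.2.2 : ℕ) : ℝ) ^ (3 / 2 : ℝ)
        ≤ (τ : ℝ) ^ 5 * Real.sqrt (HH G x.1 (dx x).natAbs) := by
      intro x hx
      have hxB := mem_Bx.mp (hA hx)
      have hd1 : (1 : ℤ) ≤ |dx x| := by
        have h5 : (1 : ℤ) ≤ Z := by exact_mod_cast hZ
        exact h5.trans hxB.2.2.2.2.1
      have hd0 : dx x ≠ 0 := by
        intro h5
        rw [h5] at hd1
        simp at hd1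
      apply tld_w32 hτ1
      refine (wle (G := G) hd0).trans ?_
      apply Nat.mul_le_mul_right
      apply Nat.pow_le_pow_left
      apply hdd _ (Int.natAbs_ne_zero.mpr hd0)
      have h6 : ((dx x).natAbs : ℝ) < 2 * Z := by
        have h7 : ((dx x).natAbs : ℤ) < 2 * Z := by
          rw [Int.natCast_natAbs]
          exact hxB.2.2.2.2.2
        exact_mod_cast h7
      have h8 : T ^ 8 ≤ T ^ 24 := pow_le_pow_right₀ hT1 (by norm_num)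
      have h9 : (0 : ℝ) ≤ T ^ 24 := by positivity
      linarith
    calc ∑ x ∈ A, ((Wt G x.1 x.2.1 x.2.2.1 x.2.2.2 : ℕ) : ℝ) ^ (3 / 2 : ℝ)
        ≤ ∑ x ∈ A, (τ : ℝ) ^ 5 * Real.sqrt (HH G x.1 (dx x).natAbs) := Finset.sum_le_sum h4
      _ ≤ ∑ x ∈ Bx P Y1 Y2 Y3 Z, (τ : ℝ) ^ 5 * Real.sqrt (HH G x.1 (dx x).natAbs) :=
          Finset.sum_le_sum_of_subset_of_nonneg hA fun x _ _ => by positivity
      _ = (τ : ℝ) ^ 5 * ∑ x ∈ Bx P Y1 Y2 Y3 Z, Real.sqrt (HH G x.1 (dx x).natAbs) := by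
          rw [Finset.mul_sum]
      _ ≤ (τ : ℝ) ^ 5 * (4 * (τ : ℝ) ^ 2 * (K * T ^ (ε / 2) * (P * Z))) := by gcongr
      _ = 4 * K * T ^ (ε / 2) * (τ : ℝ) ^ 7 * (P * Z) := by ring
      _ ≤ 256 * (K + 1) * T ^ (ε / 2) * (τ : ℝ) ^ 7 * (P * Z) := by
          apply mul_le_mul_of_nonneg_right _ hPZ
          apply mul_le_mul_of_nonneg_right _ (by positivity)
          apply mul_le_mul_of_nonneg_right _ (by positivity)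
          linarith
      _ = U * (P * Z) := by rw [hU]
  · have hc1 : ((Bx P Y1 Y2 Y3 Z).card : ℝ) ≤ 256 * (P * ((Y1 : ℝ) * Y2 * Y3)) := by
      exact_mod_cast card_box P Y1 Y2 Y3 Z
    have hc2 : ((Bx P Y1 Y2 Y3 Z).card : ℝ) ≤ 64 * (τ : ℝ) ^ 2 * (P * Z) := by
      have h4 := tup hP h1 h2 h3 hZ hτY (fun _ _ => (1 : ℝ)) (fun _ _ => zero_le_one)
      simp only [sum_const, nsmul_eq_mul, mul_one] at h4
      have h5 : ((NZ P).card : ℝ) ≤ 4 * P := by exact_mod_cast card_NZ hP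
      have h6 : ((NZ Z).card : ℝ) ≤ 4 * Z := by exact_mod_cast card_NZ hZ
      calc ((Bx P Y1 Y2 Y3 Z).card : ℝ) ≤ 4 * (τ : ℝ) ^ 2 * ((NZ P).card * (NZ Z).card) := h4
        _ ≤ 4 * (τ : ℝ) ^ 2 * ((4 * P) * (4 * Z)) := by gcongr
        _ = 64 * (τ : ℝ) ^ 2 * (P * Z) := by ring
    have hU1 : 256 ≤ U := by
      rw [hU]
      have h4 : (1 : ℝ) ≤ (K + 1) * T ^ (ε / 2) * (τ : ℝ) ^ 7 := by
        have h5 : (1 : ℝ) ≤ K + 1 := by linarith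
        have h6 : (1 : ℝ) ≤ (τ : ℝ) ^ 7 := one_le_pow₀ hτr
        exact one_le_mul_of_one_le_of_one_le (one_le_mul_of_one_le_of_one_le h5 hTe1) h6
      calc (256 : ℝ) = 256 * 1 := by ring
        _ ≤ 256 * ((K + 1) * T ^ (ε / 2) * (τ : ℝ) ^ 7) := by gcongr
        _ = 256 * (K + 1) * T ^ (ε / 2) * (τ : ℝ) ^ 7 := by ring
    have hU2 : 64 * (τ : ℝ) ^ 2 ≤ U := by
      rw [hU]
      have h4 : (1 : ℝ) ≤ (K + 1) * T ^ (ε / 2) := by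
        have h5 : (1 : ℝ) ≤ K + 1 := by linarith
        exact one_le_mul_of_one_le_of_one_le h5 hTe1
      calc 64 * (τ : ℝ) ^ 2 ≤ 256 * 1 * (τ : ℝ) ^ 7 := by
            have h7 : (0 : ℝ) ≤ (τ : ℝ) ^ 7 := by positivity
            linarith
        _ ≤ 256 * ((K + 1) * T ^ (ε / 2)) * (τ : ℝ) ^ 7 := by gcongr
        _ = 256 * (K + 1) * T ^ (ε / 2) * (τ : ℝ) ^ 7 := by ring
    rw [mul_min_of_nonneg _ _ (by positivity : (0 : ℝ) ≤ P), mul_min_of_nonneg _ _ hU0.le]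
    refine le_min (hc2.trans ?_) (hc1.trans ?_)
    · exact mul_le_mul_of_nonneg_right hU2 hPZ
    · exact mul_le_mul_of_nonneg_right hU1 (by positivity)
  · intro d hd
    have hdr : (0 : ℝ) < d := by exact_mod_cast hd
    have h4 := tup hP h1 h2 h3 hZ hτY (fun _ n => if (d : ℤ) ∣ n then (1 : ℝ) else 0)
      (fun _ n => by split_ifs <;> norm_num)
    have h5 : ((NZ P).card : ℝ) ≤ 4 * P := by exact_mod_cast card_NZ hP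
    have h6 := cnt_dvd (P := Z) hd
    have e1 : ∑ x ∈ Bx P Y1 Y2 Y3 Z, (if (d : ℤ) ∣ dx x then (1 : ℝ) else 0) =
        (((Bx P Y1 Y2 Y3 Z).filter (fun x => (d : ℤ) ∣ dx x)).card : ℝ) := by
      rw [← Finset.sum_filter]
      simp
    have e2 : ∑ _p ∈ NZ P, ∑ n ∈ NZ Z, (if (d : ℤ) ∣ n then (1 : ℝ) else 0) =
        (NZ P).card * (((NZ Z).filter (fun x => (d : ℤ) ∣ x)).card : ℝ) := by
      rw [Finset.sum_const, nsmul_eq_mul, ← Finset.sum_filter]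
      simp
    rw [e1, e2] at h4
    have hU2 : 64 * (τ : ℝ) ^ 2 ≤ U := by
      rw [hU]
      have h7 : (1 : ℝ) ≤ (K + 1) * T ^ (ε / 2) := by
        have h8 : (1 : ℝ) ≤ K + 1 := by linarith
        exact one_le_mul_of_one_le_of_one_le h8 hTe1
      calc 64 * (τ : ℝ) ^ 2 ≤ 256 * 1 * (τ : ℝ) ^ 7 := by
            have h7 : (0 : ℝ) ≤ (τ : ℝ) ^ 7 := by positivity
            linarith
        _ ≤ 256 * ((K + 1) * T ^ (ε / 2)) * (τ : ℝ) ^ 7 := by gcongr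
        _ = 256 * (K + 1) * T ^ (ε / 2) * (τ : ℝ) ^ 7 := by ring
    calc (((Bx P Y1 Y2 Y3 Z).filter (fun x => (d : ℤ) ∣ dx x)).card : ℝ)
        ≤ 4 * (τ : ℝ) ^ 2 * ((NZ P).card *
            (((NZ Z).filter (fun x => (d : ℤ) ∣ x)).card : ℝ)) := h4
      _ ≤ 4 * (τ : ℝ) ^ 2 * ((4 * P) * (4 * Z / d)) := by gcongr
      _ = 64 * (τ : ℝ) ^ 2 * (P * (Z / d)) := by ring
      _ ≤ U * (P * (Z / d)) := by
          apply mul_le_mul_of_nonneg_right hU2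
          positivity

theorem avallD {ε : ℝ} (hε : 0 < ε) : ∃ K : ℝ, 0 < K ∧ ∀ T : ℝ, 2 ≤ T → ∀ G : ℕ, 1 ≤ G →
    (G : ℝ) ≤ T → ∀ d : ℕ, 1 ≤ d →
    ∀ P Y1 Y2 Y3 Z : ℕ, 1 ≤ P → 1 ≤ Y1 → 1 ≤ Y2 → 1 ≤ Y3 → 1 ≤ Z →
    (P : ℝ) ≤ T ^ 8 → (Y1 : ℝ) ≤ T ^ 8 → (Y2 : ℝ) ≤ T ^ 8 → (Y3 : ℝ) ≤ T ^ 8 →
    (Z : ℝ) ≤ T ^ 8 →
    ∑ x ∈ (Bx P Y1 Y2 Y3 Z).filter (fun x => (d : ℤ) ∣ dx x),
      (Wt G x.1 x.2.1 x.2.2.1 x.2.2.2 : ℝ) ≤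
      K * T ^ ε * (P * ((Z : ℝ) ^ (4 / 5 : ℝ) *
        (min (Z : ℝ) (Y1 * Y2 * Y3)) ^ (1 / 5 : ℝ))) * (d : ℝ) ^ (-(2 / 15) : ℝ) := by
  obtain ⟨K, hK, hcore⟩ := tld_core hε
  refine ⟨K, hK, ?_⟩
  intro T hT G hG hGT d hd P Y1 Y2 Y3 Z hP h1 h2 h3 hZ hP8 h18 h28 h38 hZ8
  obtain ⟨U, hU0, hUK, hA, hcard, hcd⟩ :=
    hcore T hT G hG hGT P Y1 Y2 Y3 Z hP h1 h2 h3 hZ hP8 h18 h28 h38 hZ8
  have hP0 : (0 : ℝ) < P := by exact_mod_cast hP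
  have hZ0 : (0 : ℝ) < Z := by exact_mod_cast hZ
  have hd0 : (0 : ℝ) < d := by exact_mod_cast hd
  obtain ⟨μ, hμ⟩ : ∃ μ : ℝ, μ = min (Z : ℝ) (Y1 * Y2 * Y3) := ⟨_, rfl⟩
  have hm0 : (0 : ℝ) ≤ μ := by
    rw [hμ]
    positivity
  rw [← hμ] at hcard ⊢
  refine (hA _ (Finset.filter_subset _ _)).trans ?_
  obtain ⟨N, hN⟩ : ∃ N : ℝ,
      N = (((Bx P Y1 Y2 Y3 Z).filter (fun x => (d : ℤ) ∣ dx x)).card : ℝ) := ⟨_, rfl⟩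
  have hN0 : 0 ≤ N := by
    rw [hN]
    exact Nat.cast_nonneg _
  have hN1 : N ≤ U * (P * (Z / d)) := by
    rw [hN]
    exact hcd d hd
  have hN2 : N ≤ U * (P * μ) := by
    rw [hN]
    refine le_trans ?_ hcard
    exact_mod_cast Finset.card_le_card (Finset.filter_subset _ _)
  rw [← hN]
  have hNe : N ^ (1 / 3 : ℝ) = N ^ (2 / 15 : ℝ) * N ^ (1 / 5 : ℝ) := by
    rw [← Real.rpow_add_of_nonneg hN0 (by norm_num) (by norm_num)]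
    norm_num
  have hUP : 0 < U * P := by positivity
  have hq1 : N ^ (2 / 15 : ℝ) ≤
      (U * P) ^ (2 / 15 : ℝ) * ((Z : ℝ) ^ (2 / 15 : ℝ) * (d : ℝ) ^ (-(2 / 15) : ℝ)) := by
    calc N ^ (2 / 15 : ℝ) ≤ (U * (P * (Z / d))) ^ (2 / 15 : ℝ) :=
          Real.rpow_le_rpow hN0 hN1 (by norm_num)
      _ = (U * P * (Z * (d : ℝ)⁻¹)) ^ (2 / 15 : ℝ) := by
          congr 1
          rw [div_eq_mul_inv]
          ring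
      _ = (U * P) ^ (2 / 15 : ℝ) * ((Z : ℝ) ^ (2 / 15 : ℝ) * (d : ℝ) ^ (-(2 / 15) : ℝ)) := by
          rw [Real.mul_rpow hUP.le (by positivity), Real.mul_rpow hZ0.le (by positivity),
            Real.inv_rpow hd0.le, Real.rpow_neg hd0.le]
  have hq2 : N ^ (1 / 5 : ℝ) ≤ (U * P) ^ (1 / 5 : ℝ) * μ ^ (1 / 5 : ℝ) := by
    calc N ^ (1 / 5 : ℝ) ≤ (U * (P * μ)) ^ (1 / 5 : ℝ) :=
          Real.rpow_le_rpow hN0 hN2 (by norm_num)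
      _ = (U * P) ^ (1 / 5 : ℝ) * μ ^ (1 / 5 : ℝ) := by
          rw [← mul_assoc, Real.mul_rpow hUP.le hm0]
  have hq3 : (U * (P * Z)) ^ (2 / 3 : ℝ) = (U * P) ^ (2 / 3 : ℝ) * (Z : ℝ) ^ (2 / 3 : ℝ) := by
    rw [← mul_assoc, Real.mul_rpow hUP.le hZ0.le]
  have e1 : (U * P) ^ (2 / 3 : ℝ) * (U * P) ^ (2 / 15 : ℝ) * (U * P) ^ (1 / 5 : ℝ) = U * P := by
    rw [← Real.rpow_add hUP, ← Real.rpow_add hUP]
    norm_num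
  have e2 : (Z : ℝ) ^ (2 / 3 : ℝ) * (Z : ℝ) ^ (2 / 15 : ℝ) = (Z : ℝ) ^ (4 / 5 : ℝ) := by
    rw [← Real.rpow_add hZ0]
    norm_num
  calc (U * (P * Z)) ^ (2 / 3 : ℝ) * N ^ (1 / 3 : ℝ)
      = ((U * P) ^ (2 / 3 : ℝ) * (Z : ℝ) ^ (2 / 3 : ℝ)) * (N ^ (2 / 15 : ℝ) * N ^ (1 / 5 : ℝ)) := by
        rw [hq3, hNe]
    _ ≤ ((U * P) ^ (2 / 3 : ℝ) * (Z : ℝ) ^ (2 / 3 : ℝ)) *
          (((U * P) ^ (2 / 15 : ℝ) * ((Z : ℝ) ^ (2 / 15 : ℝ) * (d : ℝ) ^ (-(2 / 15) : ℝ))) *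
            ((U * P) ^ (1 / 5 : ℝ) * μ ^ (1 / 5 : ℝ))) := by
        apply mul_le_mul_of_nonneg_left _ (by positivity)
        exact mul_le_mul hq1 hq2 (Real.rpow_nonneg hN0 _) (by positivity)
    _ = ((U * P) ^ (2 / 3 : ℝ) * (U * P) ^ (2 / 15 : ℝ) * (U * P) ^ (1 / 5 : ℝ)) *
          (((Z : ℝ) ^ (2 / 3 : ℝ) * (Z : ℝ) ^ (2 / 15 : ℝ)) * μ ^ (1 / 5 : ℝ)) *
          (d : ℝ) ^ (-(2 / 15) : ℝ) := by ring
    _ = U * P * ((Z : ℝ) ^ (4 / 5 : ℝ) * μ ^ (1 / 5 : ℝ)) * (d : ℝ) ^ (-(2 / 15) : ℝ) := by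
        rw [e1, e2]
    _ ≤ (K * T ^ ε) * P * ((Z : ℝ) ^ (4 / 5 : ℝ) * μ ^ (1 / 5 : ℝ)) *
          (d : ℝ) ^ (-(2 / 15) : ℝ) := by
        apply mul_le_mul_of_nonneg_right _ (by positivity)
        apply mul_le_mul_of_nonneg_right _ (by positivity)
        exact mul_le_mul_of_nonneg_right hUK hP0.le
    _ = K * T ^ ε * (P * ((Z : ℝ) ^ (4 / 5 : ℝ) * μ ^ (1 / 5 : ℝ))) *
          (d : ℝ) ^ (-(2 / 15) : ℝ) := by ring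

end Pool.Agent.PPW
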