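import Pool.Agent.PPW.AvD
import Pool.Agent.PPW.TlD

/-!
# The final averages of `W_1, W_2, W_3` (difficulty 4)

* `WJ 1 ≤ Wt * 12 ^ ω(G) * G1 G`, `WJ 2 ≤ Wt * 12 ^ ω(G)` (all factors are `≥ 1`): use `avmainD`,
  `avallD` with `d = 1` (`qd 1 = 1`).
* `WJ 3`: `∏ (l ∈ G1p, l does not divide Δ) 12 / l ≤ ∏ l ∈ G1p, (12 / l + [l ∣ Δ])
  = ∑ S ⊆ G1p, (∏ l ∈ G1p \ S, 12 / l) * [∏ S ∣ Δ]` (`Finset.prod_add`; the product `d` of the primes of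
  `S` divides `Δ` if all `l ∈ S` do; `d ∣ G` squarefree, `qd d = ∏ l ∈ S, 4000 / l`).  So by `avmainD`
  `∑ WJ 3 ≤ K cG G ∑ S, (∏ l ∉ S, 12 / l) (∏ l ∈ S, 4000 / l) B = K cG G ∏ l ∈ G1p, (4012 / l) B`
  `≤ K cG G 4012 ^ ω(G) / G1 G * B`; by `avallD`:
  `∑ WJ 3 ≤ K T ^ η ∏ l ∈ G1p, (12 / l + l ^ (-2/15)) B' ≤ K T ^ η 13 ^ ω(G) (G1 G) ^ (-2/15) B'`.
* `cG G ≤ 1001 ^ ω(G)`; `12 * 1001 ≤ 10 ^ 7`, `4012 * 1001 ≤ 10 ^ 7`;
  `13 ^ ω(G) ≤ (2 ^ ω(G)) ^ 4 ≤ d(G) ^ 4 ≤ K T ^ η` (`FTA.divisor_bound`; `2 ^ ω(G) ≤ d(G)` from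
  `Nat.card_divisors`).
`ω(G) = G.primeFactors.card`.
-/

set_option autoImplicit false

namespace Pool.Agent.PPW

open Finset Pool.Agent.PPS

private theorem fj_mem {G l : ℕ} (h : l ∈ G1p G) : l.Prime ∧ l ∣ G ∧ 5 ≤ l := by
  unfold G1p at h
  rw [Finset.mem_filter, Nat.mem_primeFactors] at h
  exact ⟨h.1.1, h.1.2.1, h.2.1⟩

private theorem fj_card (G : ℕ) : (G1p G).card ≤ G.primeFactors.card :=
  Finset.card_le_card (Finset.filter_subset _ _)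

private theorem fj_pow {a b : ℝ} (G : ℕ) (ha : 1 ≤ a) (hab : a ≤ b) :
    a ^ (G1p G).card ≤ b ^ G.primeFactors.card :=
  (pow_le_pow_left₀ (by linarith) hab _).trans
    (pow_le_pow_right₀ (ha.trans hab) (fj_card G))

private theorem fj_G1 (G : ℕ) : (1 : ℝ) ≤ (G1 G : ℝ) := by
  have : 0 < G1 G := Finset.prod_pos fun l hl => (fj_mem hl).1.pos
  exact_mod_cast this

private theorem fj_sqf {G : ℕ} (S : Finset ℕ) (hS : S ⊆ G1p G) : Squarefree (∏ l ∈ S, l) := by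
  refine Finset.squarefree_prod_of_pairwise_isCoprime ?_ ?_
  · intro a ha b hb hab
    have h1 := (fj_mem (hS ha)).1
    have h2 := (fj_mem (hS hb)).1
    show IsRelPrime a b
    rw [← Nat.coprime_iff_isRelPrime]
    exact (Nat.coprime_primes h1 h2).2 hab
  · intro a ha
    exact (fj_mem (hS ha)).1.squarefree

private theorem fj_dvd {G : ℕ} (S : Finset ℕ) (hS : S ⊆ G1p G) (n : ℤ)
    (h : ∀ l ∈ S, (l : ℤ) ∣ n) : ((∏ l ∈ S, l : ℕ) : ℤ) ∣ n := by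
  rw [Int.natCast_dvd]
  refine Finset.prod_primes_dvd _ (fun l hl => (fj_mem (hS hl)).1.prime) fun l hl => ?_
  exact Int.natCast_dvd.1 (h l hl)

private theorem fj_dvdG {G : ℕ} (S : Finset ℕ) (hS : S ⊆ G1p G) : (∏ l ∈ S, l) ∣ G :=
  Finset.prod_primes_dvd _ (fun l hl => (fj_mem (hS hl)).1.prime) fun l hl => (fj_mem (hS hl)).2.1

/-- the pointwise bounds for `j = 1` and `j = 2` -/
private theorem fj_le (j G : ℕ) (hj : j = 1 ∨ j = 2) (p a b c : ℤ) :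
    WJ j G p a b c ≤ (Wt G p a b c : ℝ) * ((12 : ℝ) ^ G.primeFactors.card *
      (if j = 1 then (G1 G : ℝ) else 1)) := by
  unfold WJ
  refine mul_le_mul_of_nonneg_left ?_ (Nat.cast_nonneg _)
  have h1 : ∀ l ∈ G1p G, 1 ≤ fj j l := by
    intro l hl
    have h5 : (5 : ℝ) ≤ (l : ℝ) := by exact_mod_cast (fj_mem hl).2.2
    unfold fj
    rcases hj with rfl | rfl
    · rw [if_pos rfl]; linarith
    · rw [if_neg (by norm_num), if_pos rfl]; norm_num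
  rw [Finset.prod_filter]
  have h2 : ∏ l ∈ G1p G, (if ¬ (l : ℤ) ∣ del p a b c then fj j l else 1) ≤
      ∏ l ∈ G1p G, fj j l := by
    refine Finset.prod_le_prod (fun l hl => ?_) (fun l hl => ?_)
    · split_ifs
      · norm_num
      · exact zero_le_one.trans (h1 l hl)
    · split_ifs
      · exact h1 l hl
      · exact le_rfl
  refine h2.trans ?_
  have hG := fj_G1 G
  rcases hj with rfl | rfl
  · have e : ∀ l : ℕ, fj 1 l = 12 * (l : ℝ) := fun l => by unfold fj; rw [if_pos rfl]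
    simp only [e, if_true]
    rw [Finset.prod_mul_distrib, Finset.prod_const]
    have e2 : ∏ l ∈ G1p G, (l : ℝ) = (G1 G : ℝ) := by
      unfold G1
      push_cast
      rfl
    rw [e2]
    exact mul_le_mul_of_nonneg_right (fj_pow G (by norm_num) le_rfl) (by linarith)
  · have e : ∀ l : ℕ, fj 2 l = 12 := fun l => by
      unfold fj
      rw [if_neg (by norm_num), if_pos rfl]
    simp only [e]
    rw [Finset.prod_const, if_neg (by norm_num), mul_one]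
    exact fj_pow G (by norm_num) le_rfl

/-- the sum of `W_3` by inclusion of the divisor conditions -/
private theorem fj_sum3 (G : ℕ) (X : Finset (ℤ × ℤ × ℤ × ℤ)) (A : ℝ) (q : ℕ → ℝ)
    (qq : ℕ → ℝ) (h : ∀ d : ℕ, Squarefree d → d ∣ G →
      ∑ x ∈ X.filter (fun x => (d : ℤ) ∣ dx x), (Wt G x.1 x.2.1 x.2.2.1 x.2.2.2 : ℝ) ≤ A * q d)
    (hq : ∀ S : Finset ℕ, S ⊆ G1p G → q (∏ l ∈ S, l) = ∏ l ∈ S, qq l) :
    ∑ x ∈ X, WJ 3 G x.1 x.2.1 x.2.2.1 x.2.2.2 ≤ A * ∏ l ∈ G1p G, (12 / (l : ℝ) + qq l) := by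
  classical
  have h1 : ∀ x : ℤ × ℤ × ℤ × ℤ, WJ 3 G x.1 x.2.1 x.2.2.1 x.2.2.2 ≤
      ∑ S ∈ (G1p G).powerset, (∏ l ∈ S, (12 / (l : ℝ))) *
        (if ((∏ l ∈ G1p G \ S, l : ℕ) : ℤ) ∣ dx x then
          (Wt G x.1 x.2.1 x.2.2.1 x.2.2.2 : ℝ) else 0) := by
    intro x
    unfold WJ
    have e : ∀ l : ℕ, fj 3 l = 12 / (l : ℝ) := fun l => by
      unfold fj
      rw [if_neg (by norm_num), if_neg (by norm_num)]
    simp only [e]
    rw [Finset.prod_filter]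
    have h2 : ∏ l ∈ G1p G, (if ¬ (l : ℤ) ∣ del x.1 x.2.1 x.2.2.1 x.2.2.2 then 12 / (l : ℝ) else 1) ≤
        ∏ l ∈ G1p G, (12 / (l : ℝ) + (if (l : ℤ) ∣ dx x then 1 else 0)) := by
      refine Finset.prod_le_prod (fun l hl => ?_) (fun l hl => ?_)
      · split_ifs <;> positivity
      · unfold dx
        by_cases hd : (l : ℤ) ∣ del x.1 x.2.1 x.2.2.1 x.2.2.2
        · rw [if_neg (not_not.2 hd), if_pos hd]
          have : (0 : ℝ) ≤ 12 / (l : ℝ) := by positivity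
          linarith
        · rw [if_pos hd, if_neg hd]
          linarith
    rw [Finset.prod_add] at h2
    refine (mul_le_mul_of_nonneg_left h2 (Nat.cast_nonneg _)).trans ?_
    rw [Finset.mul_sum]
    refine Finset.sum_le_sum fun S hS => ?_
    have hS0 : (0 : ℝ) ≤ ∏ l ∈ S, (12 / (l : ℝ)) := Finset.prod_nonneg fun l _ => by positivity
    have h3 : (Wt G x.1 x.2.1 x.2.2.1 x.2.2.2 : ℝ) *
        ∏ l ∈ G1p G \ S, (if (l : ℤ) ∣ dx x then (1 : ℝ) else 0) ≤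
        (if ((∏ l ∈ G1p G \ S, l : ℕ) : ℤ) ∣ dx x then
          (Wt G x.1 x.2.1 x.2.2.1 x.2.2.2 : ℝ) else 0) := by
      by_cases hall : ∀ l ∈ G1p G \ S, (l : ℤ) ∣ dx x
      · rw [if_pos (fj_dvd _ Finset.sdiff_subset _ hall)]
        rw [Finset.prod_congr rfl (fun l hl => if_pos (hall l hl)), Finset.prod_const_one, mul_one]
      · push Not at hall
        obtain ⟨l, hl, hnd⟩ := hall
        rw [Finset.prod_eq_zero hl (if_neg hnd), mul_zero]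
        split_ifs
        · exact Nat.cast_nonneg _
        · exact le_rfl
    calc (Wt G x.1 x.2.1 x.2.2.1 x.2.2.2 : ℝ) * ((∏ l ∈ S, (12 / (l : ℝ))) *
          ∏ l ∈ G1p G \ S, (if (l : ℤ) ∣ dx x then (1 : ℝ) else 0)) =
          (∏ l ∈ S, (12 / (l : ℝ))) * ((Wt G x.1 x.2.1 x.2.2.1 x.2.2.2 : ℝ) *
          ∏ l ∈ G1p G \ S, (if (l : ℤ) ∣ dx x then (1 : ℝ) else 0)) := by ring
      _ ≤ _ := mul_le_mul_of_nonneg_left h3 hS0
  refine (Finset.sum_le_sum fun x _ => h1 x).trans ?_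
  rw [Finset.sum_comm, Finset.prod_add, Finset.mul_sum]
  refine Finset.sum_le_sum fun S hS => ?_
  have hS0 : (0 : ℝ) ≤ ∏ l ∈ S, (12 / (l : ℝ)) := Finset.prod_nonneg fun l _ => by positivity
  rw [← Finset.mul_sum, ← Finset.sum_filter]
  have h4 := h (∏ l ∈ G1p G \ S, l) (fj_sqf _ Finset.sdiff_subset) (fj_dvdG _ Finset.sdiff_subset)
  rw [hq _ Finset.sdiff_subset] at h4
  calc (∏ l ∈ S, (12 / (l : ℝ))) * _ ≤ (∏ l ∈ S, (12 / (l : ℝ))) * (A * ∏ l ∈ G1p G \ S, qq l) :=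
        mul_le_mul_of_nonneg_left h4 hS0
    _ = A * ((∏ l ∈ S, (12 / (l : ℝ))) * ∏ l ∈ G1p G \ S, qq l) := by ring

private theorem fj_cG (G : ℕ) : 0 ≤ cG G ∧ cG G ≤ (1001 : ℝ) ^ G.primeFactors.card := by
  unfold cG
  refine ⟨Finset.prod_nonneg fun l _ => by positivity, ?_⟩
  rw [← Finset.prod_const]
  refine Finset.prod_le_prod (fun l _ => by positivity) (fun l hl => ?_)
  have h2 : (2 : ℝ) ≤ (l : ℝ) := by exact_mod_cast (Nat.prime_of_mem_primeFactors hl).two_le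
  have : 2000 / (l : ℝ) ≤ 1000 := by
    rw [div_le_iff₀ (by linarith)]
    linarith
  linarith

theorem avmJ (hcore : CoreS) : ∃ δ K T0 : ℝ, 0 < δ ∧ δ ≤ 1 / 4 ∧ 0 < K ∧ 2 ≤ T0 ∧
    ∀ T : ℝ, T0 ≤ T → ∀ G : ℕ, 1 ≤ G → (G : ℝ) ≤ T ^ δ →
    ∀ P Y1 Y2 Y3 Z : ℕ, T ^ (1 - δ) ≤ P → (P : ℝ) ≤ T → T ^ (1 - δ) ≤ Y1 → (Y1 : ℝ) ≤ T →
    T ^ (1 - δ) ≤ Y2 → (Y2 : ℝ) ≤ T → T ^ (1 - δ) ≤ Y3 → (Y3 : ℝ) ≤ T →
    T ^ (3 - δ) ≤ Z → ∀ j ∈ ({1, 2, 3} : Finset ℕ),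
    ∑ x ∈ Bx P Y1 Y2 Y3 Z, WJ j G x.1 x.2.1 x.2.2.1 x.2.2.2 ≤
      K * (10 ^ 7 : ℝ) ^ G.primeFactors.card * hJ j G *
        ((P : ℝ) * min (Z : ℝ) (Y1 * Y2 * Y3)) := by
  obtain ⟨δ, K, T0, hδ, hδ4, hK, hT0, h⟩ := avmainD hcore
  refine ⟨δ, K, T0, hδ, hδ4, hK, hT0, ?_⟩
  intro T hT G hG hGT P Y1 Y2 Y3 Z a1 a2 a3 a4 a5 a6 a7 a8 a9 j hj
  have hB : 0 ≤ (P : ℝ) * min (Z : ℝ) (Y1 * Y2 * Y3) := by
    have : 0 ≤ min (Z : ℝ) (Y1 * Y2 * Y3) := le_min (by positivity) (by positivity)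
    positivity
  obtain ⟨hc0, hc1⟩ := fj_cG G
  have hG1 := fj_G1 G
  have hD := fun d hd1 hd2 => h T hT G hG hGT d hd1 hd2 P Y1 Y2 Y3 Z a1 a2 a3 a4 a5 a6 a7 a8 a9
  have hcase : j = 1 ∨ j = 2 ∨ j = 3 := by simpa using hj
  have h12 : ∀ j : ℕ, (j = 1 ∨ j = 2) → hJ j G = (if j = 1 then (G1 G : ℝ) else 1) := by
    rintro j (rfl | rfl) <;> simp [hJ]
  have hmain : (j = 1 ∨ j = 2) → ∑ x ∈ Bx P Y1 Y2 Y3 Z, WJ j G x.1 x.2.1 x.2.2.1 x.2.2.2 ≤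
      K * (10 ^ 7 : ℝ) ^ G.primeFactors.card * hJ j G *
        ((P : ℝ) * min (Z : ℝ) (Y1 * Y2 * Y3)) := by
    intro hj2
    have h1 := hD 1 squarefree_one (one_dvd G)
    have e1 : (Bx P Y1 Y2 Y3 Z).filter (fun x => ((1 : ℕ) : ℤ) ∣ dx x) = Bx P Y1 Y2 Y3 Z := by
      refine Finset.filter_true_of_mem fun x _ => ?_
      simp
    rw [e1] at h1
    have e2 : qd 1 = 1 := by simp [qd]
    rw [e2, mul_one] at h1
    have hw : 0 ≤ (12 : ℝ) ^ G.primeFactors.card * (if j = 1 then (G1 G : ℝ) else 1) := by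
      split_ifs <;> positivity
    have hw1 : 0 ≤ (if j = 1 then (G1 G : ℝ) else 1) := by
      split_ifs <;> positivity
    calc ∑ x ∈ Bx P Y1 Y2 Y3 Z, WJ j G x.1 x.2.1 x.2.2.1 x.2.2.2
        ≤ ∑ x ∈ Bx P Y1 Y2 Y3 Z, (Wt G x.1 x.2.1 x.2.2.1 x.2.2.2 : ℝ) *
          ((12 : ℝ) ^ G.primeFactors.card * (if j = 1 then (G1 G : ℝ) else 1)) :=
          Finset.sum_le_sum fun x _ => fj_le j G hj2 _ _ _ _
      _ = (∑ x ∈ Bx P Y1 Y2 Y3 Z, (Wt G x.1 x.2.1 x.2.2.1 x.2.2.2 : ℝ)) *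
          ((12 : ℝ) ^ G.primeFactors.card * (if j = 1 then (G1 G : ℝ) else 1)) := by
          rw [Finset.sum_mul]
      _ ≤ (K * cG G * ((P : ℝ) * min (Z : ℝ) (Y1 * Y2 * Y3))) *
          ((12 : ℝ) ^ G.primeFactors.card * (if j = 1 then (G1 G : ℝ) else 1)) :=
          mul_le_mul_of_nonneg_right h1 hw
      _ ≤ (K * (1001 : ℝ) ^ G.primeFactors.card * ((P : ℝ) * min (Z : ℝ) (Y1 * Y2 * Y3))) *
          ((12 : ℝ) ^ G.primeFactors.card * (if j = 1 then (G1 G : ℝ) else 1)) := by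
          refine mul_le_mul_of_nonneg_right (mul_le_mul_of_nonneg_right ?_ hB) hw
          exact mul_le_mul_of_nonneg_left hc1 hK.le
      _ = K * ((1001 * 12 : ℝ) ^ G.primeFactors.card) * (if j = 1 then (G1 G : ℝ) else 1) *
          ((P : ℝ) * min (Z : ℝ) (Y1 * Y2 * Y3)) := by
          rw [mul_pow]
          ring
      _ ≤ K * (10 ^ 7 : ℝ) ^ G.primeFactors.card * (if j = 1 then (G1 G : ℝ) else 1) *
          ((P : ℝ) * min (Z : ℝ) (Y1 * Y2 * Y3)) := by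
          refine mul_le_mul_of_nonneg_right (mul_le_mul_of_nonneg_right ?_ hw1) hB
          exact mul_le_mul_of_nonneg_left (pow_le_pow_left₀ (by norm_num) (by norm_num) _) hK.le
      _ = _ := by rw [h12 j hj2]
  rcases hcase with hj1 | hj1 | hj1
  · exact hmain (Or.inl hj1)
  · exact hmain (Or.inr hj1)
  · subst hj1
    have h3 := fj_sum3 G (Bx P Y1 Y2 Y3 Z) (K * cG G * ((P : ℝ) * min (Z : ℝ) (Y1 * Y2 * Y3)))
      qd (fun l => 4000 / (l : ℝ)) (fun d hd1 hd2 => (hD d hd1 hd2).trans_eq (by ring)) (by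
        intro S hS
        unfold qd
        rw [Nat.primeFactors_prod fun l hl => (fj_mem (hS hl)).1])
    refine h3.trans ?_
    have e1 : ∏ l ∈ G1p G, (12 / (l : ℝ) + 4000 / (l : ℝ)) = 4012 ^ (G1p G).card / (G1 G : ℝ) := by
      have e2 : ∀ l ∈ G1p G, (12 / (l : ℝ) + 4000 / (l : ℝ)) = 4012 / (l : ℝ) := by
        intro l _
        ring
      rw [Finset.prod_congr rfl e2, Finset.prod_div_distrib, Finset.prod_const]
      unfold G1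
      push_cast
      rfl
    rw [e1]
    have hp : (4012 : ℝ) ^ (G1p G).card ≤ 4012 ^ G.primeFactors.card :=
      fj_pow G (by norm_num) le_rfl
    have e3 : hJ 3 G = 1 / (G1 G : ℝ) := by
      unfold hJ
      rw [if_neg (by norm_num), if_neg (by norm_num)]
    rw [e3]
    have hG0 : 0 < (G1 G : ℝ) := by linarith
    calc K * cG G * ((P : ℝ) * min (Z : ℝ) (Y1 * Y2 * Y3)) *
          (4012 ^ (G1p G).card / (G1 G : ℝ))
        ≤ K * (1001 : ℝ) ^ G.primeFactors.card * ((P : ℝ) * min (Z : ℝ) (Y1 * Y2 * Y3)) *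
          (4012 ^ G.primeFactors.card / (G1 G : ℝ)) := by
          refine mul_le_mul (mul_le_mul_of_nonneg_right (mul_le_mul_of_nonneg_left hc1 hK.le) hB)
            (div_le_div_of_nonneg_right hp hG0.le) (by positivity) (by positivity)
      _ = K * ((1001 * 4012 : ℝ) ^ G.primeFactors.card) * (1 / (G1 G : ℝ)) *
          ((P : ℝ) * min (Z : ℝ) (Y1 * Y2 * Y3)) := by
          rw [mul_pow]
          ring
      _ ≤ K * (10 ^ 7 : ℝ) ^ G.primeFactors.card * (1 / (G1 G : ℝ)) *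
          ((P : ℝ) * min (Z : ℝ) (Y1 * Y2 * Y3)) := by
          refine mul_le_mul_of_nonneg_right (mul_le_mul_of_nonneg_right ?_ (by positivity)) hB
          exact mul_le_mul_of_nonneg_left (pow_le_pow_left₀ (by norm_num) (by norm_num) _) hK.le

private theorem fj_omega {ε : ℝ} (hε : 0 < ε) : ∃ K : ℝ, 0 < K ∧ ∀ T : ℝ, 2 ≤ T → ∀ G : ℕ,
    1 ≤ G → (G : ℝ) ≤ T → (13 : ℝ) ^ G.primeFactors.card ≤ K * T ^ ε := by
  obtain ⟨c, hc, h⟩ := Pool.Agent.FTA.divisor_bound (ε := ε / 4) (by positivity)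
  refine ⟨c ^ 4, by positivity, ?_⟩
  intro T hT G hG hGT
  have hT0 : 0 < T := by linarith
  have h1 : (2 : ℝ) ^ G.primeFactors.card ≤ (G.divisors.card : ℝ) := by
    have : 2 ^ G.primeFactors.card ≤ G.divisors.card := by
      rw [Nat.card_divisors (by omega), ← Finset.prod_const]
      refine Finset.prod_le_prod' fun l hl => ?_
      have := Nat.Prime.factorization_pos_of_dvd (Nat.prime_of_mem_primeFactors hl) (by omega)
        (Nat.dvd_of_mem_primeFactors hl)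
      omega
    exact_mod_cast this
  have h2 := h G (by omega)
  have h3 : (G : ℝ) ^ (ε / 4) ≤ T ^ (ε / 4) :=
    Real.rpow_le_rpow (Nat.cast_nonneg _) hGT (by positivity)
  have h4 : (2 : ℝ) ^ G.primeFactors.card ≤ c * T ^ (ε / 4) :=
    (h1.trans h2).trans (mul_le_mul_of_nonneg_left h3 hc.le)
  calc (13 : ℝ) ^ G.primeFactors.card ≤ 16 ^ G.primeFactors.card :=
        pow_le_pow_left₀ (by norm_num) (by norm_num) _
    _ = ((2 : ℝ) ^ G.primeFactors.card) ^ 4 := by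
        rw [← pow_mul, mul_comm, pow_mul]
        norm_num
    _ ≤ (c * T ^ (ε / 4)) ^ 4 := pow_le_pow_left₀ (by positivity) h4 4
    _ = c ^ 4 * T ^ ε := by
        rw [mul_pow, ← Real.rpow_natCast (T ^ (ε / 4)), ← Real.rpow_mul hT0.le]
        congr 2
        push_cast
        ring

theorem avaJ {ε : ℝ} (hε : 0 < ε) : ∃ K : ℝ, 0 < K ∧ ∀ T : ℝ, 2 ≤ T → ∀ G : ℕ, 1 ≤ G →
    (G : ℝ) ≤ T →
    ∀ P Y1 Y2 Y3 Z : ℕ, 1 ≤ P → 1 ≤ Y1 → 1 ≤ Y2 → 1 ≤ Y3 → 1 ≤ Z →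
    (P : ℝ) ≤ T ^ 8 → (Y1 : ℝ) ≤ T ^ 8 → (Y2 : ℝ) ≤ T ^ 8 → (Y3 : ℝ) ≤ T ^ 8 →
    (Z : ℝ) ≤ T ^ 8 → ∀ j ∈ ({1, 2, 3} : Finset ℕ),
    ∑ x ∈ Bx P Y1 Y2 Y3 Z, WJ j G x.1 x.2.1 x.2.2.1 x.2.2.2 ≤
      K * T ^ ε * hJa j G * (P * ((Z : ℝ) ^ (4 / 5 : ℝ) *
        (min (Z : ℝ) (Y1 * Y2 * Y3)) ^ (1 / 5 : ℝ))) := by
  obtain ⟨K1, hK1, h⟩ := avallD (ε := ε / 2) (by positivity)
  obtain ⟨K2, hK2, ho⟩ := fj_omega (ε := ε / 2) (by positivity)
  refine ⟨K2 * K1, by positivity, ?_⟩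
  intro T hT G hG hGT P Y1 Y2 Y3 Z a1 a2 a3 a4 a5 a6 a7 a8 a9 a10 j hj
  have hT0 : 0 < T := by linarith
  have homega := ho T hT G hG hGT
  have hTe : T ^ ε = T ^ (ε / 2) * T ^ (ε / 2) := by
    rw [← Real.rpow_add hT0]
    ring_nf
  have hTp : 0 < T ^ (ε / 2) := Real.rpow_pos_of_pos hT0 _
  have hB : 0 ≤ (P : ℝ) * ((Z : ℝ) ^ (4 / 5 : ℝ) *
        (min (Z : ℝ) (Y1 * Y2 * Y3)) ^ (1 / 5 : ℝ)) := by
    have : 0 ≤ min (Z : ℝ) (Y1 * Y2 * Y3) := le_min (by positivity) (by positivity)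
    positivity
  have hG1 := fj_G1 G
  have hD := fun d hd1 => h T hT G hG hGT d hd1 P Y1 Y2 Y3 Z a1 a2 a3 a4 a5 a6 a7 a8 a9 a10
  set B := (P : ℝ) * ((Z : ℝ) ^ (4 / 5 : ℝ) *
        (min (Z : ℝ) (Y1 * Y2 * Y3)) ^ (1 / 5 : ℝ)) with hBdef
  have hcase : j = 1 ∨ j = 2 ∨ j = 3 := by simpa using hj
  have h12 : ∀ j : ℕ, (j = 1 ∨ j = 2) → hJa j G = (if j = 1 then (G1 G : ℝ) else 1) := by
    rintro j (rfl | rfl) <;> simp [hJa]
  have hmain : (j = 1 ∨ j = 2) → ∑ x ∈ Bx P Y1 Y2 Y3 Z, WJ j G x.1 x.2.1 x.2.2.1 x.2.2.2 ≤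
      K2 * K1 * T ^ ε * hJa j G * B := by
    intro hj2
    have h1 := hD 1 le_rfl
    have e1 : (Bx P Y1 Y2 Y3 Z).filter (fun x => ((1 : ℕ) : ℤ) ∣ dx x) = Bx P Y1 Y2 Y3 Z := by
      refine Finset.filter_true_of_mem fun x _ => ?_
      simp
    rw [e1, Nat.cast_one, Real.one_rpow, mul_one] at h1
    have hw : 0 ≤ (12 : ℝ) ^ G.primeFactors.card * (if j = 1 then (G1 G : ℝ) else 1) := by
      split_ifs <;> positivity
    have hw1 : 0 ≤ (if j = 1 then (G1 G : ℝ) else 1) := by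
      split_ifs <;> positivity
    have h13 : (12 : ℝ) ^ G.primeFactors.card ≤ K2 * T ^ (ε / 2) :=
      (pow_le_pow_left₀ (by norm_num) (by norm_num) _).trans homega
    calc ∑ x ∈ Bx P Y1 Y2 Y3 Z, WJ j G x.1 x.2.1 x.2.2.1 x.2.2.2
        ≤ ∑ x ∈ Bx P Y1 Y2 Y3 Z, (Wt G x.1 x.2.1 x.2.2.1 x.2.2.2 : ℝ) *
          ((12 : ℝ) ^ G.primeFactors.card * (if j = 1 then (G1 G : ℝ) else 1)) :=
          Finset.sum_le_sum fun x _ => fj_le j G hj2 _ _ _ _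
      _ = (∑ x ∈ Bx P Y1 Y2 Y3 Z, (Wt G x.1 x.2.1 x.2.2.1 x.2.2.2 : ℝ)) *
          ((12 : ℝ) ^ G.primeFactors.card * (if j = 1 then (G1 G : ℝ) else 1)) := by
          rw [Finset.sum_mul]
      _ ≤ (K1 * T ^ (ε / 2) * B) *
          ((12 : ℝ) ^ G.primeFactors.card * (if j = 1 then (G1 G : ℝ) else 1)) :=
          mul_le_mul_of_nonneg_right h1 hw
      _ ≤ (K1 * T ^ (ε / 2) * B) *
          ((K2 * T ^ (ε / 2)) * (if j = 1 then (G1 G : ℝ) else 1)) := by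
          refine mul_le_mul_of_nonneg_left (mul_le_mul_of_nonneg_right h13 hw1) ?_
          positivity
      _ = K2 * K1 * T ^ ε * (if j = 1 then (G1 G : ℝ) else 1) * B := by
          rw [hTe]
          ring
      _ = _ := by rw [h12 j hj2]
  rcases hcase with hj1 | hj1 | hj1
  · exact hmain (Or.inl hj1)
  · exact hmain (Or.inr hj1)
  · subst hj1
    have h3 := fj_sum3 G (Bx P Y1 Y2 Y3 Z) (K1 * T ^ (ε / 2) * B)
      (fun d => (d : ℝ) ^ (-(2 / 15) : ℝ)) (fun l => (l : ℝ) ^ (-(2 / 15) : ℝ))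
      (fun d hd1 hd2 => hD d (Nat.pos_of_ne_zero hd1.ne_zero)) (by
        intro S hS
        show ((∏ l ∈ S, l : ℕ) : ℝ) ^ (-(2 / 15) : ℝ) = _
        rw [Nat.cast_prod, Real.finset_prod_rpow _ _ (fun l _ => Nat.cast_nonneg l)])
    refine h3.trans ?_
    have e1 : ∏ l ∈ G1p G, (12 / (l : ℝ) + (l : ℝ) ^ (-(2 / 15) : ℝ)) ≤
        13 ^ (G1p G).card * (G1 G : ℝ) ^ (-(2 / 15) : ℝ) := by
      have e2 : (13 : ℝ) ^ (G1p G).card * (G1 G : ℝ) ^ (-(2 / 15) : ℝ) =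
          ∏ l ∈ G1p G, (13 * (l : ℝ) ^ (-(2 / 15) : ℝ)) := by
        rw [Finset.prod_mul_distrib, Finset.prod_const,
          Real.finset_prod_rpow _ _ (fun l _ => Nat.cast_nonneg l)]
        unfold G1
        push_cast
        rfl
      rw [e2]
      refine Finset.prod_le_prod (fun l _ => by positivity) (fun l hl => ?_)
      have h5 : (5 : ℝ) ≤ (l : ℝ) := by exact_mod_cast (fj_mem hl).2.2
      have h6 : (l : ℝ)⁻¹ ≤ (l : ℝ) ^ (-(2 / 15) : ℝ) := by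
        rw [← Real.rpow_neg_one]
        exact Real.rpow_le_rpow_of_exponent_le (by linarith) (by norm_num)
      rw [div_eq_mul_inv]
      linarith
    have hp : (13 : ℝ) ^ (G1p G).card ≤ 13 ^ G.primeFactors.card :=
      fj_pow G (by norm_num) le_rfl
    have e3 : hJa 3 G = (G1 G : ℝ) ^ (-(2 / 15) : ℝ) := by
      unfold hJa
      rw [if_neg (by norm_num), if_neg (by norm_num)]
    rw [e3]
    have hg0 : 0 ≤ (G1 G : ℝ) ^ (-(2 / 15) : ℝ) := by positivity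
    calc K1 * T ^ (ε / 2) * B * ∏ l ∈ G1p G, (12 / (l : ℝ) + (l : ℝ) ^ (-(2 / 15) : ℝ))
        ≤ K1 * T ^ (ε / 2) * B * ((K2 * T ^ (ε / 2)) * (G1 G : ℝ) ^ (-(2 / 15) : ℝ)) := by
          refine mul_le_mul_of_nonneg_left (e1.trans ?_) (by positivity)
          exact mul_le_mul_of_nonneg_right (hp.trans homega) hg0
      _ = K2 * K1 * T ^ ε * (G1 G : ℝ) ^ (-(2 / 15) : ℝ) * B := by
          rw [hTe]
          ring

end Pool.Agent.PPW
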