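import Pool.Agent.PPW.Defs

/-!
# PP3 part (c): the three weights `W_1, W_2, W_3` (with the content classes)
-/

set_option autoImplicit false

namespace Pool.Agent.PPW

open Finset Pool.Agent.PPS

/-- the primes `l ≥ 5` with `l ∥ G` -/
def G1p (G : ℕ) : Finset ℕ := G.primeFactors.filter (fun l => 5 ≤ l ∧ G.factorization l = 1)

/-- their product -/
def G1 (G : ℕ) : ℕ := ∏ l ∈ G1p G, l

/-- the three local factors `12 l, 12, 12 / l` -/
noncomputable def fj (j l : ℕ) : ℝ := if j = 1 then 12 * (l : ℝ) else if j = 2 then 12 else 12 / l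

/-- the weights `W_j` -/
noncomputable def WJ (j G : ℕ) (p a b c : ℤ) : ℝ :=
  (Wt G p a b c : ℝ) * ∏ l ∈ (G1p G).filter (fun l : ℕ => ¬ (l : ℤ) ∣ del p a b c), fj j l

/-- the factor of the content, main boxes -/
noncomputable def hJ (j G : ℕ) : ℝ := if j = 1 then (G1 G : ℝ) else if j = 2 then 1 else 1 / G1 G

/-- the factor of the content, all boxes -/
noncomputable def hJa (j G : ℕ) : ℝ :=
  if j = 1 then (G1 G : ℝ) else if j = 2 then 1 else (G1 G : ℝ) ^ (-(2 / 15) : ℝ)

/-- `∏ l ∣ d, 4000 / l` -/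
noncomputable def qd (d : ℕ) : ℝ := ∏ l ∈ d.primeFactors, (4000 / (l : ℝ))

end Pool.Agent.PPW
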