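import Pool.Agent.PPW.MnD
import Pool.Agent.PPW.Tail

/-!
# AV-main with a divisor condition (difficulty 3; contains `avmain` for `d = 1`)

`mnD` gives `c, C, T0` (one may decrease `c` to be at most `1`); take `δ = c / 36`, `ε = c / 24`,
`M = ⌊T ^ c⌋`.  Split by `mst ≤ M` and `M < mst`.  The first part is `mnD`.  The second (drop the
condition `d ∣ dx x`): if the box is empty all is clear; otherwise
`Z ≤ |Δ| ≤ 8 Y1 Y2 Y3 + 8 P ^ 3 ≤ 16 T ^ 3 ≤ T ^ 8` (`T ≥ 2`), and `Y1 Y2 Y3 ≥ T ^ (3 - 3 δ)`, so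
`Z ≤ 16 T ^ (3 δ) min Z (Y1 Y2 Y3)`.  `M ≥ T ^ c / 2`.  By `tail` the second part is at most
`K T ^ (ε + 3 δ - c / 6) * 32 P min = 32 K T ^ (- c / 24) P min`, and
`qd d ≥ 1 / d ≥ 1 / G ≥ T ^ (-δ) ≥ T ^ (- c / 24)`, `cG G ≥ 1`.
(`qd d = ∏ 4000 / l ≥ ∏ 1 / l = 1 / d` as `d` is squarefree, `Nat.prod_primeFactors_of_squarefree`.)
-/

set_option autoImplicit false

namespace Pool.Agent.PPW

open Finset Pool.Agent.PPS

theorem avmainD (hcore : CoreS) : ∃ δ K T0 : ℝ, 0 < δ ∧ δ ≤ 1 / 4 ∧ 0 < K ∧ 2 ≤ T0 ∧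
    ∀ T : ℝ, T0 ≤ T → ∀ G : ℕ, 1 ≤ G → (G : ℝ) ≤ T ^ δ → ∀ d : ℕ, Squarefree d → d ∣ G →
    ∀ P Y1 Y2 Y3 Z : ℕ, T ^ (1 - δ) ≤ P → (P : ℝ) ≤ T → T ^ (1 - δ) ≤ Y1 → (Y1 : ℝ) ≤ T →
    T ^ (1 - δ) ≤ Y2 → (Y2 : ℝ) ≤ T → T ^ (1 - δ) ≤ Y3 → (Y3 : ℝ) ≤ T →
    T ^ (3 - δ) ≤ Z →
    ∑ x ∈ (Bx P Y1 Y2 Y3 Z).filter (fun x => (d : ℤ) ∣ dx x),
      (Wt G x.1 x.2.1 x.2.2.1 x.2.2.2 : ℝ) ≤
      K * cG G * qd d * ((P : ℝ) * min (Z : ℝ) (Y1 * Y2 * Y3)) := by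
  obtain ⟨c₀, C, T0, hc₀, hC, hT0, hmn⟩ := mnD hcore
  set c : ℝ := min c₀ 1 with hcdef
  have hc : 0 < c := lt_min hc₀ one_pos
  have hc1 : c ≤ 1 := min_le_right _ _
  have hcc : c ≤ c₀ := min_le_left _ _
  obtain ⟨K, hK, htail⟩ := tail (ε := c / 24) (by positivity)
  refine ⟨c / 36, C + 32 * K, T0, by positivity, by linarith, by positivity, hT0, ?_⟩
  intro T hT G hG hGT0 d hdsq hdG P Y1 Y2 Y3 Z hP1 hP2 h11 h12 h21 h22 h31 h32 hZ
  have hT2 : 2 ≤ T := hT0.trans hT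
  have hT1 : 1 ≤ T := by linarith
  have hT00 : 0 < T := by linarith
  have hGT : (G : ℝ) ≤ T := by
    refine hGT0.trans ?_
    calc T ^ (c / 36) ≤ T ^ (1 : ℝ) := Real.rpow_le_rpow_of_exponent_le hT1 (by linarith)
      _ = T := Real.rpow_one T
  have hqd : T ^ (-(c / 36)) ≤ qd d := by
    have hd0 : 0 < d := Nat.pos_of_ne_zero (fun h => by
      rw [h] at hdG; have := Nat.eq_zero_of_zero_dvd hdG; omega)
    have hdG' : (d : ℝ) ≤ G := by exact_mod_cast Nat.le_of_dvd hG hdG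
    have h1 : (1 : ℝ) / d ≤ qd d := by
      unfold qd
      have h2 : (1 : ℝ) / d = ∏ l ∈ d.primeFactors, (1 / (l : ℝ)) := by
        rw [Finset.prod_div_distrib, Finset.prod_const_one]
        congr 1
        rw [← Nat.cast_prod, Nat.prod_primeFactors_of_squarefree hdsq]
      rw [h2]
      refine Finset.prod_le_prod (fun l _ => by positivity) (fun l _ => ?_)
      exact div_le_div_of_nonneg_right (by norm_num) (Nat.cast_nonneg l)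
    have h3 : T ^ (-(c / 36)) ≤ (1 : ℝ) / d := by
      rw [Real.rpow_neg hT00.le, ← one_div]
      exact one_div_le_one_div_of_le (by exact_mod_cast hd0) (hdG'.trans hGT0)
    exact h3.trans h1
  have hqd0 : 0 < qd d := lt_of_lt_of_le (by positivity) hqd
  have e1 : T ^ (3 / 4 : ℝ) ≤ T ^ (1 - c / 36) :=
    Real.rpow_le_rpow_of_exponent_le hT1 (by linarith)
  have e2 : T ^ (11 / 4 : ℝ) ≤ T ^ (3 - c / 36) :=
    Real.rpow_le_rpow_of_exponent_le hT1 (by linarith)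
  have e3 : (1 : ℝ) ≤ T ^ (1 - c / 36) := Real.one_le_rpow hT1 (by linarith)
  have e4 : (1 : ℝ) ≤ T ^ (3 - c / 36) := Real.one_le_rpow hT1 (by linarith)
  have e5 : (1 : ℝ) ≤ T ^ c := Real.one_le_rpow hT1 hc.le
  have hP0 : (1 : ℝ) ≤ (P : ℝ) := e3.trans hP1
  have hY10 : (1 : ℝ) ≤ (Y1 : ℝ) := e3.trans h11
  have hY20 : (1 : ℝ) ≤ (Y2 : ℝ) := e3.trans h21
  have hY30 : (1 : ℝ) ≤ (Y3 : ℝ) := e3.trans h31
  have hZ0 : (1 : ℝ) ≤ (Z : ℝ) := e4.trans hZ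
  have hG1 : 1 ≤ cG G := by
    unfold cG
    refine Finset.prod_induction _ (fun y : ℝ => 1 ≤ y)
      (fun a b ha hb => one_le_mul_of_one_le_of_one_le ha hb) le_rfl fun l _ => ?_
    have : (0 : ℝ) ≤ 2000 / (l : ℝ) := by positivity
    linarith
  have hmin0 : 0 ≤ min (Z : ℝ) (Y1 * Y2 * Y3) := le_min (by positivity) (by positivity)
  have hpm : 0 ≤ (P : ℝ) * min (Z : ℝ) (Y1 * Y2 * Y3) := mul_nonneg (by positivity) hmin0
  rcases (Bx P Y1 Y2 Y3 Z).eq_empty_or_nonempty with hemp | ⟨x, hx⟩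
  · rw [hemp, Finset.filter_empty, Finset.sum_empty]
    exact mul_nonneg (mul_nonneg (mul_nonneg (by positivity) (by linarith)) hqd0.le) hpm
  -- the size of `Z`
  have hZT : (Z : ℝ) ≤ 16 * T ^ 3 := by
    obtain ⟨⟨-, p2⟩, ⟨-, a2⟩, ⟨-, b2⟩, ⟨-, c2⟩, ⟨z1, -⟩⟩ := mem_Bx.1 hx
    have z2 : |dx x| ≤ |x.2.1| * |x.2.2.1| * |x.2.2.2| + |x.1| ^ 3 := by
      have : dx x = x.2.1 * x.2.2.1 * x.2.2.2 - x.1 ^ 3 := rfl
      rw [this]
      refine (abs_sub _ _).trans ?_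
      rw [abs_mul, abs_mul, abs_pow]
    have z3 : ((Z : ℤ) : ℝ) ≤
        ((|x.2.1| * |x.2.2.1| * |x.2.2.2| + |x.1| ^ 3 : ℤ) : ℝ) := by
      exact_mod_cast z1.trans z2
    push_cast at z3
    have p3 : |(x.1 : ℝ)| ≤ 2 * T := by
      have h : ((|x.1| : ℤ) : ℝ) ≤ ((2 * P : ℤ) : ℝ) := by exact_mod_cast p2.le
      push_cast at h
      linarith
    have a3 : |(x.2.1 : ℝ)| ≤ 2 * T := by
      have h : ((|x.2.1| : ℤ) : ℝ) ≤ ((2 * Y1 : ℤ) : ℝ) := by exact_mod_cast a2.le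
      push_cast at h
      linarith
    have b3 : |(x.2.2.1 : ℝ)| ≤ 2 * T := by
      have h : ((|x.2.2.1| : ℤ) : ℝ) ≤ ((2 * Y2 : ℤ) : ℝ) := by exact_mod_cast b2.le
      push_cast at h
      linarith
    have c3 : |(x.2.2.2 : ℝ)| ≤ 2 * T := by
      have h : ((|x.2.2.2| : ℤ) : ℝ) ≤ ((2 * Y3 : ℤ) : ℝ) := by exact_mod_cast c2.le
      push_cast at h
      linarith
    have q1 : |(x.2.1 : ℝ)| * |(x.2.2.1 : ℝ)| * |(x.2.2.2 : ℝ)| ≤ 2 * T * (2 * T) * (2 * T) :=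
      mul_le_mul (mul_le_mul a3 b3 (abs_nonneg _) (by linarith)) c3 (abs_nonneg _)
        (by positivity)
    have q2 : |(x.1 : ℝ)| ^ 3 ≤ (2 * T) ^ 3 := pow_le_pow_left₀ (abs_nonneg _) p3 3
    calc (Z : ℝ) ≤ |(x.2.1 : ℝ)| * |(x.2.2.1 : ℝ)| * |(x.2.2.2 : ℝ)| + |(x.1 : ℝ)| ^ 3 := z3
      _ ≤ 2 * T * (2 * T) * (2 * T) + (2 * T) ^ 3 := add_le_add q1 q2
      _ = 16 * T ^ 3 := by ring
  have hT8 : T ≤ T ^ 8 := le_self_pow₀ hT1 (by norm_num)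
  have hZ8 : (Z : ℝ) ≤ T ^ 8 := by
    refine hZT.trans ?_
    have h5 : (2 : ℝ) ^ 5 ≤ T ^ 5 := pow_le_pow_left₀ (by norm_num) hT2 5
    have h6 : (16 : ℝ) ≤ T ^ 5 := by
      refine le_trans ?_ h5
      norm_num
    calc 16 * T ^ 3 ≤ T ^ 5 * T ^ 3 := mul_le_mul_of_nonneg_right h6 (by positivity)
      _ = T ^ 8 := by ring
  -- the parameter `M`
  set M : ℕ := ⌊T ^ c⌋₊ with hM
  have hM1 : 1 ≤ M := Nat.one_le_floor_iff _ |>.2 e5
  have hMT : (M : ℝ) ≤ T ^ c := Nat.floor_le (by positivity)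
  have hMT2 : T ^ c / 2 ≤ (M : ℝ) := by
    have h1 : T ^ c < (M : ℝ) + 1 := Nat.lt_floor_add_one _
    have h2 : (1 : ℝ) ≤ (M : ℝ) := by exact_mod_cast hM1
    linarith
  have hMT3 : (M : ℝ) ≤ T ^ c₀ := hMT.trans (Real.rpow_le_rpow_of_exponent_le hT1 hcc)
  have hMneg : (M : ℝ) ^ (-(1 / 6) : ℝ) ≤ 2 * T ^ (-(c / 6)) := by
    calc (M : ℝ) ^ (-(1 / 6) : ℝ) ≤ (T ^ c / 2) ^ (-(1 / 6) : ℝ) :=
          Real.rpow_le_rpow_of_nonpos (by positivity) hMT2 (by norm_num)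
      _ = 2 ^ (1 / 6 : ℝ) * T ^ (-(c / 6)) := by
          rw [Real.div_rpow (by positivity) (by norm_num), ← Real.rpow_mul hT00.le,
            Real.rpow_neg (by norm_num : (0 : ℝ) ≤ 2), div_inv_eq_mul, mul_comm]
          congr 2
          ring
      _ ≤ 2 * T ^ (-(c / 6)) := by
          refine mul_le_mul_of_nonneg_right ?_ (by positivity)
          calc (2 : ℝ) ^ (1 / 6 : ℝ) ≤ 2 ^ (1 : ℝ) :=
                Real.rpow_le_rpow_of_exponent_le (by norm_num) (by norm_num)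
            _ = 2 := Real.rpow_one 2
  -- `Z` against the minimum
  have hZmin : (Z : ℝ) ≤ 16 * T ^ (3 * (c / 36)) * min (Z : ℝ) (Y1 * Y2 * Y3) := by
    have h1 : 1 ≤ 16 * T ^ (3 * (c / 36)) := by
      have : (1 : ℝ) ≤ T ^ (3 * (c / 36)) := Real.one_le_rpow hT1 (by positivity)
      linarith
    rw [mul_min_of_nonneg _ _ (by positivity)]
    refine le_min ?_ ?_
    · calc (Z : ℝ) = 1 * Z := (one_mul _).symm
        _ ≤ 16 * T ^ (3 * (c / 36)) * Z := mul_le_mul_of_nonneg_right h1 (by positivity)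
    · have h2 : T ^ (1 - c / 36) * T ^ (1 - c / 36) * T ^ (1 - c / 36) ≤
          (Y1 : ℝ) * Y2 * Y3 :=
        mul_le_mul (mul_le_mul h11 h21 (by positivity) (by positivity)) h31 (by positivity)
          (by positivity)
      have h3 : T ^ (3 * (c / 36)) *
          (T ^ (1 - c / 36) * T ^ (1 - c / 36) * T ^ (1 - c / 36)) = T ^ 3 := by
        rw [← Real.rpow_add hT00, ← Real.rpow_add hT00, ← Real.rpow_add hT00,
          ← Real.rpow_natCast]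
        congr 1
        push_cast
        ring
      calc (Z : ℝ) ≤ 16 * T ^ 3 := hZT
        _ = 16 * T ^ (3 * (c / 36)) *
            (T ^ (1 - c / 36) * T ^ (1 - c / 36) * T ^ (1 - c / 36)) := by
            rw [← h3]; ring
        _ ≤ 16 * T ^ (3 * (c / 36)) * ((Y1 : ℝ) * Y2 * Y3) :=
            mul_le_mul_of_nonneg_left h2 (by positivity)
  -- the two parts
  have part1 := hmn T hT G hG d hdsq hdG P Y1 Y2 Y3 Z (e1.trans hP1) hP2 (e1.trans h11) h12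
    (e1.trans h21) h22 (e1.trans h31) h32 (e2.trans hZ) M hMT3
  have part2 := htail T hT2 G hG hGT P Y1 Y2 Y3 Z (by exact_mod_cast hP0)
    (by exact_mod_cast hY10) (by exact_mod_cast hY20) (by exact_mod_cast hY30)
    (by exact_mod_cast hZ0) (hP2.trans hT8) (h12.trans hT8) (h22.trans hT8) (h32.trans hT8)
    hZ8 M hM1
  have part3 : K * T ^ (c / 24) * (P * Z) * (M : ℝ) ^ (-(1 / 6) : ℝ) ≤
      32 * K * cG G * qd d * ((P : ℝ) * min (Z : ℝ) (Y1 * Y2 * Y3)) := by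
    have h4 : T ^ (c / 24) * T ^ (3 * (c / 36)) * T ^ (-(c / 6)) ≤ qd d := by
      refine le_trans ?_ hqd
      rw [← Real.rpow_add hT00, ← Real.rpow_add hT00]
      refine Real.rpow_le_rpow_of_exponent_le hT1 ?_
      linarith
    calc K * T ^ (c / 24) * (P * Z) * (M : ℝ) ^ (-(1 / 6) : ℝ)
        ≤ K * T ^ (c / 24) * (P * Z) * (2 * T ^ (-(c / 6))) :=
          mul_le_mul_of_nonneg_left hMneg (by positivity)
      _ = (2 * K * T ^ (c / 24) * T ^ (-(c / 6)) * P) * Z := by ring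
      _ ≤ (2 * K * T ^ (c / 24) * T ^ (-(c / 6)) * P) *
          (16 * T ^ (3 * (c / 36)) * min (Z : ℝ) (Y1 * Y2 * Y3)) :=
          mul_le_mul_of_nonneg_left hZmin (by positivity)
      _ = (T ^ (c / 24) * T ^ (3 * (c / 36)) * T ^ (-(c / 6))) *
          (32 * K * ((P : ℝ) * min (Z : ℝ) (Y1 * Y2 * Y3))) := by ring
      _ ≤ qd d * (32 * K * ((P : ℝ) * min (Z : ℝ) (Y1 * Y2 * Y3))) :=
          mul_le_mul_of_nonneg_right h4 (mul_nonneg (by positivity) hpm)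
      _ = 1 * (qd d * (32 * K * ((P : ℝ) * min (Z : ℝ) (Y1 * Y2 * Y3)))) := by ring
      _ ≤ cG G * (qd d * (32 * K * ((P : ℝ) * min (Z : ℝ) (Y1 * Y2 * Y3)))) :=
          mul_le_mul_of_nonneg_right hG1 (mul_nonneg hqd0.le (mul_nonneg (by positivity) hpm))
      _ = 32 * K * cG G * qd d * ((P : ℝ) * min (Z : ℝ) (Y1 * Y2 * Y3)) := by ring
  rw [← Finset.sum_filter_add_sum_filter_not ((Bx P Y1 Y2 Y3 Z).filter (fun x => (d : ℤ) ∣ dx x))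
    (fun x => mst G x.1 (dx x).natAbs ≤ M)]
  simp only [not_le]
  have s1 : ∑ x ∈ ((Bx P Y1 Y2 Y3 Z).filter (fun x => (d : ℤ) ∣ dx x)).filter
      (fun x => mst G x.1 (dx x).natAbs ≤ M), (Wt G x.1 x.2.1 x.2.2.1 x.2.2.2 : ℝ) ≤
      C * cG G * qd d * ((P : ℝ) * min (Z : ℝ) (Y1 * Y2 * Y3)) := by
    rw [Finset.filter_filter]
    refine le_trans (le_of_eq ?_) part1
    refine Finset.sum_congr (Finset.filter_congr fun x _ => and_comm) fun x _ => rfl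
  have s2 : ∑ x ∈ ((Bx P Y1 Y2 Y3 Z).filter (fun x => (d : ℤ) ∣ dx x)).filter
      (fun x => M < mst G x.1 (dx x).natAbs), (Wt G x.1 x.2.1 x.2.2.1 x.2.2.2 : ℝ) ≤
      K * T ^ (c / 24) * (P * Z) * (M : ℝ) ^ (-(1 / 6) : ℝ) := by
    refine le_trans (Finset.sum_le_sum_of_subset_of_nonneg ?_ (fun x _ _ => Nat.cast_nonneg _)) part2
    intro x hx'
    rw [Finset.mem_filter] at hx' ⊢
    exact ⟨(Finset.mem_filter.1 hx'.1).1, hx'.2⟩
  calc _ ≤ C * cG G * qd d * ((P : ℝ) * min (Z : ℝ) (Y1 * Y2 * Y3)) +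
        K * T ^ (c / 24) * (P * Z) * (M : ℝ) ^ (-(1 / 6) : ℝ) := add_le_add s1 s2
    _ ≤ C * cG G * qd d * ((P : ℝ) * min (Z : ℝ) (Y1 * Y2 * Y3)) +
        32 * K * cG G * qd d * ((P : ℝ) * min (Z : ℝ) (Y1 * Y2 * Y3)) := by
        linarith
    _ = (C + 32 * K) * cG G * qd d * ((P : ℝ) * min (Z : ℝ) (Y1 * Y2 * Y3)) := by ring

end Pool.Agent.PPW
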