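import Pool.Agent.PPW.Defs

/-!
# The box and the core lemma (difficulty 4)

`CoreS` gives `c, C, T0`; the constants here are `c, 40 C, max T0 2`.  Let `S` be the set of
points `x = (p, a, b, y)` of the box in the class.  For `x ∈ S`:
* `p ∈ Ico P (P + P)` or `p ∈ Ico (1 - 2 P) (1 - 2 P + P)`; the same for `a` (with `Y1`), `b` (`Y2`):
  `2 * 2 * 2 = 8` applications of `CoreS` with `H0 = P`, `H1 = Y1`, `H2 = Y2`.  All these integers are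
  at most `2 T ≤ T ^ 2` in absolute value, and `√T ≤ T ^ (3/4) ≤ P, Y1, Y2`.
* `L = min (4 Y3) (4 Z / (Y1 Y2) + 1)` (natural division).  If `4 Y3 ≤ 4 Z / (Y1 Y2) + 1` take
  `j = - 2 Y3` (constant): `y ∈ Ioo (-2 Y3) (2 Y3) ⊆ Ico j (j + 4 Y3)`.  Otherwise
  `j p a b = ⌊(p ^ 3 : ℝ) / (a b) - 2 Z / |a b|⌋ + 1`: from `|a b y - p ^ 3| < 2 Z` one gets
  `|y - p ^ 3 / (a b)| < h := 2 Z / |a b|`, so `j ≤ y` and
  `y < p ^ 3 / (a b) + h < j + 2 h`, `2 h = 4 Z / |a b| ≤ 4 Z / (Y1 Y2)`, so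
  `y - j ≤ 4 Z / (Y1 Y2)` with natural division (`Nat.le_floor`, `Nat.floor_div_eq_div`).
  `√T ≤ L`: `Y3 ≥ T ^ (3/4)`; `Z / (Y1 Y2) ≥ T ^ (11/4) / T ^ 2 = T ^ (3/4)`.
* `del ≠ 0` (`|Δ| ≥ Z ≥ 1`) and `|Δ| ≤ 8 Y1 Y2 Y3 + 8 P ^ 3 ≤ 16 T ^ 3 ≤ T ^ 8` (`T ≥ 2`): so
  `y ∈ JJ T (j p a b) L m r3 p a b`, and `p ∈ II _ P m r0`, `a ∈ II _ Y1 m r1`, `b ∈ II _ Y2 m r2`.
* `Y1 Y2 L ≤ min (4 Y1 Y2 Y3) (4 Z + Y1 Y2) ≤ 5 min Z (Y1 Y2 Y3)`, as `Y1 Y2 ≤ T ^ 2 ≤ Z`.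
In Lean: the sum over `S` is at most the sum over
`p ∈ II P P m r0 ∪ II (1 - 2 P) P m r0, a ∈ .. ∪ .., b ∈ .. ∪ .., y ∈ JJ ..`, and for nonnegative `f`
a sum over `A ∪ B` is at most the sum over `A` plus the sum over `B`.
-/

set_option autoImplicit false

namespace Pool.Agent.PPW

open Finset Pool.Agent.PPS

/-- the two pieces of a dyadic range -/
private def bas (P : ℕ) (b : Bool) : ℤ := if b then (P : ℤ) else 1 - 2 * P

private theorem bas_mem (P : ℕ) (x : ℤ) (h1 : (P : ℤ) ≤ |x|) (h2 : |x| < 2 * P) :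
    ∃ b, x ∈ Ico (bas P b) (bas P b + P) := by
  rcases abs_cases x with ⟨h3, h4⟩ | ⟨h3, h4⟩
  · refine ⟨true, ?_⟩
    rw [mem_Ico]
    show (P : ℤ) ≤ x ∧ x < P + P
    omega
  · refine ⟨false, ?_⟩
    rw [mem_Ico]
    show 1 - 2 * (P : ℤ) ≤ x ∧ x < 1 - 2 * P + P
    omega

private theorem bas_abs (P : ℕ) (T : ℝ) (hT : 2 ≤ T) (hP : (P : ℝ) ≤ T) (b : Bool) :
    ∀ x ∈ Ico (bas P b) (bas P b + P), ((|x| : ℤ) : ℝ) ≤ T ^ 2 := by
  intro x hx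
  rw [mem_Ico] at hx
  have h1 : |x| ≤ 2 * (P : ℤ) := by
    cases b with
    | true =>
      have h2 : (P : ℤ) ≤ x ∧ x < P + P := hx
      rw [abs_le]
      omega
    | false =>
      have h2 : 1 - 2 * (P : ℤ) ≤ x ∧ x < 1 - 2 * P + P := hx
      rw [abs_le]
      omega
  have h3 : ((|x| : ℤ) : ℝ) ≤ 2 * (P : ℝ) := by exact_mod_cast h1
  nlinarith

/-- the left end of the interval of `y` -/
private def jj (Z : ℕ) (p a b : ℤ) : ℤ :=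
  ((a * b).sign * p ^ 3 - 2 * Z) / |a * b| + 1

private theorem jj_mem (Z Y : ℕ) (p a b y : ℤ) (hY : 1 ≤ Y) (hab : (Y : ℤ) ≤ |a * b|)
    (h : |a * b * y - p ^ 3| < 2 * Z) :
    y ∈ Ico (jj Z p a b) (jj Z p a b + ((4 * Z / Y + 1 : ℕ) : ℤ)) := by
  set D := |a * b| with hD
  have hDpos : 0 < D := by
    have : (1 : ℤ) ≤ Y := by exact_mod_cast hY
    omega
  have hab0 : a * b ≠ 0 := by
    intro h0
    rw [hD, h0] at hDpos
    simp at hDpos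
  have hs : (a * b).sign * (a * b) = D := by
    rw [hD]
    exact Int.sign_mul_self_eq_abs (a * b)
  have hs1 : |(a * b).sign| = 1 := by
    rcases lt_or_gt_of_ne hab0 with h1 | h1
    · rw [Int.sign_eq_neg_one_of_neg h1]
      rfl
    · rw [Int.sign_eq_one_of_pos h1]
      rfl
  have h1 : |D * y - (a * b).sign * p ^ 3| < 2 * Z := by
    have h2 : D * y - (a * b).sign * p ^ 3 = (a * b).sign * (a * b * y - p ^ 3) := by
      rw [← hs]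
      ring
    rw [h2, abs_mul, hs1, one_mul]
    exact h
  rw [abs_lt] at h1
  set q := (a * b).sign * p ^ 3 with hq
  have h3 : (q - 2 * Z) / D < y := by
    apply Int.ediv_lt_of_lt_mul hDpos
    have e : D * y = y * D := mul_comm _ _
    omega
  have h4 : q - 2 * Z < ((q - 2 * Z) / D + 1) * D := Int.lt_ediv_add_one_mul_self _ hDpos
  rw [mem_Ico]
  have hj : jj Z p a b = (q - 2 * Z) / D + 1 := rfl
  rw [hj]
  refine ⟨by omega, ?_⟩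
  set j := (q - 2 * Z) / D + 1 with hjj
  -- `D (y - j) < 4 Z`
  have h5 : D * (y - j) < 4 * Z := by
    have : D * (y - j) = D * y - j * D := by ring
    rw [this]
    linarith [h1.2]
  have h6 : (Y : ℤ) * (y - j) < 4 * Z := by
    have h7 : 0 ≤ y - j := by omega
    nlinarith
  have h8 : y - j ≤ (4 * (Z : ℤ)) / Y := by
    rw [Int.le_ediv_iff_mul_le (by exact_mod_cast hY)]
    rw [mul_comm]
    exact h6.le
  push_cast
  omega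

theorem bxs (hcore : CoreS) : ∃ c C T0 : ℝ, 0 < c ∧ 0 < C ∧ 2 ≤ T0 ∧ ∀ T : ℝ, T0 ≤ T →
    ∀ P Y1 Y2 Y3 Z : ℕ, T ^ (3 / 4 : ℝ) ≤ P → (P : ℝ) ≤ T → T ^ (3 / 4 : ℝ) ≤ Y1 → (Y1 : ℝ) ≤ T →
    T ^ (3 / 4 : ℝ) ≤ Y2 → (Y2 : ℝ) ≤ T → T ^ (3 / 4 : ℝ) ≤ Y3 → (Y3 : ℝ) ≤ T →
    T ^ (11 / 4 : ℝ) ≤ Z →
    ∀ m : ℕ, 1 ≤ m → (m : ℝ) ≤ T ^ c → ∀ r0 r1 r2 r3 : ℤ,
    ∑ x ∈ (Bx P Y1 Y2 Y3 Z).filter (fun x => (m : ℤ) ∣ x.1 - r0 ∧ (m : ℤ) ∣ x.2.1 - r1 ∧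
        (m : ℤ) ∣ x.2.2.1 - r2 ∧ (m : ℤ) ∣ x.2.2.2 - r3),
      (ff m x.1 x.2.1 x.2.2.1 x.2.2.2 : ℝ) ≤
      C * gg m ^ 4 * ((P : ℝ) * min (Z : ℝ) (Y1 * Y2 * Y3) / (m : ℝ) ^ 4) := by
  classical
  obtain ⟨c, C, T0, hc, hC, hT0, core⟩ := hcore
  refine ⟨c, 40 * C, T0, hc, by positivity, hT0, ?_⟩
  intro T hT P Y1 Y2 Y3 Z hP1 hP2 hY11 hY12 hY21 hY22 hY31 hY32 hZ m hm hmT r0 r1 r2 r3
  have hT2 : 2 ≤ T := hT0.trans hT
  have hT1 : 1 ≤ T := by linarith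
  have hTp : 0 < T := by linarith
  have hsq : Real.sqrt T ≤ T ^ (3 / 4 : ℝ) := by
    rw [Real.sqrt_eq_rpow]
    exact Real.rpow_le_rpow_of_exponent_le hT1 (by norm_num)
  have h34 : 1 ≤ T ^ (3 / 4 : ℝ) := Real.one_le_rpow hT1 (by norm_num)
  have hpos : ∀ Y : ℕ, T ^ (3 / 4 : ℝ) ≤ Y → 1 ≤ Y := by
    intro Y hY
    have : (1 : ℝ) ≤ Y := h34.trans hY
    exact_mod_cast this
  have hPp := hpos P hP1
  have hY1p := hpos Y1 hY11
  have hY2p := hpos Y2 hY21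
  have hY3p := hpos Y3 hY31
  have h114 : T ^ 2 ≤ T ^ (11 / 4 : ℝ) := by
    have : T ^ 2 = T ^ (2 : ℝ) := by norm_cast
    rw [this]
    exact Real.rpow_le_rpow_of_exponent_le hT1 (by norm_num)
  have h114' : T ^ (11 / 4 : ℝ) = T ^ 2 * T ^ (3 / 4 : ℝ) := by
    have : T ^ 2 = T ^ (2 : ℝ) := by norm_cast
    rw [this, ← Real.rpow_add hTp]
    norm_num
  have hZT2 : T ^ 2 ≤ (Z : ℝ) := h114.trans hZ
  have hZp : 1 ≤ Z := by
    have : (1 : ℝ) ≤ Z := by nlinarith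
    exact_mod_cast this
  have hYYp : 1 ≤ Y1 * Y2 := Nat.mul_pos hY1p hY2p
  have hYYr : (0 : ℝ) < (Y1 : ℝ) * Y2 := by
    have : (0 : ℝ) < ((Y1 * Y2 : ℕ) : ℝ) := by exact_mod_cast hYYp
    push_cast at this
    exact this
  have hYYT : (Y1 : ℝ) * Y2 ≤ T ^ 2 := by
    have h0 : (0 : ℝ) ≤ Y1 := Nat.cast_nonneg _
    have h1 : (0 : ℝ) ≤ Y2 := Nat.cast_nonneg _
    nlinarith
  -- the length and the left end
  obtain ⟨L, j, hL, hYL, hj⟩ : ∃ (L : ℕ) (j : ℤ → ℤ → ℤ → ℤ), Real.sqrt T ≤ L ∧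
      (Y1 : ℝ) * Y2 * L ≤ 5 * min (Z : ℝ) (Y1 * Y2 * Y3) ∧
      ∀ p a b y : ℤ, (Y1 : ℤ) ≤ |a| → (Y2 : ℤ) ≤ |b| → |y| < 2 * Y3 →
        |a * b * y - p ^ 3| < 2 * Z → y ∈ Ico (j p a b) (j p a b + L) := by
    by_cases hcase : 4 * Y3 ≤ 4 * Z / (Y1 * Y2) + 1
    · refine ⟨4 * Y3, fun _ _ _ => -(2 * Y3 : ℤ), ?_, ?_, ?_⟩
      · push_cast
        have : (0 : ℝ) ≤ Y3 := Nat.cast_nonneg _
        linarith
      · have h1 : (4 * (Y3 : ℝ)) ≤ 4 * Z / (Y1 * Y2) + 1 := by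
          have h2 : ((4 * Y3 : ℕ) : ℝ) ≤ ((4 * Z / (Y1 * Y2) + 1 : ℕ) : ℝ) := by exact_mod_cast hcase
          push_cast at h2
          have h3 : ((4 * Z / (Y1 * Y2) : ℕ) : ℝ) ≤ (4 * Z : ℝ) / (Y1 * Y2) := by
            have := @Nat.cast_div_le ℝ _ _ _ (4 * Z) (Y1 * Y2)
            push_cast at this
            exact this
          linarith
        have h4 : (Y1 : ℝ) * Y2 * (4 * Y3) ≤ 4 * Z + Y1 * Y2 := by
          calc (Y1 : ℝ) * Y2 * (4 * Y3) ≤ Y1 * Y2 * (4 * Z / (Y1 * Y2) + 1) :=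
                mul_le_mul_of_nonneg_left h1 hYYr.le
            _ = 4 * Z + Y1 * Y2 := by field_simp
        have h5 : (0 : ℝ) ≤ Y1 * Y2 * Y3 := by positivity
        push_cast
        rcases min_choice (Z : ℝ) (Y1 * Y2 * Y3) with h6 | h6 <;> rw [h6]
        · linarith
        · linarith
      · intro p a b y _ _ hy _
        rw [mem_Ico]
        rw [abs_lt] at hy
        push_cast
        omega
    · have hlt : 4 * Z / (Y1 * Y2) + 1 < 4 * Y3 := not_le.1 hcase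
      refine ⟨4 * Z / (Y1 * Y2) + 1, jj Z, ?_, ?_, ?_⟩
      · have h1 : 4 * Z < (4 * Z / (Y1 * Y2) + 1) * (Y1 * Y2) :=
          (Nat.div_lt_iff_lt_mul hYYp).1 (Nat.lt_succ_self _)
        have h2 : (4 * (Z : ℝ)) < ((4 * Z / (Y1 * Y2) + 1 : ℕ) : ℝ) * (Y1 * Y2) := by
          exact_mod_cast h1
        have h3 : T ^ (3 / 4 : ℝ) * (Y1 * Y2) ≤ ((4 * Z / (Y1 * Y2) + 1 : ℕ) : ℝ) * (Y1 * Y2) := by
          have h4 : T ^ (3 / 4 : ℝ) * (Y1 * Y2) ≤ T ^ (3 / 4 : ℝ) * T ^ 2 :=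
            mul_le_mul_of_nonneg_left hYYT (by positivity)
          have h5 : T ^ (3 / 4 : ℝ) * T ^ 2 ≤ Z := by
            rw [mul_comm, ← h114']
            exact hZ
          have h6 : (0 : ℝ) ≤ Z := Nat.cast_nonneg _
          linarith
        exact hsq.trans (le_of_mul_le_mul_right h3 hYYr)
      · have h1 : Y1 * Y2 * (4 * Z / (Y1 * Y2) + 1) ≤ 4 * Z + Y1 * Y2 := by
          rw [Nat.mul_add, mul_one]
          exact Nat.add_le_add_right (Nat.mul_div_le _ _) _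
        have h2 : (Y1 : ℝ) * Y2 * ((4 * Z / (Y1 * Y2) + 1 : ℕ) : ℝ) ≤ 4 * Z + Y1 * Y2 := by
          exact_mod_cast h1
        have h3 : (Y1 : ℝ) * Y2 * ((4 * Z / (Y1 * Y2) + 1 : ℕ) : ℝ) ≤ Y1 * Y2 * (4 * Y3) := by
          apply mul_le_mul_of_nonneg_left _ hYYr.le
          have : ((4 * Z / (Y1 * Y2) + 1 : ℕ) : ℝ) ≤ ((4 * Y3 : ℕ) : ℝ) := by exact_mod_cast hlt.le
          push_cast at this ⊢
          exact this
        have h5 : (0 : ℝ) ≤ Y1 * Y2 * Y3 := by positivity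
        rcases min_choice (Z : ℝ) (Y1 * Y2 * Y3) with h6 | h6 <;> rw [h6]
        · linarith
        · linarith
      · intro p a b y ha hb _ h
        have hab : ((Y1 * Y2 : ℕ) : ℤ) ≤ |a * b| := by
          rw [abs_mul]
          push_cast
          exact mul_le_mul ha hb (Int.natCast_nonneg _) (abs_nonneg _)
        exact jj_mem Z (Y1 * Y2) p a b y hYYp hab h
  -- the sum
  set f : ℤ × ℤ × ℤ × ℤ → ℝ := fun x => (ff m x.1 x.2.1 x.2.2.1 x.2.2.2 : ℝ) with hf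
  have hf0 : ∀ x, 0 ≤ f x := fun x => Nat.cast_nonneg _
  set S := (Bx P Y1 Y2 Y3 Z).filter (fun x => (m : ℤ) ∣ x.1 - r0 ∧ (m : ℤ) ∣ x.2.1 - r1 ∧
        (m : ℤ) ∣ x.2.2.1 - r2 ∧ (m : ℤ) ∣ x.2.2.2 - r3) with hS
  let I0 : Bool × Bool × Bool → Finset ℤ := fun β => II (bas P β.1) P m r0
  let I1 : Bool × Bool × Bool → Finset ℤ := fun β => II (bas Y1 β.2.1) Y1 m r1
  let I2 : Bool × Bool × Bool → Finset ℤ := fun β => II (bas Y2 β.2.2) Y2 m r2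
  let Q : Bool × Bool × Bool → ℤ × ℤ × ℤ × ℤ → Prop := fun β x =>
    x.1 ∈ I0 β ∧ x.2.1 ∈ I1 β ∧ x.2.2.1 ∈ I2 β ∧
      x.2.2.2 ∈ JJ T (j x.1 x.2.1 x.2.2.1) L m r3 x.1 x.2.1 x.2.2.1
  have hQ : ∀ x ∈ S, ∃ β, Q β x := by
    intro x hx
    rw [hS, mem_filter, mem_Bx] at hx
    obtain ⟨⟨⟨p1, p2⟩, ⟨a1, a2⟩, ⟨b1, b2⟩, ⟨y1, y2⟩, ⟨d1, d2⟩⟩, c0, c1, c2, c3⟩ := hx
    obtain ⟨β0, hβ0⟩ := bas_mem P x.1 p1 p2
    obtain ⟨β1, hβ1⟩ := bas_mem Y1 x.2.1 a1 a2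
    obtain ⟨β2, hβ2⟩ := bas_mem Y2 x.2.2.1 b1 b2
    have nz : ∀ (Y : ℕ) (z : ℤ), 1 ≤ Y → (Y : ℤ) ≤ |z| → z ≠ 0 := by
      intro Y z h1 h2 h3
      rw [h3, abs_zero] at h2
      have : (1 : ℤ) ≤ Y := by exact_mod_cast h1
      omega
    refine ⟨(β0, β1, β2), ?_, ?_, ?_, ?_⟩
    · exact mem_filter.2 ⟨hβ0, c0, nz P _ hPp p1⟩
    · exact mem_filter.2 ⟨hβ1, c1, nz Y1 _ hY1p a1⟩
    · exact mem_filter.2 ⟨hβ2, c2, nz Y2 _ hY2p b1⟩
    · have hd : dx x = x.2.1 * x.2.2.1 * x.2.2.2 - x.1 ^ 3 := rfl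
      refine mem_filter.2 ⟨?_, c3, ?_, ?_⟩
      · apply hj x.1 x.2.1 x.2.2.1 x.2.2.2 a1 b1 y2
        rw [← hd]
        exact d2
      · intro h0
        have h1 : dx x = 0 := h0
        rw [h1, abs_zero] at d1
        have : (1 : ℤ) ≤ Z := by exact_mod_cast hZp
        omega
      · -- the size of `Δ`
        have h1 : ((|del x.1 x.2.1 x.2.2.1 x.2.2.2| : ℤ) : ℝ) ≤
            ((|x.2.1| : ℤ) : ℝ) * ((|x.2.2.1| : ℤ) : ℝ) * ((|x.2.2.2| : ℤ) : ℝ) +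
              ((|x.1| : ℤ) : ℝ) ^ 3 := by
          have h2 : |del x.1 x.2.1 x.2.2.1 x.2.2.2| ≤ |x.2.1| * |x.2.2.1| * |x.2.2.2| + |x.1| ^ 3 := by
            unfold del
            rw [← abs_mul, ← abs_mul, ← abs_pow]
            exact abs_sub _ _
          exact_mod_cast h2
        have e1 : ((|x.1| : ℤ) : ℝ) ≤ 2 * T := by
          have : ((|x.1| : ℤ) : ℝ) ≤ 2 * (P : ℝ) := by exact_mod_cast p2.le
          linarith
        have e2 : ((|x.2.1| : ℤ) : ℝ) ≤ 2 * T := by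
          have : ((|x.2.1| : ℤ) : ℝ) ≤ 2 * (Y1 : ℝ) := by exact_mod_cast a2.le
          linarith
        have e3 : ((|x.2.2.1| : ℤ) : ℝ) ≤ 2 * T := by
          have : ((|x.2.2.1| : ℤ) : ℝ) ≤ 2 * (Y2 : ℝ) := by exact_mod_cast b2.le
          linarith
        have e4 : ((|x.2.2.2| : ℤ) : ℝ) ≤ 2 * T := by
          have : ((|x.2.2.2| : ℤ) : ℝ) ≤ 2 * (Y3 : ℝ) := by exact_mod_cast y2.le
          linarith
        have g1 : (0 : ℝ) ≤ ((|x.1| : ℤ) : ℝ) := by exact_mod_cast abs_nonneg x.1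
        have g2 : (0 : ℝ) ≤ ((|x.2.1| : ℤ) : ℝ) := by exact_mod_cast abs_nonneg x.2.1
        have g3 : (0 : ℝ) ≤ ((|x.2.2.1| : ℤ) : ℝ) := by exact_mod_cast abs_nonneg x.2.2.1
        have g4 : (0 : ℝ) ≤ ((|x.2.2.2| : ℤ) : ℝ) := by exact_mod_cast abs_nonneg x.2.2.2
        have h3 : ((|x.2.1| : ℤ) : ℝ) * ((|x.2.2.1| : ℤ) : ℝ) * ((|x.2.2.2| : ℤ) : ℝ) ≤
            (2 * T) * (2 * T) * (2 * T) :=
          mul_le_mul (mul_le_mul e2 e3 g3 (by linarith)) e4 g4 (by positivity)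
        have h4 : ((|x.1| : ℤ) : ℝ) ^ 3 ≤ (2 * T) ^ 3 := pow_le_pow_left₀ g1 e1 3
        have h5 : 16 * T ^ 3 ≤ T ^ 8 := by
          have h6 : (2 : ℝ) ^ 5 ≤ T ^ 5 := pow_le_pow_left₀ (by norm_num) hT2 5
          have h7 : (0 : ℝ) ≤ T ^ 3 := by positivity
          nlinarith
        calc ((|del x.1 x.2.1 x.2.2.1 x.2.2.2| : ℤ) : ℝ) ≤ _ := h1
          _ ≤ (2 * T) * (2 * T) * (2 * T) + (2 * T) ^ 3 := add_le_add h3 h4
          _ = 16 * T ^ 3 := by ring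
          _ ≤ T ^ 8 := h5
  have hstep : ∑ x ∈ S, f x ≤ ∑ β : Bool × Bool × Bool,
      ∑ p ∈ I0 β, ∑ a ∈ I1 β, ∑ b ∈ I2 β, ∑ y ∈ JJ T (j p a b) L m r3 p a b,
        (ff m p a b y : ℝ) := by
    have h1 : ∑ x ∈ S, f x ≤ ∑ x ∈ S, ∑ β : Bool × Bool × Bool, (if Q β x then f x else 0) := by
      apply sum_le_sum
      intro x hx
      obtain ⟨β, hβ⟩ := hQ x hx
      have h2 := single_le_sum (f := fun β => if Q β x then f x else 0)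
        (fun γ _ => by
          show 0 ≤ (if Q γ x then f x else 0)
          split_ifs
          · exact hf0 x
          · exact le_refl _) (mem_univ β)
      simp only [if_pos hβ] at h2
      exact h2
    refine h1.trans ?_
    rw [sum_comm]
    apply sum_le_sum
    intro β _
    set Y : Finset ℤ := Ioo (-(2 * Y3 : ℤ)) (2 * Y3) with hY
    have h2 : ∑ x ∈ S, (if Q β x then f x else 0) ≤
        ∑ x ∈ (I0 β) ×ˢ (I1 β) ×ˢ (I2 β) ×ˢ Y,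
          (if x.2.2.2 ∈ JJ T (j x.1 x.2.1 x.2.2.1) L m r3 x.1 x.2.1 x.2.2.1 then f x else 0) := by
      rw [← sum_filter, ← sum_filter]
      apply sum_le_sum_of_subset_of_nonneg
      · intro x hx
        rw [mem_filter] at hx
        obtain ⟨hx, q1, q2, q3, q4⟩ := hx
        rw [mem_filter, mem_product, mem_product, mem_product]
        refine ⟨⟨q1, q2, q3, ?_⟩, q4⟩
        rw [hS, mem_filter, mem_Bx] at hx
        have := hx.1.2.2.2.1.2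
        rw [hY, mem_Ioo]
        rw [abs_lt] at this
        exact this
      · intro x _ _
        exact hf0 x
    refine h2.trans ?_
    rw [sum_product]
    apply sum_le_sum
    intro p _
    rw [sum_product]
    apply sum_le_sum
    intro a _
    rw [sum_product]
    apply sum_le_sum
    intro b _
    rw [← sum_filter]
    apply sum_le_sum_of_subset_of_nonneg
    · intro y hy
      rw [mem_filter] at hy
      exact hy.2
    · intro y _ _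
      exact Nat.cast_nonneg _
  have hcore8 : ∀ β : Bool × Bool × Bool, ∑ p ∈ I0 β, ∑ a ∈ I1 β, ∑ b ∈ I2 β,
      ∑ y ∈ JJ T (j p a b) L m r3 p a b, (ff m p a b y : ℝ) ≤
      C * gg m ^ 4 * (P * Y1 * Y2 * L / (m : ℝ) ^ 4) := by
    intro β
    exact core T hT m hm hmT r0 r1 r2 r3 (bas P β.1) (bas Y1 β.2.1) (bas Y2 β.2.2) P Y1 Y2 L j
      (hsq.trans hP1) (hsq.trans hY11) (hsq.trans hY21) hL (bas_abs P T hT2 hP2 _)
      (bas_abs Y1 T hT2 hY12 _) (bas_abs Y2 T hT2 hY22 _)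
  have hgg : 0 ≤ gg m ^ 4 := by
    have : gg m ^ 4 = (gg m ^ 2) ^ 2 := by ring
    rw [this]
    positivity
  calc ∑ x ∈ S, f x ≤ _ := hstep
    _ ≤ ∑ _β : Bool × Bool × Bool, C * gg m ^ 4 * (P * Y1 * Y2 * L / (m : ℝ) ^ 4) :=
        sum_le_sum fun β _ => hcore8 β
    _ = 8 * (C * gg m ^ 4 * (P * Y1 * Y2 * L / (m : ℝ) ^ 4)) := by
        rw [sum_const, card_univ]
        simp
    _ = 8 * (C * gg m ^ 4) * (P * (Y1 * Y2 * L) / (m : ℝ) ^ 4) := by ring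
    _ ≤ 8 * (C * gg m ^ 4) * (P * (5 * min (Z : ℝ) (Y1 * Y2 * Y3)) / (m : ℝ) ^ 4) := by
        apply mul_le_mul_of_nonneg_left _ (by positivity)
        apply div_le_div_of_nonneg_right _ (by positivity)
        exact mul_le_mul_of_nonneg_left hYL (Nat.cast_nonneg _)
    _ = 40 * C * gg m ^ 4 * ((P : ℝ) * min (Z : ℝ) (Y1 * Y2 * Y3) / (m : ℝ) ^ 4) := by ring

end Pool.Agent.PPW
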