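import Pool.Agent.PPW.Defs

/-!
# Local densities, counting (difficulty 3)

`AG G (l ^ e) = ∑ sl G l e` over the quadruples of `range (l ^ e)` (`(l ^ e).primeFactors = {l}`,
`Nat.Prime.factorization_pow`), `e ≥ 1`.
* `cnt_unit`: the number of quadruples of `range (l ^ e)` with `l` not dividing `p` and `l ^ e ∣ Δ` is
  at most `l ^ (3 e)`: the map to `(p, a, b)` is injective, since `a b` is prime to `l` (otherwise
  `l ∣ p ^ 3`) and `l ^ e ∣ a b (c - c')`.
* quadruples of `range l` with `l ∣ p` (so `p = 0`): at most `3 l ^ 2` have `nu ≥ 1`, at most `3 l` have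
  `nu ≥ 2`.  So `∑ sl` over `l ∣ p` is at most `3 * 3 l ^ 2 + 3 l * 3 l = 18 l ^ 2` for `e = 1`, and `0`
  for `e ≥ 2`.
* `e = 1`: for `l` not dividing `p`, `sl = 0` if `l` does not divide `6 G`, and `sl ≤ 6` always.
-/

set_option autoImplicit false

namespace Pool.Agent.PPW

open Finset Pool.Agent.PPS

private theorem cnt_AG {G l e : ℕ} (hl : l.Prime) (he : e ≠ 0) :
    AG G (l ^ e) = ∑ p ∈ range (l ^ e), ∑ a ∈ range (l ^ e), ∑ b ∈ range (l ^ e),
      ∑ c ∈ range (l ^ e), sl G l e p a b c := by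
  unfold AG sg
  rw [Nat.primeFactors_prime_pow he hl, hl.factorization_pow]
  simp only [Finset.prod_singleton, Finsupp.single_eq_same]

private theorem cnt_one_le {l e : ℕ} (hl : l.Prime) (he : e ≠ 0) (K p a b : ℕ) :
    ∑ c ∈ range (l ^ e), (if ¬ (l : ℤ) ∣ (p : ℤ) ∧ ((l ^ e : ℕ) : ℤ) ∣ del p a b c then K else 0)
      ≤ K := by
  rw [← Finset.sum_filter, Finset.sum_const, smul_eq_mul]
  have h1 : ((range (l ^ e)).filter (fun c : ℕ => ¬ (l : ℤ) ∣ (p : ℤ) ∧
      ((l ^ e : ℕ) : ℤ) ∣ del p a b c)).card ≤ 1 := by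
    rw [Finset.card_le_one]
    intro c hc c' hc'
    rw [Finset.mem_filter, Finset.mem_range] at hc hc'
    obtain ⟨hc1, hp, hc2⟩ := hc
    obtain ⟨hc1', _, hc2'⟩ := hc'
    have hlZ : Prime (l : ℤ) := Nat.prime_iff_prime_int.mp hl
    have hle : (l : ℤ) ∣ ((l ^ e : ℕ) : ℤ) := by
      exact_mod_cast dvd_pow_self l he
    have hab : ¬ (l : ℤ) ∣ (a : ℤ) * b := by
      intro h
      apply hp
      have h2 : (l : ℤ) ∣ del p a b c := hle.trans hc2
      unfold del at h2
      have h3 : (l : ℤ) ∣ (a : ℤ) * b * c := h.mul_right _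
      have h4 : (l : ℤ) ∣ (p : ℤ) ^ 3 := (dvd_sub_right h3).mp h2
      exact hlZ.dvd_of_dvd_pow h4
    have hcop : IsCoprime (((l ^ e : ℕ) : ℤ)) ((a : ℤ) * b) := by
      push_cast
      exact IsCoprime.pow_left ((Prime.coprime_iff_not_dvd hlZ).mpr hab)
    have h5 : ((l ^ e : ℕ) : ℤ) ∣ ((a : ℤ) * b) * ((c : ℤ) - c') := by
      have h6 := dvd_sub hc2 hc2'
      unfold del at h6
      have h7 : (a : ℤ) * b * c - (p : ℤ) ^ 3 - ((a : ℤ) * b * c' - (p : ℤ) ^ 3)
          = ((a : ℤ) * b) * ((c : ℤ) - c') := by ring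
      rwa [h7] at h6
    have h8 : ((l ^ e : ℕ) : ℤ) ∣ (c : ℤ) - c' := hcop.dvd_of_dvd_mul_left h5
    have h9 : (c : ℤ) - c' = 0 := by
      refine Int.eq_zero_of_abs_lt_dvd h8 ?_
      rw [abs_lt]
      constructor
      · have : (c' : ℤ) < ((l ^ e : ℕ) : ℤ) := by exact_mod_cast hc1'
        have : (0 : ℤ) ≤ (c : ℤ) := Int.natCast_nonneg c
        linarith
      · have : (c : ℤ) < ((l ^ e : ℕ) : ℤ) := by exact_mod_cast hc1
        have : (0 : ℤ) ≤ (c' : ℤ) := Int.natCast_nonneg c'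
        linarith
    omega
  calc _ ≤ 1 * K := Nat.mul_le_mul_right K h1
    _ = K := one_mul K

private theorem cnt_unit {l e : ℕ} (hl : l.Prime) (he : e ≠ 0) (K : ℕ) :
    ∑ p ∈ range (l ^ e), ∑ a ∈ range (l ^ e), ∑ b ∈ range (l ^ e), ∑ c ∈ range (l ^ e),
      (if ¬ (l : ℤ) ∣ (p : ℤ) ∧ ((l ^ e : ℕ) : ℤ) ∣ del p a b c then K else 0)
      ≤ K * l ^ (3 * e) := by
  calc _ ≤ ∑ p ∈ range (l ^ e), ∑ a ∈ range (l ^ e), ∑ b ∈ range (l ^ e), K :=
        Finset.sum_le_sum fun p _ => Finset.sum_le_sum fun a _ => Finset.sum_le_sum fun b _ =>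
          cnt_one_le hl he K p a b
    _ = K * l ^ (3 * e) := by
        simp only [Finset.sum_const, Finset.card_range, smul_eq_mul]
        ring

private theorem cnt_zero_le {l : ℕ} (a b c : ℤ) :
    (if nu l a b c = 0 then 0 else if nu l a b c = 1 then 3 else 3 * l)
      ≤ (if (l : ℤ) ∣ a then 3 else 0) + (if (l : ℤ) ∣ b then 3 else 0)
        + (if (l : ℤ) ∣ c then 3 else 0)
        + ((if (l : ℤ) ∣ a then (if (l : ℤ) ∣ b then 3 * l else 0) else 0)
          + (if (l : ℤ) ∣ a then (if (l : ℤ) ∣ c then 3 * l else 0) else 0)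
          + (if (l : ℤ) ∣ b then (if (l : ℤ) ∣ c then 3 * l else 0) else 0)) := by
  unfold nu
  by_cases ha : (l : ℤ) ∣ a <;> by_cases hb : (l : ℤ) ∣ b <;> by_cases hc : (l : ℤ) ∣ c <;>
    simp only [ha, hb, hc, if_true, if_false] <;> norm_num <;> omega

private theorem cnt_ind {l : ℕ} (hl : 0 < l) (K : ℕ) :
    ∑ a ∈ range l, (if (l : ℤ) ∣ (a : ℤ) then K else 0) = K := by
  rw [Finset.sum_eq_single 0]
  · simp
  · intro a ha h0
    rw [if_neg]
    intro h
    have h1 : l ∣ a := by exact_mod_cast h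
    exact absurd (Nat.le_of_dvd (Nat.pos_of_ne_zero h0) h1) (by
      rw [Finset.mem_range] at ha; omega)
  · intro h
    exact absurd (Finset.mem_range.mpr hl) h

private theorem cnt_zero_sum {l : ℕ} (hl : 0 < l) :
    ∑ a ∈ range l, ∑ b ∈ range l, ∑ c ∈ range l,
      (if nu l a b c = 0 then 0 else if nu l a b c = 1 then 3 else 3 * l) ≤ 18 * l ^ 2 := by
  calc _ ≤ ∑ a ∈ range l, ∑ b ∈ range l, ∑ c ∈ range l,
        ((if (l : ℤ) ∣ (a : ℤ) then 3 else 0) + (if (l : ℤ) ∣ (b : ℤ) then 3 else 0)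
        + (if (l : ℤ) ∣ (c : ℤ) then 3 else 0)
        + ((if (l : ℤ) ∣ (a : ℤ) then (if (l : ℤ) ∣ (b : ℤ) then 3 * l else 0) else 0)
          + (if (l : ℤ) ∣ (a : ℤ) then (if (l : ℤ) ∣ (c : ℤ) then 3 * l else 0) else 0)
          + (if (l : ℤ) ∣ (b : ℤ) then (if (l : ℤ) ∣ (c : ℤ) then 3 * l else 0) else 0))) :=
        Finset.sum_le_sum fun a _ => Finset.sum_le_sum fun b _ => Finset.sum_le_sum fun c _ =>
          cnt_zero_le a b c
    _ = 18 * l ^ 2 := by
        have e1 : ∀ P : Prop, ∀ [Decidable P], ∀ f : ℕ → ℕ,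
            ∑ x ∈ range l, (if P then f x else 0) = if P then ∑ x ∈ range l, f x else 0 := by
          intro P _ f
          split_ifs <;> simp
        simp only [Finset.sum_add_distrib, Finset.sum_const, Finset.card_range, smul_eq_mul,
          cnt_ind hl, e1]
        ring

theorem AG_one {G l : ℕ} (hl : l.Prime) (h : ¬ l ∣ 6 * G) : AG G l ≤ 18 * l ^ 2 := by
  have h1 : AG G (l ^ 1) ≤ 18 * l ^ 2 := by
    rw [cnt_AG hl one_ne_zero, pow_one]
    calc _ ≤ ∑ p ∈ range l, (if (l : ℤ) ∣ (p : ℤ) then 18 * l ^ 2 else 0) := by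
          refine Finset.sum_le_sum fun p _ => ?_
          by_cases hp : (l : ℤ) ∣ (p : ℤ)
          · rw [if_pos hp]
            refine le_trans (le_of_eq ?_) (cnt_zero_sum hl.pos)
            refine Finset.sum_congr rfl fun a _ => Finset.sum_congr rfl fun b _ =>
              Finset.sum_congr rfl fun c _ => ?_
            unfold sl
            rw [if_pos hp, if_pos rfl]
          · rw [if_neg hp]
            refine le_of_eq (Finset.sum_eq_zero fun a _ => Finset.sum_eq_zero fun b _ =>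
              Finset.sum_eq_zero fun c _ => ?_)
            unfold sl
            have h3 : ¬ (l ∣ 6 * G ∨ 3 ≤ 1) := by
              rintro (h4 | h4)
              · exact h h4
              · omega
            rw [if_neg hp, if_neg h3, if_neg (by norm_num : ¬ (1 : ℕ) = 2), ite_self]
      _ = 18 * l ^ 2 := cnt_ind hl.pos _
  rwa [pow_one] at h1

theorem AG_one' {G l : ℕ} (hl : l.Prime) : AG G l ≤ 18 * l ^ 2 + 6 * l ^ 3 := by
  have h1 : AG G (l ^ 1) ≤ 18 * l ^ 2 + 6 * l ^ 3 := by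
    have h2 := cnt_unit hl one_ne_zero 6
    rw [cnt_AG hl one_ne_zero]
    calc _ ≤ ∑ p ∈ range (l ^ 1), ((if (l : ℤ) ∣ (p : ℤ) then 18 * l ^ 2 else 0)
          + ∑ a ∈ range (l ^ 1), ∑ b ∈ range (l ^ 1), ∑ c ∈ range (l ^ 1),
            (if ¬ (l : ℤ) ∣ (p : ℤ) ∧ ((l ^ 1 : ℕ) : ℤ) ∣ del p a b c then 6 else 0)) := by
          refine Finset.sum_le_sum fun p _ => ?_
          by_cases hp : (l : ℤ) ∣ (p : ℤ)
          · rw [if_pos hp]
            refine le_trans ?_ (Nat.le_add_right _ _)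
            rw [pow_one]
            refine le_trans (le_of_eq ?_) (cnt_zero_sum hl.pos)
            refine Finset.sum_congr rfl fun a _ => Finset.sum_congr rfl fun b _ =>
              Finset.sum_congr rfl fun c _ => ?_
            unfold sl
            rw [if_pos hp, if_pos rfl]
          · rw [if_neg hp, zero_add]
            refine Finset.sum_le_sum fun a _ => Finset.sum_le_sum fun b _ =>
              Finset.sum_le_sum fun c _ => ?_
            unfold sl
            rw [if_neg hp]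
            by_cases hd : ((l ^ 1 : ℕ) : ℤ) ∣ del p a b c
            · have hq : ¬ (l : ℤ) ∣ (p : ℤ) ∧ ((l ^ 1 : ℕ) : ℤ) ∣ del p a b c := ⟨hp, hd⟩
              rw [if_pos hd, if_pos hq]
              split_ifs <;> norm_num
            · rw [if_neg hd]
              exact Nat.zero_le _
      _ = 18 * l ^ 2 + _ := by
          rw [Finset.sum_add_distrib]
          congr 1
          rw [pow_one]
          exact cnt_ind hl.pos _
      _ ≤ 18 * l ^ 2 + 6 * l ^ (3 * 1) := Nat.add_le_add_left h2 _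
  rwa [pow_one] at h1

theorem AG_two {G l : ℕ} (hl : l.Prime) (h : ¬ l ∣ 6 * G) : AG G (l ^ 2) ≤ 6 * l ^ 6 := by
  have h2 := cnt_unit hl (two_ne_zero) 6
  rw [cnt_AG hl two_ne_zero]
  refine le_trans ?_ h2
  refine Finset.sum_le_sum fun p _ => Finset.sum_le_sum fun a _ => Finset.sum_le_sum fun b _ =>
    Finset.sum_le_sum fun c _ => ?_
  unfold sl
  by_cases hp : (l : ℤ) ∣ (p : ℤ)
  · rw [if_pos hp, if_neg (by norm_num : ¬ (2 : ℕ) = 1)]
    exact Nat.zero_le _
  · rw [if_neg hp]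
    by_cases hd : ((l ^ 2 : ℕ) : ℤ) ∣ del p a b c
    · have h3 : ¬ (l ∣ 6 * G ∨ 3 ≤ 2) := by
        rintro (h4 | h4)
        · exact h h4
        · omega
      have hq : ¬ (l : ℤ) ∣ (p : ℤ) ∧ ((l ^ 2 : ℕ) : ℤ) ∣ del p a b c := ⟨hp, hd⟩
      rw [if_pos hd, if_pos hq, if_neg h3, if_pos rfl]
    · rw [if_neg hd]
      exact Nat.zero_le _

theorem AG_pow {G l : ℕ} (hl : l.Prime) {e : ℕ} (he : 2 ≤ e) :
    AG G (l ^ e) ≤ 3 * (e + 1) * l ^ (e / 2) * l ^ (3 * e) := by
  have he0 : e ≠ 0 := by omega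
  have h2 := cnt_unit hl he0 (3 * (e + 1) * l ^ (e / 2))
  rw [cnt_AG hl he0]
  refine le_trans ?_ h2
  refine Finset.sum_le_sum fun p _ => Finset.sum_le_sum fun a _ => Finset.sum_le_sum fun b _ =>
    Finset.sum_le_sum fun c _ => ?_
  unfold sl
  by_cases hp : (l : ℤ) ∣ (p : ℤ)
  · rw [if_pos hp, if_neg (by omega : ¬ e = 1)]
    exact Nat.zero_le _
  · rw [if_neg hp]
    by_cases hd : ((l ^ e : ℕ) : ℤ) ∣ del p a b c
    · have hq : ¬ (l : ℤ) ∣ (p : ℤ) ∧ ((l ^ e : ℕ) : ℤ) ∣ del p a b c := ⟨hp, hd⟩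
      rw [if_pos hd, if_pos hq]
      split_ifs with h3 h4
      · exact le_rfl
      · subst h4
        have h5 := hl.pos
        norm_num
        omega
      · exact Nat.zero_le _
    · rw [if_neg hd]
      exact Nat.zero_le _

end Pool.Agent.PPW
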