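import Pool.Agent.PPW.Per

/-!
# Multiplicativity (difficulty 3)

* `sg G (m n) = sg G m * sg G n` for coprime `m, n` (`Nat.Coprime.primeFactors_mul`, disjoint;
  `Nat.factorization_mul_of_coprime`).
* `AG_mul`: by `sg_per`, `sg G m` at `(p, a, b, c)` is `sg G m` at the residues modulo `m`; use four
  times: `∑ x ∈ range (m n), F (x % m) (x % n) = ∑ u ∈ range m, ∑ v ∈ range n, F u v` (bijection,
  Chinese remainder theorem `Nat.chineseRemainder`).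
* `gg_mul_cop`: `gg (m n) = gg m * gg n` for coprime `m, n`; `gg 1 = 1`.
-/

set_option autoImplicit false

namespace Pool.Agent.PPW

open Finset Pool.Agent.PPS

private lemma Crt_sg_mul (G : ℕ) {m n : ℕ} (h : Nat.Coprime m n) (p a b c : ℤ) :
    sg G (m * n) p a b c = sg G m p a b c * sg G n p a b c := by
  unfold sg
  rw [h.primeFactors_mul, prod_union h.disjoint_primeFactors]
  congr 1
  · apply prod_congr rfl
    intro l hl
    rw [Nat.factorization_eq_of_coprime_left h (Nat.mem_primeFactors_iff_mem_primeFactorsList.1 hl)]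
  · apply prod_congr rfl
    intro l hl
    rw [Nat.factorization_eq_of_coprime_right h
      (Nat.mem_primeFactors_iff_mem_primeFactorsList.1 hl)]

private lemma Crt_sum {m n : ℕ} (hm : m ≠ 0) (hn : n ≠ 0) (h : Nat.Coprime m n) (f g : ℕ → ℕ) :
    ∑ x ∈ range (m * n), f (x % m) * g (x % n) = (∑ u ∈ range m, f u) * ∑ v ∈ range n, g v := by
  rw [sum_mul_sum, ← sum_product']
  apply sum_bij' (i := fun x _ => (x % m, x % n))
    (j := fun y _ => (Nat.chineseRemainder h y.1 y.2 : ℕ))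
  · intro x _
    simp only [mem_product, mem_range]
    exact ⟨Nat.mod_lt _ (Nat.pos_of_ne_zero hm), Nat.mod_lt _ (Nat.pos_of_ne_zero hn)⟩
  · intro y _
    exact mem_range.2 (Nat.chineseRemainder_lt_mul h _ _ hm hn)
  · intro x hx
    have hx' := mem_range.1 hx
    have h1 := (Nat.chineseRemainder h (x % m) (x % n)).2
    have h3 : (Nat.chineseRemainder h (x % m) (x % n) : ℕ) ≡ x [MOD m * n] := by
      rw [← Nat.modEq_and_modEq_iff_modEq_mul h]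
      exact ⟨h1.1.trans (Nat.mod_modEq x m), h1.2.trans (Nat.mod_modEq x n)⟩
    exact Nat.ModEq.eq_of_lt_of_lt h3 (Nat.chineseRemainder_lt_mul h _ _ hm hn) hx'
  · intro y hy
    have hy' := mem_product.1 hy
    have h1 := (Nat.chineseRemainder h y.1 y.2).2
    have e1 : (Nat.chineseRemainder h y.1 y.2 : ℕ) % m = y.1 := by
      have := h1.1
      unfold Nat.ModEq at this
      rw [this, Nat.mod_eq_of_lt (mem_range.1 hy'.1)]
    have e2 : (Nat.chineseRemainder h y.1 y.2 : ℕ) % n = y.2 := by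
      have := h1.2
      unfold Nat.ModEq at this
      rw [this, Nat.mod_eq_of_lt (mem_range.1 hy'.2)]
    exact Prod.ext e1 e2
  · intro x _
    rfl

private lemma Crt_res (G : ℕ) {m : ℕ} (p a b c : ℕ) :
    sg G m p a b c = sg G m ((p % m : ℕ) : ℤ) ((a % m : ℕ) : ℤ) ((b % m : ℕ) : ℤ)
      ((c % m : ℕ) : ℤ) := by
  have e : ∀ x : ℕ, (m : ℤ) ∣ (x : ℤ) - ((x % m : ℕ) : ℤ) := by
    intro x
    rw [Int.natCast_mod]
    exact Int.dvd_self_sub_emod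
  exact sg_per (e p) (e a) (e b) (e c)

theorem AG_unit (G : ℕ) : AG G 1 = 1 := by
  simp [AG, sg]

theorem AG_mul (G : ℕ) {m n : ℕ} (hm : m ≠ 0) (hn : n ≠ 0) (h : Nat.Coprime m n) :
    AG G (m * n) = AG G m * AG G n := by
  unfold AG
  have e : ∀ p a b c : ℕ, sg G (m * n) p a b c =
      sg G m ((p % m : ℕ) : ℤ) ((a % m : ℕ) : ℤ) ((b % m : ℕ) : ℤ) ((c % m : ℕ) : ℤ) *
      sg G n ((p % n : ℕ) : ℤ) ((a % n : ℕ) : ℤ) ((b % n : ℕ) : ℤ) ((c % n : ℕ) : ℤ) := by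
    intro p a b c
    rw [Crt_sg_mul G h, Crt_res G (m := m), Crt_res G (m := n)]
  simp only [e]
  have e4 : ∀ p a b : ℕ, (∑ c ∈ range (m * n),
      sg G m ((p % m : ℕ) : ℤ) ((a % m : ℕ) : ℤ) ((b % m : ℕ) : ℤ) ((c % m : ℕ) : ℤ) *
      sg G n ((p % n : ℕ) : ℤ) ((a % n : ℕ) : ℤ) ((b % n : ℕ) : ℤ) ((c % n : ℕ) : ℤ)) =
      (∑ c ∈ range m, sg G m ((p % m : ℕ) : ℤ) ((a % m : ℕ) : ℤ) ((b % m : ℕ) : ℤ) (c : ℤ)) *
      (∑ c ∈ range n, sg G n ((p % n : ℕ) : ℤ) ((a % n : ℕ) : ℤ) ((b % n : ℕ) : ℤ) (c : ℤ)) := by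
    intro p a b
    exact Crt_sum hm hn h
      (fun c : ℕ => sg G m ((p % m : ℕ) : ℤ) ((a % m : ℕ) : ℤ) ((b % m : ℕ) : ℤ) (c : ℤ))
      (fun c : ℕ => sg G n ((p % n : ℕ) : ℤ) ((a % n : ℕ) : ℤ) ((b % n : ℕ) : ℤ) (c : ℤ))
  simp only [e4]
  have e3 : ∀ p a : ℕ, (∑ b ∈ range (m * n),
      (∑ c ∈ range m, sg G m ((p % m : ℕ) : ℤ) ((a % m : ℕ) : ℤ) ((b % m : ℕ) : ℤ) (c : ℤ)) *
      (∑ c ∈ range n, sg G n ((p % n : ℕ) : ℤ) ((a % n : ℕ) : ℤ) ((b % n : ℕ) : ℤ) (c : ℤ))) =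
      (∑ b ∈ range m, ∑ c ∈ range m, sg G m ((p % m : ℕ) : ℤ) ((a % m : ℕ) : ℤ) (b : ℤ) (c : ℤ)) *
      (∑ b ∈ range n, ∑ c ∈ range n,
        sg G n ((p % n : ℕ) : ℤ) ((a % n : ℕ) : ℤ) (b : ℤ) (c : ℤ)) := by
    intro p a
    exact Crt_sum hm hn h
      (fun b : ℕ => ∑ c ∈ range m,
        sg G m ((p % m : ℕ) : ℤ) ((a % m : ℕ) : ℤ) (b : ℤ) (c : ℤ))
      (fun b : ℕ => ∑ c ∈ range n,
        sg G n ((p % n : ℕ) : ℤ) ((a % n : ℕ) : ℤ) (b : ℤ) (c : ℤ))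
  simp only [e3]
  have e2 : ∀ p : ℕ, (∑ a ∈ range (m * n),
      (∑ b ∈ range m, ∑ c ∈ range m, sg G m ((p % m : ℕ) : ℤ) ((a % m : ℕ) : ℤ) (b : ℤ) (c : ℤ)) *
      (∑ b ∈ range n, ∑ c ∈ range n,
        sg G n ((p % n : ℕ) : ℤ) ((a % n : ℕ) : ℤ) (b : ℤ) (c : ℤ))) =
      (∑ a ∈ range m, ∑ b ∈ range m, ∑ c ∈ range m,
        sg G m ((p % m : ℕ) : ℤ) (a : ℤ) (b : ℤ) (c : ℤ)) *
      (∑ a ∈ range n, ∑ b ∈ range n, ∑ c ∈ range n,
        sg G n ((p % n : ℕ) : ℤ) (a : ℤ) (b : ℤ) (c : ℤ)) := by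
    intro p
    exact Crt_sum hm hn h
      (fun a : ℕ => ∑ b ∈ range m, ∑ c ∈ range m,
        sg G m ((p % m : ℕ) : ℤ) (a : ℤ) (b : ℤ) (c : ℤ))
      (fun a : ℕ => ∑ b ∈ range n, ∑ c ∈ range n,
        sg G n ((p % n : ℕ) : ℤ) (a : ℤ) (b : ℤ) (c : ℤ))
  simp only [e2]
  exact Crt_sum hm hn h
    (fun p : ℕ => ∑ a ∈ range m, ∑ b ∈ range m, ∑ c ∈ range m,
      sg G m (p : ℤ) (a : ℤ) (b : ℤ) (c : ℤ))
    (fun p : ℕ => ∑ a ∈ range n, ∑ b ∈ range n, ∑ c ∈ range n,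
      sg G n (p : ℤ) (a : ℤ) (b : ℤ) (c : ℤ))

theorem gg_unit : gg 1 = 1 := by
  simp [gg]

theorem gg_mul_cop {m n : ℕ} (h : Nat.Coprime m n) : gg (m * n) = gg m * gg n := by
  unfold gg
  rw [h.primeFactors_mul, prod_union h.disjoint_primeFactors]

end Pool.Agent.PPW
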