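import Pool.Agent.PPW.Defs

/-!
# The weight is the majorant at its bad part (difficulty 3)

Let `n = |Δ|`, `k = v_l(n)`, `M = mst G p n`.
* `mst_pos`, `mst_factorization`: for a prime `l ∣ n` the exponent of `l` in `M` is `be G l k p`
  (`Nat.factorization_prod_pow_eq_self`-like; or `Nat.factorization_prod`), for the other primes it is
  `0`.  So the primes of `M` are the `l ∣ n` with `be ≠ 0`, i.e. with `l ∣ p ∨ l ∣ 6 G ∨ 2 ≤ k`.
* `facw`: `Wt = ∏ l ∣ n, om`.  Split the primes of `n` into those of `M` and the others.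
  Primes of `M`: `om G l k = sl G l (be)`: if `l ∣ p` then `be = 1`, `l ∣ a b c` (as `l ∣ Δ`), so
  `nu ≥ 1` and both are `3` for `nu = 1`, `3 l` otherwise; if `l` does not divide `p` then `be = k`,
  `l ^ k ∣ Δ`, and both are `3 (k+1) l ^ (k/2)` (if `l ∣ 6 G` or `3 ≤ k`) or `6` (then `k = 2`).
  The others: `l` does not divide `6 G p` and `k = 1` (`k ≥ 1` as `l ∣ n`), `om = rr l a b`, and they
  are exactly the elements of `SS M p a b c`.
-/

set_option autoImplicit false

namespace Pool.Agent.PPW

open Finset Pool.Agent.PPS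

private theorem fw_fact {S : Finset ℕ} {e : ℕ → ℕ} (hS : ∀ l ∈ S, l.Prime) {q : ℕ}
    (hq : q.Prime) : (∏ l ∈ S, l ^ e l).factorization q = if q ∈ S then e q else 0 := by
  rw [Nat.factorization_prod (fun l hl => pow_ne_zero _ (hS l hl).ne_zero)]
  rw [Finsupp.coe_finsetSum, Finset.sum_apply]
  have h1 : ∀ l ∈ S, (l ^ e l).factorization q = if l = q then e q else 0 := by
    intro l hl
    rw [Nat.factorization_pow, Finsupp.smul_apply, (hS l hl).factorization, Finsupp.single_apply]
    by_cases h : l = q
    · subst h; simp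
    · simp [h]
  rw [Finset.sum_congr rfl h1, Finset.sum_ite_eq' S q]

theorem mst_pos (G : ℕ) (p : ℤ) (n : ℕ) : 0 < mst G p n := by
  unfold mst
  exact Finset.prod_pos fun l hl => pow_pos (Nat.prime_of_mem_primeFactors hl).pos _

theorem mst_factorization {G : ℕ} {p : ℤ} {n l : ℕ} (hl : l.Prime) :
    (mst G p n).factorization l = if l ∣ n ∧ n ≠ 0 then be G l (n.factorization l) p else 0 := by
  unfold mst
  rw [fw_fact (e := fun l => be G l (n.factorization l) p)
    (fun l hl => Nat.prime_of_mem_primeFactors hl) hl]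
  have h : l ∈ n.primeFactors ↔ l ∣ n ∧ n ≠ 0 := by
    rw [Nat.mem_primeFactors]
    exact ⟨fun h => h.2, fun h => ⟨hl, h⟩⟩
  simp only [h]

theorem facw {G : ℕ} {p a b c : ℤ} (h : del p a b c ≠ 0) :
    Wt G p a b c = sg G (mst G p (del p a b c).natAbs) p a b c *
      ff (mst G p (del p a b c).natAbs) p a b c := by
  set n : ℕ := (del p a b c).natAbs with hn
  have hn0 : n ≠ 0 := Int.natAbs_ne_zero.mpr h
  set M : ℕ := mst G p n with hM
  have hM0 : M ≠ 0 := (mst_pos G p n).ne'
  have hdv : ∀ l : ℕ, l.Prime → (l ∣ M ↔ l ∣ n ∧ be G l (n.factorization l) p ≠ 0) := by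
    intro l hl
    have h1 : l ∣ M ↔ M.factorization l ≠ 0 := by
      constructor
      · intro h2
        exact (hl.factorization_pos_of_dvd hM0 h2).ne'
      · intro h2
        exact Nat.dvd_of_factorization_pos h2
    rw [h1, hM, mst_factorization hl]
    by_cases h3 : l ∣ n
    · simp [h3, hn0]
    · simp [h3]
  have hA : n.primeFactors.filter (fun l => l ∣ M) = M.primeFactors := by
    ext l
    rw [Finset.mem_filter, Nat.mem_primeFactors, Nat.mem_primeFactors]
    constructor
    · rintro ⟨⟨h1, _, _⟩, h3⟩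
      exact ⟨h1, h3, hM0⟩
    · rintro ⟨h1, h2, _⟩
      exact ⟨⟨h1, ((hdv l h1).1 h2).1, hn0⟩, h2⟩
  have hB : n.primeFactors.filter (fun l => ¬ l ∣ M) = SS M p a b c := by
    unfold SS
    rw [← hn]
    ext l
    rw [Finset.mem_filter, Finset.mem_filter]
    constructor
    · rintro ⟨h1, h2⟩
      refine ⟨h1, h2, fun h3 => h2 ?_⟩
      have hl := Nat.prime_of_mem_primeFactors h1
      rw [hdv l hl]
      refine ⟨Nat.dvd_of_mem_primeFactors h1, ?_⟩
      simp [be, h3]
    · rintro ⟨h1, h2, _⟩
      exact ⟨h1, h2⟩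
  unfold Wt
  rw [← hn, ← Finset.prod_filter_mul_prod_filter_not n.primeFactors (fun l => l ∣ M), hA, hB]
  unfold sg ff
  congr 1
  · refine Finset.prod_congr rfl fun l hl => ?_
    have hlp := Nat.prime_of_mem_primeFactors hl
    have hlM := Nat.dvd_of_mem_primeFactors hl
    obtain ⟨hln, hbe⟩ := (hdv l hlp).1 hlM
    have he : M.factorization l = be G l (n.factorization l) p := by
      rw [hM, mst_factorization hlp]
      simp [hln, hn0]
    rw [he]
    have hlD : (l : ℤ) ∣ del p a b c := Int.natCast_dvd.mpr hln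
    by_cases hp : (l : ℤ) ∣ p
    · have hb : be G l (n.factorization l) p = 1 := by simp [be, hp]
      have habc : (l : ℤ) ∣ a * b * c := by
        unfold del at hlD
        have h5 : (l : ℤ) ∣ p ^ 3 := hp.trans (dvd_pow_self p (by norm_num))
        have h6 := dvd_add hlD h5
        simpa using h6
      have hnu : nu l a b c ≠ 0 := by
        have hpr : Prime (l : ℤ) := Nat.prime_iff_prime_int.mp hlp
        unfold nu
        rcases hpr.dvd_or_dvd habc with h7 | h7
        · rcases hpr.dvd_or_dvd h7 with h8 | h8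
          · simp [h8]
          · simp [h8]
        · simp [h7]
      unfold om sl
      rw [if_pos hp, if_pos hp, hb, if_pos rfl, if_neg hnu]
      by_cases h9 : nu l a b c = 1
      · rw [if_pos h9, if_pos h9.le]
      · rw [if_neg h9, if_neg (by omega)]
    · have hbk : (l ∣ 6 * G ∨ 2 ≤ n.factorization l) ∧
          be G l (n.factorization l) p = n.factorization l := by
        unfold be at hbe ⊢
        rw [if_neg hp] at hbe ⊢
        by_cases h9 : l ∣ 6 * G ∨ 2 ≤ n.factorization l
        · exact ⟨h9, if_pos h9⟩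
        · rw [if_neg h9] at hbe
          exact absurd rfl hbe
      rw [hbk.2]
      have hk : ((l ^ n.factorization l : ℕ) : ℤ) ∣ del p a b c :=
        Int.natCast_dvd.mpr (Nat.ordProj_dvd n l)
      unfold om sl
      rw [if_neg hp, if_neg hp, if_pos hk]
      by_cases h9 : l ∣ 6 * G ∨ 3 ≤ n.factorization l
      · rw [if_pos h9, if_pos h9]
      · rw [if_neg h9, if_neg h9]
        have h10 : n.factorization l = 2 := by
          rcases hbk.1 with h11 | h11
          · exact absurd (Or.inl h11) h9
          · by_contra h12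
            exact h9 (Or.inr (by omega))
        rw [if_pos h10, if_pos h10]
  · refine Finset.prod_congr rfl fun l hl => ?_
    rw [← hB, Finset.mem_filter] at hl
    obtain ⟨h1, h2⟩ := hl
    have hlp := Nat.prime_of_mem_primeFactors h1
    have hln := Nat.dvd_of_mem_primeFactors h1
    have hb0 : be G l (n.factorization l) p = 0 := by
      by_contra h3
      exact h2 ((hdv l hlp).2 ⟨hln, h3⟩)
    have hp : ¬ (l : ℤ) ∣ p := by
      intro h3
      simp [be, h3] at hb0
    have hk1 : 1 ≤ n.factorization l := hlp.factorization_pos_of_dvd hn0 hln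
    have h9 : ¬ (l ∣ 6 * G ∨ 2 ≤ n.factorization l) := by
      intro h9
      unfold be at hb0
      rw [if_neg hp, if_pos h9] at hb0
      omega
    push Not at h9
    unfold om
    rw [if_neg hp, if_neg (by push Not; exact ⟨h9.1, by omega⟩), if_neg (by omega)]

end Pool.Agent.PPW
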