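import Pool.Agent.PPW.Cnt

/-!
# Local sums (difficulty 3)

`gg (l ^ e) = (1 - 1/l)⁻¹ ≤ 2`, so `gg ^ 4 ≤ 16`.  With `t e = AG G (l ^ e) * gg ^ 4 / l ^ (4 e)`:
* `l` not dividing `6 G`: `t 1 ≤ 288 / l ^ 2`, `t 2 ≤ 96 / l ^ 2`, and for `e ≥ 3`:
  `t e ≤ 48 (e + 1) l ^ (e / 2) / l ^ e = 48 (e + 1) / l ^ (e - e / 2)`.
  Pairs `e = 2 j - 1, 2 j` (`j ≥ 2`; `e - e / 2 = j` for both): together `48 (4 j + 1) / l ^ j
  ≤ 48 (4 j + 1) / (2 ^ (j - 2) l ^ 2)`, and `∑ j ∈ Icc 2 J, (4 j + 1) / 2 ^ (j - 2)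
  = 26 - (4 J + 9) / 2 ^ (J - 2)` (induction) `≤ 26`: total `288 + 96 + 1248 ≤ 2000`.
* always: `t 1 ≤ 288 / l ^ 2 + 96 / l`, `t 2 ≤ 48 * 3 / l`, `t e` as before for `e ≥ 3`:
  `(144 + 96 + 144 + 624) / l ≤ 2000 / l` as `l ≥ 2`.
(All terms are nonnegative: bound `∑ e ∈ Icc 1 E` by `∑ e ∈ Icc 1 (2 E + 4)`.)
-/

set_option autoImplicit false

namespace Pool.Agent.PPW

open Finset Pool.Agent.PPS

private theorem loc_gg {l : ℕ} (hl : l.Prime) {e : ℕ} (he : 1 ≤ e) :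
    gg (l ^ e) ^ 4 ≤ 16 := by
  have h2 : (2 : ℝ) ≤ l := by exact_mod_cast hl.two_le
  have e1 : gg (l ^ e) = (1 - 1 / (l : ℝ))⁻¹ := by
    unfold gg
    rw [Nat.primeFactors_prime_pow (by omega) hl]
    simp
  have h3 : (1 : ℝ) / l ≤ 1 / 2 := by
    apply one_div_le_one_div_of_le <;> linarith
  have h4 : (1 - 1 / (l : ℝ))⁻¹ ≤ 2 := by
    have : (1 / 2 : ℝ) ≤ 1 - 1 / (l : ℝ) := by linarith
    calc (1 - 1 / (l : ℝ))⁻¹ ≤ (1 / 2 : ℝ)⁻¹ := inv_anti₀ (by norm_num) this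
      _ = 2 := by norm_num
  have h5 : 0 ≤ (1 - 1 / (l : ℝ))⁻¹ := by
    apply inv_nonneg.mpr; linarith
  rw [e1]
  calc (1 - 1 / (l : ℝ))⁻¹ ^ 4 ≤ 2 ^ 4 := by gcongr
    _ = 16 := by norm_num

private theorem loc_t {G l : ℕ} (hl : l.Prime) {e : ℕ} (he : 1 ≤ e) {B : ℝ}
    (hB : (AG G (l ^ e) : ℝ) ≤ B) :
    (AG G (l ^ e) : ℝ) * gg (l ^ e) ^ 4 / ((l ^ e : ℕ) : ℝ) ^ 4 ≤ 16 * B / (l : ℝ) ^ (4 * e) := by
  have h0 : (0 : ℝ) ≤ AG G (l ^ e) := Nat.cast_nonneg _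
  have hg := loc_gg hl he
  have hg0 : 0 ≤ gg (l ^ e) ^ 4 := by positivity
  have e1 : ((l ^ e : ℕ) : ℝ) ^ 4 = (l : ℝ) ^ (4 * e) := by
    push_cast
    rw [← pow_mul, mul_comm]
  rw [e1]
  have hl0 : (0 : ℝ) < l := by exact_mod_cast hl.pos
  apply div_le_div_of_nonneg_right _ (by positivity)
  nlinarith

private theorem loc_te {G l : ℕ} (hl : l.Prime) {e : ℕ} (he : 2 ≤ e) :
    (AG G (l ^ e) : ℝ) * gg (l ^ e) ^ 4 / ((l ^ e : ℕ) : ℝ) ^ 4 ≤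
      48 * ((e : ℝ) + 1) / (l : ℝ) ^ (e - e / 2) := by
  have hB : (AG G (l ^ e) : ℝ) ≤ 3 * ((e : ℝ) + 1) * (l : ℝ) ^ (e / 2) * (l : ℝ) ^ (3 * e) := by
    exact_mod_cast AG_pow (G := G) hl he
  refine (loc_t hl (by omega) hB).trans (le_of_eq ?_)
  have hl0 : (l : ℝ) ≠ 0 := by exact_mod_cast hl.pos.ne'
  have e1 : (l : ℝ) ^ (4 * e) = (l : ℝ) ^ (e - e / 2) * ((l : ℝ) ^ (e / 2) * (l : ℝ) ^ (3 * e)) := by
    rw [← pow_add, ← pow_add]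
    congr 1
    omega
  rw [e1]
  have p1 : (l : ℝ) ^ (e - e / 2) ≠ 0 := pow_ne_zero _ hl0
  have p2 : (l : ℝ) ^ (e / 2) ≠ 0 := pow_ne_zero _ hl0
  have p3 : (l : ℝ) ^ (3 * e) ≠ 0 := pow_ne_zero _ hl0
  field_simp
  ring

private theorem loc_tail {l : ℕ} (hl : 2 ≤ l) (J : ℕ) :
    ∑ e ∈ Icc 3 (2 * (J + 1)), 48 * ((e : ℝ) + 1) / (l : ℝ) ^ (e - e / 2) ≤
      48 * (26 - 4 * (4 * ((J : ℝ) + 1) + 9) / 2 ^ (J + 1)) / (l : ℝ) ^ 2 := by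
  have hl2 : (2 : ℝ) ≤ l := by exact_mod_cast hl
  have hl0 : (0 : ℝ) < l := by linarith
  induction J with
  | zero =>
    have : Icc 3 (2 * (0 + 1)) = ∅ := by decide
    rw [this, Finset.sum_empty]
    norm_num
  | succ J ih =>
    have e1 : 2 * (J + 1 + 1) = (2 * (J + 1) + 1) + 1 := by ring
    rw [e1, Finset.sum_Icc_succ_top (by omega), Finset.sum_Icc_succ_top (by omega)]
    have e2 : (2 * (J + 1) + 1) - (2 * (J + 1) + 1) / 2 = J + 2 := by omega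
    have e3 : (2 * (J + 1) + 1 + 1) - (2 * (J + 1) + 1 + 1) / 2 = J + 2 := by omega
    rw [e2, e3]
    have hp : (0 : ℝ) < (l : ℝ) ^ 2 := by positivity
    have hJ : (2 : ℝ) ^ J * (l : ℝ) ^ 2 ≤ (l : ℝ) ^ (J + 2) := by
      rw [pow_add]
      apply mul_le_mul_of_nonneg_right _ hp.le
      exact pow_le_pow_left₀ (by norm_num) hl2 J
    have h2J : (0 : ℝ) < 2 ^ J := by positivity
    have k1 : 48 * (((2 * (J + 1) + 1 : ℕ) : ℝ) + 1) / (l : ℝ) ^ (J + 2) +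
        48 * (((2 * (J + 1) + 1 + 1 : ℕ) : ℝ) + 1) / (l : ℝ) ^ (J + 2) ≤
        48 * (4 * (J : ℝ) + 9) / (2 ^ J * (l : ℝ) ^ 2) := by
      rw [← add_div]
      have : 48 * (((2 * (J + 1) + 1 : ℕ) : ℝ) + 1) + 48 * (((2 * (J + 1) + 1 + 1 : ℕ) : ℝ) + 1) =
          48 * (4 * (J : ℝ) + 9) := by
        push_cast; ring
      rw [this]
      apply div_le_div_of_nonneg_left _ (by positivity) hJ
      positivity
    have k2 : 48 * (26 - 4 * (4 * ((J : ℝ) + 1) + 9) / 2 ^ (J + 1)) / (l : ℝ) ^ 2 +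
        48 * (4 * (J : ℝ) + 9) / (2 ^ J * (l : ℝ) ^ 2) =
        48 * (26 - 4 * (4 * (((J + 1 : ℕ) : ℝ) + 1) + 9) / 2 ^ (J + 1 + 1)) / (l : ℝ) ^ 2 := by
      push_cast
      rw [pow_succ, pow_succ]
      field_simp
      ring
    linarith [ih, k1, k2]

private theorem loc_sum {G l : ℕ} (hl : l.Prime) (E : ℕ) :
    ∑ e ∈ Icc 1 E, (AG G (l ^ e) : ℝ) * gg (l ^ e) ^ 4 / ((l ^ e : ℕ) : ℝ) ^ 4 ≤
      (AG G (l ^ 1) : ℝ) * gg (l ^ 1) ^ 4 / ((l ^ 1 : ℕ) : ℝ) ^ 4 +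
      (AG G (l ^ 2) : ℝ) * gg (l ^ 2) ^ 4 / ((l ^ 2 : ℕ) : ℝ) ^ 4 + 1248 / (l : ℝ) ^ 2 := by
  have hl2 : (2 : ℝ) ≤ l := by exact_mod_cast hl.two_le
  have hl0 : (0 : ℝ) < l := by linarith
  have h1 : ∑ e ∈ Icc 1 E, (AG G (l ^ e) : ℝ) * gg (l ^ e) ^ 4 / ((l ^ e : ℕ) : ℝ) ^ 4 ≤
      ∑ e ∈ Icc 1 (2 * (E + 1)), (AG G (l ^ e) : ℝ) * gg (l ^ e) ^ 4 / ((l ^ e : ℕ) : ℝ) ^ 4 := by
    apply Finset.sum_le_sum_of_subset_of_nonneg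
    · apply Finset.Icc_subset_Icc_right; omega
    · intro i _ _
      positivity
  have h2 : Icc 1 (2 * (E + 1)) = insert 1 (insert 2 (Icc 3 (2 * (E + 1)))) := by
    ext x
    simp only [mem_Icc, mem_insert]
    omega
  rw [h2, Finset.sum_insert (by simp), Finset.sum_insert (by simp)] at h1
  have h3 : ∑ e ∈ Icc 3 (2 * (E + 1)),
      (AG G (l ^ e) : ℝ) * gg (l ^ e) ^ 4 / ((l ^ e : ℕ) : ℝ) ^ 4 ≤
      ∑ e ∈ Icc 3 (2 * (E + 1)), 48 * ((e : ℝ) + 1) / (l : ℝ) ^ (e - e / 2) := by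
    apply Finset.sum_le_sum
    intro e he
    rw [mem_Icc] at he
    exact loc_te hl (by omega)
  have h4 := loc_tail (l := l) hl.two_le E
  have h5 : 48 * (26 - 4 * (4 * ((E : ℝ) + 1) + 9) / 2 ^ (E + 1)) / (l : ℝ) ^ 2 ≤
      1248 / (l : ℝ) ^ 2 := by
    apply div_le_div_of_nonneg_right _ (by positivity)
    have : 0 ≤ 4 * (4 * ((E : ℝ) + 1) + 9) / 2 ^ (E + 1) := by positivity
    linarith
  linarith

theorem loc_good {G l : ℕ} (hl : l.Prime) (h : ¬ l ∣ 6 * G) (E : ℕ) :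
    ∑ e ∈ Icc 1 E, (AG G (l ^ e) : ℝ) * gg (l ^ e) ^ 4 / ((l ^ e : ℕ) : ℝ) ^ 4 ≤
      2000 / (l : ℝ) ^ 2 := by
  have hl2 : (2 : ℝ) ≤ l := by exact_mod_cast hl.two_le
  have hl0 : (0 : ℝ) < l := by linarith
  have hB1 : (AG G (l ^ 1) : ℝ) ≤ 18 * (l : ℝ) ^ 2 := by
    rw [pow_one]; exact_mod_cast AG_one hl h
  have hB2 : (AG G (l ^ 2) : ℝ) ≤ 6 * (l : ℝ) ^ 6 := by
    exact_mod_cast AG_two hl h
  have t1 := loc_t hl (le_refl 1) hB1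
  have t2 := loc_t hl (by norm_num : 1 ≤ 2) hB2
  have s := loc_sum (G := G) hl E
  have u1 : 16 * (18 * (l : ℝ) ^ 2) / (l : ℝ) ^ (4 * 1) = 288 / (l : ℝ) ^ 2 := by
    field_simp; norm_num; ring
  have u2 : 16 * (6 * (l : ℝ) ^ 6) / (l : ℝ) ^ (4 * 2) = 96 / (l : ℝ) ^ 2 := by
    field_simp; norm_num; ring
  rw [u1] at t1
  rw [u2] at t2
  have u3 : 288 / (l : ℝ) ^ 2 + 96 / (l : ℝ) ^ 2 + 1248 / (l : ℝ) ^ 2 ≤ 2000 / (l : ℝ) ^ 2 := by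
    rw [← add_div, ← add_div]
    apply div_le_div_of_nonneg_right _ (by positivity)
    norm_num
  linarith

theorem loc_bad {G l : ℕ} (hl : l.Prime) (E : ℕ) :
    ∑ e ∈ Icc 1 E, (AG G (l ^ e) : ℝ) * gg (l ^ e) ^ 4 / ((l ^ e : ℕ) : ℝ) ^ 4 ≤
      2000 / (l : ℝ) := by
  have hl2 : (2 : ℝ) ≤ l := by exact_mod_cast hl.two_le
  have hl0 : (0 : ℝ) < l := by linarith
  have hB1 : (AG G (l ^ 1) : ℝ) ≤ 18 * (l : ℝ) ^ 2 + 6 * (l : ℝ) ^ 3 := by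
    rw [pow_one]; exact_mod_cast AG_one' (G := G) hl
  have t1 := loc_t hl (le_refl 1) hB1
  have t2 := loc_te (G := G) hl (le_refl 2)
  have s := loc_sum (G := G) hl E
  have u1 : 16 * (18 * (l : ℝ) ^ 2 + 6 * (l : ℝ) ^ 3) / (l : ℝ) ^ (4 * 1) ≤ 240 / (l : ℝ) := by
    rw [div_le_div_iff₀ (by positivity) hl0]
    have : (l : ℝ) ^ (4 * 1) = (l : ℝ) ^ 3 * l := by ring
    rw [this]
    have h3 : (0 : ℝ) < (l : ℝ) ^ 3 := by positivity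
    nlinarith [mul_nonneg h3.le (by linarith : (0 : ℝ) ≤ l - 2)]
  have u2 : 48 * (((2 : ℕ) : ℝ) + 1) / (l : ℝ) ^ (2 - 2 / 2) = 144 / (l : ℝ) := by
    norm_num
  have u3 : 1248 / (l : ℝ) ^ 2 ≤ 624 / (l : ℝ) := by
    rw [div_le_div_iff₀ (by positivity) hl0]
    nlinarith
  rw [u2] at t2
  have u4 : 240 / (l : ℝ) + 144 / (l : ℝ) + 624 / (l : ℝ) ≤ 2000 / (l : ℝ) := by
    rw [← add_div, ← add_div]
    apply div_le_div_of_nonneg_right _ (by positivity)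
    norm_num
  linarith

end Pool.Agent.PPW
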