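import Pool.Agent.PPW.Ssum
import Pool.Agent.PPW.DefsJ

/-!
# The sum of the densities over the multiples of `d` (difficulty 3)

Let `f m = AG G m * gg m ^ 4 / m ^ 4` and `f' m = f m * ∏ l ∈ m.primeFactors with l ∣ d, (l / 2000)`
(multiplicative, `f' 1 = 1`).  `∑ e, f' (l ^ e) ≤ 1` for `l ∣ d` (`loc_bad`), and as in `ssum` for the
others.  By `eul` (`b' l = 1` for `l ∣ d`, `b' l = b l` otherwise) and `prd`:
`∑ m ∈ Icc 1 N, f' m ≤ ∏ l ≤ N, (1 + b' l) ≤ 2 ^ ω(d) ∏ l ≤ N, (1 + b l) ≤ 2 ^ ω(d) K cG G`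
(`1 + 1 ≤ 2 (1 + b l)`).  For `d ∣ m`: `f' m = f m * ∏ l ∣ d, (l / 2000)`.
-/

set_option autoImplicit false

namespace Pool.Agent.PPW

open Finset Pool.Agent.PPS

private noncomputable def ssd_u (d m : ℕ) : ℝ :=
  ∏ l ∈ m.primeFactors.filter (fun l => l ∣ d), ((l : ℝ) / 2000)

private theorem ssd_u_nonneg (d m : ℕ) : 0 ≤ ssd_u d m :=
  Finset.prod_nonneg fun l _ => by positivity

private theorem ssd_u_one (d : ℕ) : ssd_u d 1 = 1 := by
  unfold ssd_u
  simp

private theorem ssd_u_mul (d : ℕ) {m n : ℕ} (h : Nat.Coprime m n) :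
    ssd_u d (m * n) = ssd_u d m * ssd_u d n := by
  unfold ssd_u
  rw [h.primeFactors_mul, Finset.filter_union, Finset.prod_union]
  exact Finset.disjoint_filter_filter h.disjoint_primeFactors

private theorem ssd_u_pow_dvd {d l e : ℕ} (hl : l.Prime) (he : e ≠ 0) (h : l ∣ d) :
    ssd_u d (l ^ e) = (l : ℝ) / 2000 := by
  unfold ssd_u
  rw [Nat.primeFactors_prime_pow he hl, Finset.filter_singleton, if_pos h, Finset.prod_singleton]

private theorem ssd_u_pow_not {d l e : ℕ} (hl : l.Prime) (he : e ≠ 0) (h : ¬ l ∣ d) :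
    ssd_u d (l ^ e) = 1 := by
  unfold ssd_u
  rw [Nat.primeFactors_prime_pow he hl, Finset.filter_singleton, if_neg h, Finset.prod_empty]

private theorem ssd_u_dvd {d m : ℕ} (hm : m ≠ 0) (hd : d ∣ m) (hd0 : d ≠ 0) :
    ssd_u d m = ∏ l ∈ d.primeFactors, ((l : ℝ) / 2000) := by
  unfold ssd_u
  congr 1
  ext l
  rw [Finset.mem_filter, Nat.mem_primeFactors, Nat.mem_primeFactors]
  constructor
  · rintro ⟨⟨h1, _, _⟩, h2⟩
    exact ⟨h1, h2, hd0⟩
  · rintro ⟨h1, h2, _⟩
    exact ⟨⟨h1, h2.trans hd, hm⟩, h2⟩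

theorem ssumD : ∃ K : ℝ, 0 < K ∧ ∀ G : ℕ, 1 ≤ G → ∀ d : ℕ, Squarefree d → ∀ N : ℕ,
    ∑ m ∈ (Icc 1 N).filter (fun m => d ∣ m), (AG G m : ℝ) * gg m ^ 4 / (m : ℝ) ^ 4 ≤
      K * cG G * qd d := by
  obtain ⟨K, hK, hp⟩ := prd
  refine ⟨K, hK, ?_⟩
  intro G hG d hd N
  have hd0 : d ≠ 0 := hd.ne_zero
  set f : ℕ → ℝ := fun m => (AG G m : ℝ) * gg m ^ 4 / (m : ℝ) ^ 4 with hf
  set b : ℕ → ℝ := fun l => if l ∣ 6 * G then 2000 / (l : ℝ) else 2000 / (l : ℝ) ^ 2 with hb
  have hf0 : ∀ n, 0 ≤ f n := by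
    intro n
    rw [hf]
    positivity
  have hb0 : ∀ l, 0 ≤ b l := by
    intro l
    rw [hb]
    simp only []
    split_ifs <;> positivity
  have hloc : ∀ l : ℕ, l.Prime → ∀ E : ℕ, ∑ e ∈ Icc 1 E, f (l ^ e) ≤ b l := by
    intro l hl E
    by_cases h : l ∣ 6 * G
    · simp only [hf, hb, if_pos h]
      exact loc_bad hl E
    · simp only [hf, hb, if_neg h]
      exact loc_good hl h E
  -- the modified function
  have h1 := eul (fun m => f m * ssd_u d m) (fun l => if l ∣ d then 1 else b l)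
    (fun n => mul_nonneg (hf0 n) (ssd_u_nonneg d n))
    (by
      simp only [hf, AG_unit, gg_unit, ssd_u_one]
      norm_num)
    (by
      intro m n hm hn hmn
      have hm' : (m : ℝ) ≠ 0 := by exact_mod_cast hm
      have hn' : (n : ℝ) ≠ 0 := by exact_mod_cast hn
      simp only [hf, AG_mul G hm hn hmn, gg_mul_cop hmn, ssd_u_mul d hmn]
      push_cast
      field_simp)
    (by
      intro l hl E
      by_cases h : l ∣ d
      · simp only [if_pos h]
        have h2 : ∑ e ∈ Icc 1 E, f (l ^ e) * ssd_u d (l ^ e)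
            = (∑ e ∈ Icc 1 E, f (l ^ e)) * ((l : ℝ) / 2000) := by
          rw [Finset.sum_mul]
          refine Finset.sum_congr rfl fun e he => ?_
          rw [Finset.mem_Icc] at he
          rw [ssd_u_pow_dvd hl (by omega) h]
        rw [h2]
        have h3 : ∑ e ∈ Icc 1 E, f (l ^ e) ≤ 2000 / (l : ℝ) := loc_bad hl E
        have hl0 : (0 : ℝ) < l := by exact_mod_cast hl.pos
        calc _ ≤ (2000 / (l : ℝ)) * ((l : ℝ) / 2000) :=
              mul_le_mul_of_nonneg_right h3 (by positivity)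
          _ = 1 := by field_simp
      · simp only [if_neg h]
        refine le_trans (le_of_eq ?_) (hloc l hl E)
        refine Finset.sum_congr rfl fun e he => ?_
        rw [Finset.mem_Icc] at he
        rw [ssd_u_pow_not hl (by omega) h, mul_one]) N
  have h2 : ∏ l ∈ (Icc 1 N).filter Nat.Prime, (1 + (if l ∣ d then 1 else b l))
      ≤ (∏ l ∈ d.primeFactors, (2 : ℝ)) * (K * cG G) := by
    calc _ ≤ ∏ l ∈ (Icc 1 N).filter Nat.Prime, ((if l ∣ d then (2 : ℝ) else 1) * (1 + b l)) := by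
          refine Finset.prod_le_prod (fun l _ => ?_) (fun l _ => ?_)
          · have := hb0 l
            split_ifs <;> linarith
          · have := hb0 l
            split_ifs <;> linarith
      _ = (∏ l ∈ (Icc 1 N).filter Nat.Prime, (if l ∣ d then (2 : ℝ) else 1)) *
          ∏ l ∈ (Icc 1 N).filter Nat.Prime, (1 + b l) := Finset.prod_mul_distrib
      _ ≤ _ := by
          refine mul_le_mul ?_ (hp G hG N) (Finset.prod_nonneg fun l _ => by
            have := hb0 l
            linarith) (by positivity)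
          rw [← Finset.prod_filter]
          refine Finset.prod_le_prod_of_subset_of_one_le ?_ (fun l _ => by norm_num)
            (fun l _ _ => by norm_num)
          intro l hl
          rw [Finset.mem_filter, Finset.mem_filter] at hl
          exact Nat.mem_primeFactors.mpr ⟨hl.1.2, hl.2, hd0⟩
  set D : ℝ := ∏ l ∈ d.primeFactors, ((l : ℝ) / 2000) with hD
  have hpos : ∀ l ∈ d.primeFactors, (0 : ℝ) < l := fun l hl => by
    exact_mod_cast (Nat.prime_of_mem_primeFactors hl).pos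
  have hDpos : 0 < D := by
    rw [hD]
    exact Finset.prod_pos fun l hl => by
      have := hpos l hl
      positivity
  have h3 : (∑ m ∈ (Icc 1 N).filter (fun m => d ∣ m), f m) * D
      ≤ (∏ l ∈ d.primeFactors, (2 : ℝ)) * (K * cG G) := by
    refine le_trans ?_ (h1.trans h2)
    rw [Finset.sum_mul]
    calc _ = ∑ m ∈ (Icc 1 N).filter (fun m => d ∣ m), f m * ssd_u d m := by
          refine Finset.sum_congr rfl fun m hm => ?_
          rw [Finset.mem_filter, Finset.mem_Icc] at hm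
          rw [ssd_u_dvd (by omega) hm.2 hd0]
      _ ≤ _ := Finset.sum_le_sum_of_subset_of_nonneg (Finset.filter_subset _ _)
          (fun m _ _ => mul_nonneg (hf0 m) (ssd_u_nonneg d m))
  have h4 : qd d * D = ∏ l ∈ d.primeFactors, (2 : ℝ) := by
    unfold qd
    rw [hD, ← Finset.prod_mul_distrib]
    refine Finset.prod_congr rfl fun l hl => ?_
    have := hpos l hl
    field_simp
    norm_num
  have h5 : (∏ l ∈ d.primeFactors, (2 : ℝ)) * (K * cG G) = (K * cG G * qd d) * D := by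
    rw [← h4]
    ring
  rw [h5] at h3
  exact le_of_mul_le_mul_right h3 hDpos

end Pool.Agent.PPW
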