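import Pool.Agent.PPW.FacW
import Pool.Agent.PPW.SsD
import Pool.Agent.PPW.Bxs

/-!
# The main part of the average, with a divisor condition (difficulty 3; contains `mn`, `d = 1`)

The proof is that of `mn` (module Mn), with one addition: if the squarefree `d` divides `G` and
`d ∣ Δ ≠ 0` then `d ∣ m* = mst G p |Δ|`: a prime `l ∣ d` divides `n = |Δ|` and `6 G`, so
`be = 1` or `be = v_l(n) ≥ 1` (`mst_factorization`).  So only the `m` with `d ∣ m` are needed: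
`∑ W ≤ ∑ m ∈ (Icc 1 M).filter (d ∣ m), ∑ x ∈ Bx, sg G m x * ff m x`, and `ssumD` in place of `ssum`.
-/

set_option autoImplicit false

namespace Pool.Agent.PPW

open Finset Pool.Agent.PPS

/-- the class of a point modulo `m` -/
private def cl (m : ℕ) (x : ℤ × ℤ × ℤ × ℤ) : ℕ × ℕ × ℕ × ℕ :=
  ((x.1 % (m : ℤ)).toNat, (x.2.1 % (m : ℤ)).toNat, (x.2.2.1 % (m : ℤ)).toNat,
    (x.2.2.2 % (m : ℤ)).toNat)

private theorem em_lt {m : ℕ} (hm : 1 ≤ m) (z : ℤ) : (z % (m : ℤ)).toNat < m := by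
  have h0 : 0 ≤ z % (m : ℤ) := Int.emod_nonneg _ (by omega)
  have h1 : z % (m : ℤ) < m := Int.emod_lt_of_pos _ (by omega)
  omega

private theorem em_dvd {m : ℕ} (hm : 1 ≤ m) (z : ℤ) :
    (m : ℤ) ∣ z - ((z % (m : ℤ)).toNat : ℤ) := by
  have h0 : 0 ≤ z % (m : ℤ) := Int.emod_nonneg _ (by omega)
  rw [Int.toNat_of_nonneg h0]
  exact Int.dvd_self_sub_emod

private theorem cl_mem {m : ℕ} (hm : 1 ≤ m) (x : ℤ × ℤ × ℤ × ℤ) :
    cl m x ∈ range m ×ˢ range m ×ˢ range m ×ˢ range m := by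
  simp only [cl, mem_product, mem_range]
  exact ⟨em_lt hm _, em_lt hm _, em_lt hm _, em_lt hm _⟩

private theorem one_m {G m : ℕ} (hm : 1 ≤ m) (S : Finset (ℤ × ℤ × ℤ × ℤ)) {B : ℝ}
    (hB : ∀ r0 r1 r2 r3 : ℤ,
      ∑ x ∈ S.filter (fun x => (m : ℤ) ∣ x.1 - r0 ∧ (m : ℤ) ∣ x.2.1 - r1 ∧
        (m : ℤ) ∣ x.2.2.1 - r2 ∧ (m : ℤ) ∣ x.2.2.2 - r3),
      (ff m x.1 x.2.1 x.2.2.1 x.2.2.2 : ℝ) ≤ B) :
    ∑ x ∈ S, (sg G m x.1 x.2.1 x.2.2.1 x.2.2.2 : ℝ) * (ff m x.1 x.2.1 x.2.2.1 x.2.2.2 : ℝ) ≤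
      (AG G m : ℝ) * B := by
  rw [← Finset.sum_fiberwise_of_maps_to
    (t := range m ×ˢ range m ×ˢ range m ×ˢ range m) (g := cl m) (fun x _ => cl_mem hm x)]
  have hAG : (AG G m : ℝ) = ∑ q ∈ range m ×ˢ range m ×ˢ range m ×ˢ range m,
      (sg G m q.1 q.2.1 q.2.2.1 q.2.2.2 : ℝ) := by
    unfold AG
    push_cast
    rw [Finset.sum_product]
    refine Finset.sum_congr rfl (fun p _ => ?_)
    rw [Finset.sum_product]
    refine Finset.sum_congr rfl (fun a _ => ?_)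
    rw [Finset.sum_product]
  rw [hAG, Finset.sum_mul]
  refine Finset.sum_le_sum (fun q hq => ?_)
  have h1 : ∑ x ∈ S.filter (fun x => cl m x = q),
      (sg G m x.1 x.2.1 x.2.2.1 x.2.2.2 : ℝ) * (ff m x.1 x.2.1 x.2.2.1 x.2.2.2 : ℝ) =
      (sg G m q.1 q.2.1 q.2.2.1 q.2.2.2 : ℝ) * ∑ x ∈ S.filter (fun x => cl m x = q),
        (ff m x.1 x.2.1 x.2.2.1 x.2.2.2 : ℝ) := by
    rw [Finset.mul_sum]
    refine Finset.sum_congr rfl (fun x hx => ?_)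
    have hx2 := (Finset.mem_filter.1 hx).2
    have hs : sg G m x.1 x.2.1 x.2.2.1 x.2.2.2 = sg G m q.1 q.2.1 q.2.2.1 q.2.2.2 := by
      rw [← hx2]
      exact sg_per (em_dvd hm _) (em_dvd hm _) (em_dvd hm _) (em_dvd hm _)
    rw [hs]
  rw [h1]
  refine mul_le_mul_of_nonneg_left ?_ (Nat.cast_nonneg _)
  refine le_trans ?_ (hB q.1 q.2.1 q.2.2.1 q.2.2.2)
  refine Finset.sum_le_sum_of_subset_of_nonneg ?_ (fun _ _ _ => Nat.cast_nonneg _)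
  intro x hx
  rw [Finset.mem_filter] at hx ⊢
  refine ⟨hx.1, ?_⟩
  rw [← hx.2]
  exact ⟨em_dvd hm _, em_dvd hm _, em_dvd hm _, em_dvd hm _⟩

/-- a sum over a part against a majorant over everything -/
private theorem sum_filter_le {α : Type} (S : Finset α) (pr : α → Prop) [DecidablePred pr]
    (f g : α → ℝ) (hg : ∀ x ∈ S, 0 ≤ g x) (hfg : ∀ x ∈ S, pr x → f x ≤ g x) :
    ∑ x ∈ S.filter pr, f x ≤ ∑ x ∈ S, g x := by
  have h1 : ∑ x ∈ S.filter pr, f x ≤ ∑ x ∈ S.filter pr, g x :=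
    Finset.sum_le_sum (fun x hx => hfg x (Finset.mem_filter.1 hx).1 (Finset.mem_filter.1 hx).2)
  have h2 : ∑ x ∈ S.filter pr, g x ≤ ∑ x ∈ S, g x :=
    Finset.sum_le_sum_of_subset_of_nonneg (Finset.filter_subset _ _) (fun x hx _ => hg x hx)
  exact h1.trans h2

private theorem dvd_mst {G d : ℕ} (hd : Squarefree d) (hG : d ∣ G) {p : ℤ} {n : ℕ} (hn : n ≠ 0)
    (hdn : d ∣ n) : d ∣ mst G p n := by
  have hd0 : d ≠ 0 := hd.ne_zero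
  rw [← Nat.factorization_le_iff_dvd hd0 (mst_pos G p n).ne']
  intro l
  by_cases hl : l.Prime
  · by_cases hld : l ∣ d
    · have h1 : d.factorization l ≤ 1 := hd.natFactorization_le_one l
      refine h1.trans ?_
      have hln : l ∣ n := hld.trans hdn
      rw [mst_factorization hl, if_pos ⟨hln, hn⟩]
      unfold be
      split_ifs with h2 h3
      · exact le_rfl
      · exact (hl.dvd_iff_one_le_factorization hn).1 hln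
      · exact absurd (Or.inl (Dvd.dvd.mul_left (hld.trans hG) 6)) h3
    · rw [Nat.factorization_eq_zero_of_not_dvd hld]
      exact Nat.zero_le _
  · rw [Nat.factorization_eq_zero_of_not_prime _ hl]
    exact Nat.zero_le _

private theorem one_x {G M d : ℕ} (hsq : Squarefree d) (hG : d ∣ G) {x : ℤ × ℤ × ℤ × ℤ}
    (hd : dx x ≠ 0) (hM : mst G x.1 (dx x).natAbs ≤ M) (hdx : (d : ℤ) ∣ dx x) :
    (Wt G x.1 x.2.1 x.2.2.1 x.2.2.2 : ℝ) ≤ ∑ m ∈ (Icc 1 M).filter (fun m => d ∣ m),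
      (sg G m x.1 x.2.1 x.2.2.1 x.2.2.2 : ℝ) * (ff m x.1 x.2.1 x.2.2.1 x.2.2.2 : ℝ) := by
  obtain ⟨p, a, b, c⟩ := x
  have hd' : del p a b c ≠ 0 := hd
  have hM' : mst G p (del p a b c).natAbs ≤ M := hM
  have hdx' : (d : ℤ) ∣ del p a b c := hdx
  have hdv : d ∣ mst G p (del p a b c).natAbs :=
    dvd_mst hsq hG (Int.natAbs_ne_zero.2 hd') (Int.natCast_dvd.1 hdx')
  have e := facw (G := G) hd'
  generalize hm : mst G p (del p a b c).natAbs = m0 at hM' e hdv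
  have hmem : m0 ∈ (Icc 1 M).filter (fun m => d ∣ m) := by
    rw [Finset.mem_filter, Finset.mem_Icc]
    refine ⟨⟨?_, hM'⟩, hdv⟩
    rw [← hm]
    exact mst_pos _ _ _
  have e' : (Wt G p a b c : ℝ) = (sg G m0 p a b c : ℝ) * (ff m0 p a b c : ℝ) := by
    rw [e]
    exact Nat.cast_mul _ _
  show (Wt G p a b c : ℝ) ≤ ∑ m ∈ (Icc 1 M).filter (fun m => d ∣ m),
    (sg G m p a b c : ℝ) * (ff m p a b c : ℝ)
  rw [e']
  exact Finset.single_le_sum (f := fun m => (sg G m p a b c : ℝ) * (ff m p a b c : ℝ))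
    (fun _ _ => mul_nonneg (Nat.cast_nonneg _) (Nat.cast_nonneg _)) hmem

theorem mnD (hcore : CoreS) : ∃ c C T0 : ℝ, 0 < c ∧ 0 < C ∧ 2 ≤ T0 ∧ ∀ T : ℝ, T0 ≤ T →
    ∀ G : ℕ, 1 ≤ G → ∀ d : ℕ, Squarefree d → d ∣ G →
    ∀ P Y1 Y2 Y3 Z : ℕ, T ^ (3 / 4 : ℝ) ≤ P → (P : ℝ) ≤ T → T ^ (3 / 4 : ℝ) ≤ Y1 → (Y1 : ℝ) ≤ T →
    T ^ (3 / 4 : ℝ) ≤ Y2 → (Y2 : ℝ) ≤ T → T ^ (3 / 4 : ℝ) ≤ Y3 → (Y3 : ℝ) ≤ T →
    T ^ (11 / 4 : ℝ) ≤ Z → ∀ M : ℕ, (M : ℝ) ≤ T ^ c →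
    ∑ x ∈ (Bx P Y1 Y2 Y3 Z).filter
        (fun x => mst G x.1 (dx x).natAbs ≤ M ∧ (d : ℤ) ∣ dx x),
      (Wt G x.1 x.2.1 x.2.2.1 x.2.2.2 : ℝ) ≤
      C * cG G * qd d * ((P : ℝ) * min (Z : ℝ) (Y1 * Y2 * Y3)) := by
  obtain ⟨c, C, T0, hc, hC, hT0, H⟩ := bxs hcore
  obtain ⟨K, hK, HK⟩ := ssumD
  refine ⟨c, C * K, T0, hc, by positivity, hT0, ?_⟩
  intro T hT G hG d hsq hdG P Y1 Y2 Y3 Z hP1 hP2 hY1 hY1' hY2 hY2' hY3 hY3' hZ M hM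
  have hT2 : (0 : ℝ) < T := by linarith
  have hZ0 : (0 : ℝ) < Z := lt_of_lt_of_le (Real.rpow_pos_of_pos hT2 _) hZ
  have hZn : 0 < Z := by exact_mod_cast hZ0
  set Q : ℝ := (P : ℝ) * min (Z : ℝ) (Y1 * Y2 * Y3) with hQ
  have hQ0 : 0 ≤ Q := by positivity
  -- step 1
  have h1 : ∑ x ∈ (Bx P Y1 Y2 Y3 Z).filter
        (fun x => mst G x.1 (dx x).natAbs ≤ M ∧ (d : ℤ) ∣ dx x),
      (Wt G x.1 x.2.1 x.2.2.1 x.2.2.2 : ℝ) ≤ ∑ x ∈ Bx P Y1 Y2 Y3 Z,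
      ∑ m ∈ (Icc 1 M).filter (fun m => d ∣ m),
      (sg G m x.1 x.2.1 x.2.2.1 x.2.2.2 : ℝ) * (ff m x.1 x.2.1 x.2.2.1 x.2.2.2 : ℝ) := by
    refine sum_filter_le _ _ _ _ (fun x _ => ?_) (fun x hx hxM => ?_)
    · exact Finset.sum_nonneg (fun _ _ => mul_nonneg (Nat.cast_nonneg _) (Nat.cast_nonneg _))
    · refine one_x hsq hdG (fun h0 => ?_) hxM.1 hxM.2
      have := (mem_Bx.1 hx).2.2.2.2.1
      rw [h0, abs_zero] at this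
      omega
  refine h1.trans ?_
  rw [Finset.sum_comm]
  -- step 2
  have h2 : ∀ m ∈ (Icc 1 M).filter (fun m => d ∣ m), ∑ x ∈ Bx P Y1 Y2 Y3 Z,
      (sg G m x.1 x.2.1 x.2.2.1 x.2.2.2 : ℝ) * (ff m x.1 x.2.1 x.2.2.1 x.2.2.2 : ℝ) ≤
      C * Q * ((AG G m : ℝ) * gg m ^ 4 / (m : ℝ) ^ 4) := by
    intro m hm
    have hm := (Finset.mem_filter.1 hm).1
    rw [Finset.mem_Icc] at hm
    have hmT : (m : ℝ) ≤ T ^ c := le_trans (by exact_mod_cast hm.2) hM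
    have h := one_m (G := G) hm.1 (Bx P Y1 Y2 Y3 Z)
      (B := C * gg m ^ 4 * (Q / (m : ℝ) ^ 4)) (fun r0 r1 r2 r3 =>
        H T hT P Y1 Y2 Y3 Z hP1 hP2 hY1 hY1' hY2 hY2' hY3 hY3' hZ m hm.1 hmT r0 r1 r2 r3)
    refine h.trans (le_of_eq ?_)
    ring
  refine (Finset.sum_le_sum h2).trans ?_
  rw [← Finset.mul_sum]
  refine (mul_le_mul_of_nonneg_left (HK G hG d hsq M) (by positivity)).trans (le_of_eq ?_)
  ring

end Pool.Agent.PPW
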