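import Pool.Agent.PPW.Defs

/-!
# The majorant is periodic (difficulty 2)

`sl G l e` depends only on `(p, a, b, c)` modulo `l ^ e` for `e ≥ 1`: `l ∣ l ^ e`, so divisibility of
the variables by `l` is the same; `Δ` modulo `l ^ e` is the same.  (`e = m.factorization l ≥ 1` and
`l ^ e ∣ m` for `l ∈ m.primeFactors`.)
-/

set_option autoImplicit false

namespace Pool.Agent.PPW

open Finset Pool.Agent.PPS

theorem sl_per {G l e : ℕ} (he : 1 ≤ e) {p a b c p' a' b' c' : ℤ}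
    (hp : ((l ^ e : ℕ) : ℤ) ∣ p - p') (ha : ((l ^ e : ℕ) : ℤ) ∣ a - a')
    (hb : ((l ^ e : ℕ) : ℤ) ∣ b - b') (hc : ((l ^ e : ℕ) : ℤ) ∣ c - c') :
    sl G l e p a b c = sl G l e p' a' b' c' := by
  have hl : (l : ℤ) ∣ ((l ^ e : ℕ) : ℤ) := by
    push_cast
    exact dvd_pow_self _ (by omega)
  have ip : (l : ℤ) ∣ p ↔ (l : ℤ) ∣ p' := dvd_iff_dvd_of_dvd_sub (hl.trans hp)
  have ia : (l : ℤ) ∣ a ↔ (l : ℤ) ∣ a' := dvd_iff_dvd_of_dvd_sub (hl.trans ha)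
  have ib : (l : ℤ) ∣ b ↔ (l : ℤ) ∣ b' := dvd_iff_dvd_of_dvd_sub (hl.trans hb)
  have ic : (l : ℤ) ∣ c ↔ (l : ℤ) ∣ c' := dvd_iff_dvd_of_dvd_sub (hl.trans hc)
  have hnu : nu l a b c = nu l a' b' c' := by
    unfold nu
    simp only [ia, ib, ic]
  have hd : ((l ^ e : ℕ) : ℤ) ∣ del p a b c - del p' a' b' c' := by
    obtain ⟨kp, hkp⟩ := hp
    obtain ⟨ka, hka⟩ := ha
    obtain ⟨kb, hkb⟩ := hb
    obtain ⟨kc, hkc⟩ := hc
    have e1 : p = p' + ((l ^ e : ℕ) : ℤ) * kp := by linarith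
    have e2 : a = a' + ((l ^ e : ℕ) : ℤ) * ka := by linarith
    have e3 : b = b' + ((l ^ e : ℕ) : ℤ) * kb := by linarith
    have e4 : c = c' + ((l ^ e : ℕ) : ℤ) * kc := by linarith
    generalize ((l ^ e : ℕ) : ℤ) = N at *
    subst e1 e2 e3 e4
    unfold del
    refine ⟨ka * (b' + N * kb) * (c' + N * kc) + a' * kb * (c' + N * kc) + a' * b' * kc
      - kp * (3 * p' ^ 2 + 3 * p' * (N * kp) + (N * kp) ^ 2), ?_⟩
    ring
  have id' : ((l ^ e : ℕ) : ℤ) ∣ del p a b c ↔ ((l ^ e : ℕ) : ℤ) ∣ del p' a' b' c' :=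
    dvd_iff_dvd_of_dvd_sub hd
  unfold sl
  simp only [ip, hnu, id']

theorem sg_per {G m : ℕ} {p a b c p' a' b' c' : ℤ}
    (hp : (m : ℤ) ∣ p - p') (ha : (m : ℤ) ∣ a - a') (hb : (m : ℤ) ∣ b - b') (hc : (m : ℤ) ∣ c - c') :
    sg G m p a b c = sg G m p' a' b' c' := by
  unfold sg
  refine Finset.prod_congr rfl fun l hl => ?_
  have hlp : l.Prime := Nat.prime_of_mem_primeFactors hl
  have hlm : l ∣ m := Nat.dvd_of_mem_primeFactors hl
  have hm0 : m ≠ 0 := fun h => by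
    rw [h] at hl
    simp at hl
  have he : 1 ≤ m.factorization l := hlp.factorization_pos_of_dvd hm0 hlm
  have hd : ((l ^ m.factorization l : ℕ) : ℤ) ∣ (m : ℤ) :=
    Int.natCast_dvd_natCast.mpr (Nat.ordProj_dvd m l)
  exact sl_per he (hd.trans hp) (hd.trans ha) (hd.trans hb) (hd.trans hc)

end Pool.Agent.PPW
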