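import Pool.Agent.PPW.Defs

/-!
# Splitting `H` (difficulty 3)

Let `n ≠ 0`, and for the primes `l ∣ n`, `k = v_l(n)`:
`r1 = ∏ l` over `l ∣ p, k = 1`; `r2 = ∏ l` over `l ∣ p, k ≥ 2`; `s = ∏ l ^ k` over the `l` not dividing
`p` with `l ∣ 6 G ∨ 2 ≤ k`.  Then `r1 r2 ∣ p` (product of different primes), `r1 r2 ^ 2 s ∣ n`,
and `√HH = ∏ √l ^ ex = √r1 * √r2 ^ 3 * phi G s`: the primes of `s` are the `l` in its definition with
exponent `k` (`≥ 1`), `ph G l k = √l ^ ex` (for `k = 2`: `√l ^ 2 = l`), and for the `l` not in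
`r1, r2, s` (`l` not dividing `6 G p`, `k = 1`): `ex = 0`.
`r1, r2 ≤ |p|` and `s ≤ |n|`, all terms of the sum are nonnegative: `single_le_sum` three times.
-/

set_option autoImplicit false

namespace Pool.Agent.PPW

open Finset Pool.Agent.PPS

private theorem ph_nonneg (G l k : ℕ) : 0 ≤ ph G l k := by
  unfold ph
  split_ifs <;> positivity

theorem phi_nonneg (G s : ℕ) : 0 ≤ phi G s := by
  unfold phi
  exact Finset.prod_nonneg (fun _ _ => ph_nonneg _ _ _)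

private theorem fac_prod {A : Finset ℕ} (hA : ∀ l ∈ A, l.Prime) (e : ℕ → ℕ)
    {l : ℕ} :
    (∏ q ∈ A, q ^ e q).factorization l = if l ∈ A then e l else 0 := by
  classical
  rw [Nat.factorization_prod (fun q hq => pow_ne_zero _ (hA q hq).ne_zero)]
  rw [Finsupp.finsetSum_apply]
  have h : ∀ q ∈ A, (Nat.factorization (q ^ e q)) l = if q = l then e l else 0 := by
    intro q hq
    rw [(hA q hq).factorization_pow]
    by_cases hql : q = l
    · subst hql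
      simp
    · simp [hql]
  rw [Finset.sum_congr rfl h, Finset.sum_ite_eq' A l]

private theorem sqrt_prod_pow (A : Finset ℕ) (e : ℕ → ℕ) :
    Real.sqrt ((∏ l ∈ A, l ^ e l : ℕ) : ℝ) = ∏ l ∈ A, Real.sqrt l ^ e l := by
  classical
  induction A using Finset.induction_on with
  | empty => simp
  | insert a A ha ih =>
    rw [Finset.prod_insert ha, Finset.prod_insert ha, ← ih]
    push_cast
    rw [Real.sqrt_mul (by positivity)]
    congr 1
    have h : (a : ℝ) ^ e a = (Real.sqrt a ^ e a) * (Real.sqrt a ^ e a) := by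
      rw [← mul_pow, Real.mul_self_sqrt (Nat.cast_nonneg _)]
    rw [h]
    exact Real.sqrt_mul_self (pow_nonneg (Real.sqrt_nonneg _) _)

/-- the combined statement -/
private theorem split (G : ℕ) (p : ℤ) {n : ℕ} (hn : n ≠ 0) :
    ∃ r1 r2 s : ℕ, 1 ≤ r1 ∧ 1 ≤ r2 ∧ 1 ≤ s ∧ r1 * r2 ∣ p.natAbs ∧ r1 * r2 ^ 2 * s ∣ n ∧
      Real.sqrt (HH G p n) = Real.sqrt r1 * Real.sqrt r2 ^ 3 * phi G s := by
  classical
  set k : ℕ → ℕ := fun l => n.factorization l with hk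
  set A1 : Finset ℕ := n.primeFactors.filter (fun l => (l : ℤ) ∣ p ∧ k l ≤ 1) with hA1
  set A2 : Finset ℕ := n.primeFactors.filter (fun l => (l : ℤ) ∣ p ∧ ¬ k l ≤ 1) with hA2
  set A3 : Finset ℕ := n.primeFactors.filter (fun l => ¬ (l : ℤ) ∣ p ∧ (l ∣ 6 * G ∨ 2 ≤ k l))
    with hA3
  have hpr : ∀ l ∈ n.primeFactors, l.Prime := fun l hl => Nat.prime_of_mem_primeFactors hl
  have hk1 : ∀ l ∈ n.primeFactors, 1 ≤ k l := by
    intro l hl
    have := (hpr l hl).factorization_pos_of_dvd hn (Nat.dvd_of_mem_primeFactors hl)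
    exact this
  have hpr1 : ∀ l ∈ A1, l.Prime := fun l hl => hpr l (Finset.mem_filter.1 hl).1
  have hpr2 : ∀ l ∈ A2, l.Prime := fun l hl => hpr l (Finset.mem_filter.1 hl).1
  have hpr3 : ∀ l ∈ A3, l.Prime := fun l hl => hpr l (Finset.mem_filter.1 hl).1
  have hs0 : (∏ l ∈ A3, l ^ k l) ≠ 0 :=
    Finset.prod_ne_zero_iff.2 (fun l hl => pow_ne_zero _ (hpr3 l hl).ne_zero)
  have h10 : (∏ l ∈ A1, l) ≠ 0 := Finset.prod_ne_zero_iff.2 (fun l hl => (hpr1 l hl).ne_zero)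
  have h20 : (∏ l ∈ A2, l) ≠ 0 := Finset.prod_ne_zero_iff.2 (fun l hl => (hpr2 l hl).ne_zero)
  refine ⟨∏ l ∈ A1, l, ∏ l ∈ A2, l, ∏ l ∈ A3, l ^ k l, Nat.one_le_iff_ne_zero.2 h10,
    Nat.one_le_iff_ne_zero.2 h20, Nat.one_le_iff_ne_zero.2 hs0, ?_, ?_, ?_⟩
  · have hd : Disjoint A1 A2 := by
      rw [Finset.disjoint_left]
      intro l h1 h2
      exact (Finset.mem_filter.1 h2).2.2 (Finset.mem_filter.1 h1).2.2
    rw [← Finset.prod_union hd]
    refine Finset.prod_primes_dvd _ (fun l hl => ?_) (fun l hl => ?_)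
    · rcases Finset.mem_union.1 hl with h | h
      · exact (hpr1 l h).prime
      · exact (hpr2 l h).prime
    · rcases Finset.mem_union.1 hl with h | h
      · exact Int.natCast_dvd.1 (Finset.mem_filter.1 h).2.1
      · exact Int.natCast_dvd.1 (Finset.mem_filter.1 h).2.1
  · have e1 : ∏ l ∈ A1, l = ∏ l ∈ n.primeFactors, if (l : ℤ) ∣ p ∧ k l ≤ 1 then l else 1 := by
      rw [hA1, Finset.prod_filter]
    have e2 : (∏ l ∈ A2, l) ^ 2 =
        ∏ l ∈ n.primeFactors, if (l : ℤ) ∣ p ∧ ¬ k l ≤ 1 then l ^ 2 else 1 := by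
      rw [← Finset.prod_pow, hA2, Finset.prod_filter]
    have e3 : ∏ l ∈ A3, l ^ k l =
        ∏ l ∈ n.primeFactors, if ¬ (l : ℤ) ∣ p ∧ (l ∣ 6 * G ∨ 2 ≤ k l) then l ^ k l else 1 := by
      rw [hA3, Finset.prod_filter]
    rw [e1, e2, e3, ← Finset.prod_mul_distrib, ← Finset.prod_mul_distrib]
    have hnn : n = ∏ l ∈ n.primeFactors, l ^ k l := (Nat.prod_factorization_pow_eq_self hn).symm
    conv_rhs => rw [hnn]
    refine Finset.prod_dvd_prod_of_dvd _ _ (fun l hl => ?_)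
    have hkl := hk1 l hl
    by_cases hlp : (l : ℤ) ∣ p
    · by_cases hkk : k l ≤ 1
      · have : k l = 1 := le_antisymm hkk hkl
        simp [hlp, this]
      · have h2 : 2 ≤ k l := by omega
        simp only [hlp, hkk, not_true_eq_false, not_false_eq_true, and_false, and_true, true_and,
          false_and, if_true, if_false, one_mul, mul_one]
        exact pow_dvd_pow _ h2
    · simp only [hlp, false_and, if_false, not_false_eq_true, true_and, one_mul]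
      split_ifs
      · exact dvd_rfl
      · exact one_dvd _
  · -- the square root
    have hsf : ∀ l ∈ A3, (∏ q ∈ A3, q ^ k q).factorization l = k l := by
      intro l hl
      rw [fac_prod hpr3, if_pos hl]
    have hsp : (∏ q ∈ A3, q ^ k q).primeFactors = A3 := by
      ext l
      rw [← Nat.support_factorization, Finsupp.mem_support_iff, fac_prod hpr3]
      constructor
      · intro h
        by_contra hh
        exact h (if_neg hh)
      · intro h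
        rw [if_pos h]
        have := hk1 l (Finset.mem_filter.1 h).1
        omega
    have ephi : phi G (∏ q ∈ A3, q ^ k q) = ∏ l ∈ A3, ph G l (k l) := by
      unfold phi
      rw [hsp]
      exact Finset.prod_congr rfl (fun l hl => by rw [hsf l hl])
    have er1 : Real.sqrt ((∏ l ∈ A1, l : ℕ) : ℝ) = ∏ l ∈ A1, Real.sqrt l := by
      have := sqrt_prod_pow A1 (fun _ => 1)
      simpa using this
    have er2 : Real.sqrt ((∏ l ∈ A2, l : ℕ) : ℝ) = ∏ l ∈ A2, Real.sqrt l := by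
      have := sqrt_prod_pow A2 (fun _ => 1)
      simpa using this
    rw [ephi, er1, er2]
    unfold HH
    rw [sqrt_prod_pow, ← Finset.prod_pow]
    rw [hA1, hA2, hA3, Finset.prod_filter, Finset.prod_filter, Finset.prod_filter,
      ← Finset.prod_mul_distrib, ← Finset.prod_mul_distrib]
    refine Finset.prod_congr rfl (fun l hl => ?_)
    have hkl := hk1 l hl
    have hkd : n.factorization l = k l := rfl
    rw [hkd]
    by_cases hlp : (l : ℤ) ∣ p
    · by_cases hkk : k l ≤ 1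
      · simp [hlp, hkk, ex]
      · simp [hlp, hkk, ex]
    · by_cases h6 : l ∣ 6 * G
      · simp [hlp, h6, ex, ph]
      · by_cases h3 : 3 ≤ k l
        · have h2 : 2 ≤ k l := by omega
          simp [hlp, h6, h3, h2, ex, ph]
        · by_cases h2 : k l = 2
          · simp [hlp, h6, h2, ex, ph]
          · have h22 : ¬ 2 ≤ k l := by omega
            simp [hlp, h6, h3, h2, h22, ex]

open Classical in
theorem rrs {G : ℕ} {p n : ℤ} (hp : p ≠ 0) (hn : n ≠ 0) {A N : ℕ} (hA : p.natAbs ≤ A)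
    (hN : n.natAbs ≤ N) :
    Real.sqrt (HH G p n.natAbs) ≤ ∑ r1 ∈ Icc 1 A, ∑ r2 ∈ Icc 1 A, ∑ s ∈ Icc 1 N,
      if ((r1 * r2 : ℕ) : ℤ) ∣ p ∧ ((r1 * r2 ^ 2 * s : ℕ) : ℤ) ∣ n then
        Real.sqrt r1 * Real.sqrt r2 ^ 3 * phi G s else 0 := by
  obtain ⟨r1, r2, s, h1, h2, h3, hd1, hd2, he⟩ := split G p (Int.natAbs_ne_zero.2 hn)
  have hp0 : 0 < p.natAbs := Int.natAbs_pos.2 hp
  have hn0 : 0 < n.natAbs := Int.natAbs_pos.2 hn
  have b1 : r1 ∈ Icc 1 A := Finset.mem_Icc.2 ⟨h1,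
    (Nat.le_of_dvd hp0 ((Dvd.intro _ rfl).trans hd1)).trans hA⟩
  have b2 : r2 ∈ Icc 1 A := Finset.mem_Icc.2 ⟨h2,
    (Nat.le_of_dvd hp0 ((Dvd.intro_left _ rfl).trans hd1)).trans hA⟩
  have b3 : s ∈ Icc 1 N := Finset.mem_Icc.2 ⟨h3,
    (Nat.le_of_dvd hn0 ((Dvd.intro_left _ rfl).trans hd2)).trans hN⟩
  have hnn : ∀ r1 r2 s : ℕ, 0 ≤ (if ((r1 * r2 : ℕ) : ℤ) ∣ p ∧
      ((r1 * r2 ^ 2 * s : ℕ) : ℤ) ∣ n then
        Real.sqrt r1 * Real.sqrt r2 ^ 3 * phi G s else 0) := by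
    intro r1 r2 s
    have := phi_nonneg G s
    split_ifs <;> positivity
  have e : Real.sqrt (HH G p n.natAbs) = (if ((r1 * r2 : ℕ) : ℤ) ∣ p ∧
      ((r1 * r2 ^ 2 * s : ℕ) : ℤ) ∣ n then
        Real.sqrt r1 * Real.sqrt r2 ^ 3 * phi G s else 0) := by
    rw [if_pos ⟨Int.natCast_dvd.2 hd1, Int.natCast_dvd.2 hd2⟩, he]
  rw [e]
  refine le_trans ?_ (Finset.single_le_sum (f := fun r1 : ℕ => ∑ r2 ∈ Icc 1 A, ∑ s ∈ Icc 1 N,
      if ((r1 * r2 : ℕ) : ℤ) ∣ p ∧ ((r1 * r2 ^ 2 * s : ℕ) : ℤ) ∣ n then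
        Real.sqrt r1 * Real.sqrt r2 ^ 3 * phi G s else 0)
      (fun a _ => Finset.sum_nonneg (fun b _ => Finset.sum_nonneg (fun c _ => hnn a b c))) b1)
  refine le_trans ?_ (Finset.single_le_sum (f := fun r2 : ℕ => ∑ s ∈ Icc 1 N,
      if ((r1 * r2 : ℕ) : ℤ) ∣ p ∧ ((r1 * r2 ^ 2 * s : ℕ) : ℤ) ∣ n then
        Real.sqrt r1 * Real.sqrt r2 ^ 3 * phi G s else 0)
      (fun b _ => Finset.sum_nonneg (fun c _ => hnn r1 b c)) b2)
  exact Finset.single_le_sum (f := fun s : ℕ =>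
      if ((r1 * r2 : ℕ) : ℤ) ∣ p ∧ ((r1 * r2 ^ 2 * s : ℕ) : ℤ) ∣ n then
        Real.sqrt r1 * Real.sqrt r2 ^ 3 * phi G s else 0)
      (fun c _ => hnn r1 r2 c) b3

end Pool.Agent.PPW
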