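import Pool.Agent.PPW.Crt
import Pool.Agent.PPW.Eul
import Pool.Agent.PPW.Loc

/-!
# The sum of the densities (difficulty 3)

* `prd`: with `K = exp 4000 * 1001 * 668`: the product over the primes `l ≤ N` of
  `1 + (if l ∣ 6 G then 2000 / l else 2000 / l ^ 2)`.  The primes dividing `6 G` are `2`, `3` or
  divide `G`: their part is at most `(1 + 1000) (1 + 2000 / 3) cG G` (all factors are `≥ 1`); the others:
  `∏ (1 + 2000 / l ^ 2) ≤ exp (2000 ∑ 1 / l ^ 2) ≤ exp 4000` (`∑ n ≥ 2, 1 / n ^ 2 ≤ 1`).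
* `ssum`: `eul` applied to `f m = AG G m * gg m ^ 4 / m ^ 4` (multiplicative by `AG_mul`,
  `gg_mul_cop`; `f 1 = 1`) and `b l = if l ∣ 6 G then 2000 / l else 2000 / l ^ 2` (`loc_good`,
  `loc_bad`), then `prd`.
-/

set_option autoImplicit false

namespace Pool.Agent.PPW

open Finset Pool.Agent.PPS

private theorem ssum_sq (N : ℕ) : ∑ n ∈ Icc 1 N, 2000 / (n : ℝ) ^ 2 ≤ 4000 - 2000 / (N : ℝ) := by
  induction N with
  | zero => norm_num
  | succ N ih =>
    rw [Finset.sum_Icc_succ_top (by omega)]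
    rcases Nat.eq_zero_or_pos N with h0 | h0
    · subst h0
      norm_num
    · have hN : (0 : ℝ) < N := by exact_mod_cast h0
      have : 2000 / (((N + 1 : ℕ) : ℝ)) ^ 2 ≤ 2000 / (N : ℝ) - 2000 / (((N + 1 : ℕ) : ℝ)) := by
        push_cast
        rw [div_sub_div _ _ (by positivity) (by positivity),
          div_le_div_iff₀ (by positivity) (by positivity)]
        nlinarith
      linarith

theorem prd : ∃ K : ℝ, 0 < K ∧ ∀ G : ℕ, 1 ≤ G → ∀ N : ℕ,
    ∏ l ∈ (Icc 1 N).filter Nat.Prime,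
      (1 + (if l ∣ 6 * G then 2000 / (l : ℝ) else 2000 / (l : ℝ) ^ 2)) ≤ K * cG G := by
  refine ⟨Real.exp 4000 * (1001 * 668), by positivity, ?_⟩
  intro G hG N
  have hc1 : 0 ≤ cG G := by
    unfold cG
    exact Finset.prod_nonneg (fun l _ => by positivity)
  -- pointwise bound
  have hpt : ∀ l ∈ (Icc 1 N).filter Nat.Prime,
      (1 + (if l ∣ 6 * G then 2000 / (l : ℝ) else 2000 / (l : ℝ) ^ 2)) ≤
      (1 + 2000 / (l : ℝ) ^ 2) * ((if l = 2 then 1001 else 1) * ((if l = 3 then 668 else 1) *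
        (if l ∣ G then (1 + 2000 / (l : ℝ)) else 1))) := by
    intro l hl
    rw [mem_filter, mem_Icc] at hl
    have hlp := hl.2
    have hl2 : (2 : ℝ) ≤ l := by exact_mod_cast hlp.two_le
    have hl0 : (0 : ℝ) < l := by linarith
    have a0 : (0 : ℝ) ≤ 2000 / (l : ℝ) ^ 2 := by positivity
    have a1 : (0 : ℝ) ≤ 2000 / (l : ℝ) := by positivity
    have c2 : (1 : ℝ) ≤ (if l = 2 then 1001 else 1) := by split_ifs <;> norm_num
    have c3 : (1 : ℝ) ≤ (if l = 3 then 668 else 1) := by split_ifs <;> norm_num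
    have cg : (1 : ℝ) ≤ (if l ∣ G then (1 + 2000 / (l : ℝ)) else 1) := by
      split_ifs
      · linarith
      · exact le_refl _
    set x2 : ℝ := (if l = 2 then 1001 else 1) with hx2
    set x3 : ℝ := (if l = 3 then 668 else 1) with hx3
    set xg : ℝ := (if l ∣ G then (1 + 2000 / (l : ℝ)) else 1) with hxg
    have m1 : 1 ≤ x3 * xg := by nlinarith
    have m2 : 1 ≤ x2 * (x3 * xg) := by nlinarith
    by_cases h6 : l ∣ 6 * G
    · rw [if_pos h6]
      have key : 1 + 2000 / (l : ℝ) ≤ x2 * (x3 * xg) := by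
        rcases (Nat.Prime.dvd_mul hlp).mp h6 with h | h
        · have h23 : l = 2 ∨ l = 3 := by
            have : l ∣ 2 * 3 := by simpa using h
            rcases (Nat.Prime.dvd_mul hlp).mp this with h | h
            · left; exact (Nat.prime_dvd_prime_iff_eq hlp Nat.prime_two).mp h
            · right; exact (Nat.prime_dvd_prime_iff_eq hlp Nat.prime_three).mp h
          rcases h23 with h | h
          · have e : x2 = 1001 := by rw [hx2, if_pos h]
            rw [e, h]
            push_cast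
            nlinarith
          · have e : x3 = 668 := by rw [hx3, if_pos h]
            rw [h]
            have : (668 : ℝ) ≤ x2 * (x3 * xg) := by
              rw [e]; nlinarith
            push_cast
            linarith
        · have e : xg = 1 + 2000 / (l : ℝ) := by rw [hxg, if_pos h]
          rw [← e]
          have : xg ≤ x3 * xg := by nlinarith
          nlinarith
      have : 0 ≤ x2 * (x3 * xg) := by linarith
      nlinarith
    · rw [if_neg h6]
      nlinarith
  have hnn : ∀ l ∈ (Icc 1 N).filter Nat.Prime,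
      (0 : ℝ) ≤ (1 + (if l ∣ 6 * G then 2000 / (l : ℝ) else 2000 / (l : ℝ) ^ 2)) := by
    intro l _
    split_ifs <;> positivity
  refine (Finset.prod_le_prod hnn hpt).trans ?_
  rw [Finset.prod_mul_distrib, Finset.prod_mul_distrib, Finset.prod_mul_distrib]
  have p1 : ∏ l ∈ (Icc 1 N).filter Nat.Prime, (1 + 2000 / (l : ℝ) ^ 2) ≤ Real.exp 4000 := by
    calc ∏ l ∈ (Icc 1 N).filter Nat.Prime, (1 + 2000 / (l : ℝ) ^ 2)
        ≤ ∏ l ∈ (Icc 1 N).filter Nat.Prime, Real.exp (2000 / (l : ℝ) ^ 2) := by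
          apply Finset.prod_le_prod
          · intro l _; positivity
          · intro l _
            have := Real.add_one_le_exp (2000 / (l : ℝ) ^ 2)
            linarith
      _ = Real.exp (∑ l ∈ (Icc 1 N).filter Nat.Prime, 2000 / (l : ℝ) ^ 2) := by
          rw [Real.exp_sum]
      _ ≤ Real.exp 4000 := by
          apply Real.exp_le_exp.mpr
          calc ∑ l ∈ (Icc 1 N).filter Nat.Prime, 2000 / (l : ℝ) ^ 2
              ≤ ∑ l ∈ Icc 1 N, 2000 / (l : ℝ) ^ 2 := by
                apply Finset.sum_le_sum_of_subset_of_nonneg (Finset.filter_subset _ _)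
                intro i _ _; positivity
            _ ≤ 4000 - 2000 / (N : ℝ) := ssum_sq N
            _ ≤ 4000 := by
                have : 0 ≤ 2000 / (N : ℝ) := by positivity
                linarith
  have p2 : ∏ l ∈ (Icc 1 N).filter Nat.Prime, (if l = 2 then (1001 : ℝ) else 1) ≤ 1001 := by
    rw [Finset.prod_ite_eq' ((Icc 1 N).filter Nat.Prime) 2 (fun _ => (1001 : ℝ))]
    split_ifs <;> norm_num
  have p3 : ∏ l ∈ (Icc 1 N).filter Nat.Prime, (if l = 3 then (668 : ℝ) else 1) ≤ 668 := by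
    rw [Finset.prod_ite_eq' ((Icc 1 N).filter Nat.Prime) 3 (fun _ => (668 : ℝ))]
    split_ifs <;> norm_num
  have pg : ∏ l ∈ (Icc 1 N).filter Nat.Prime, (if l ∣ G then (1 + 2000 / (l : ℝ)) else 1) ≤ cG G := by
    rw [← Finset.prod_filter]
    unfold cG
    apply Finset.prod_le_prod_of_subset_of_one_le
    · intro l hl
      rw [mem_filter, mem_filter] at hl
      rw [Nat.mem_primeFactors]
      exact ⟨hl.1.2, hl.2, by omega⟩
    · intro l _; positivity
    · intro l _ _
      have : (0 : ℝ) ≤ 2000 / (l : ℝ) := by positivity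
      linarith
  have q1 : 0 ≤ ∏ l ∈ (Icc 1 N).filter Nat.Prime, (1 + 2000 / (l : ℝ) ^ 2) :=
    Finset.prod_nonneg (fun l _ => by positivity)
  have q2 : 0 ≤ ∏ l ∈ (Icc 1 N).filter Nat.Prime, (if l = 2 then (1001 : ℝ) else 1) :=
    Finset.prod_nonneg (fun l _ => by split_ifs <;> norm_num)
  have q3 : 0 ≤ ∏ l ∈ (Icc 1 N).filter Nat.Prime, (if l = 3 then (668 : ℝ) else 1) :=
    Finset.prod_nonneg (fun l _ => by split_ifs <;> norm_num)
  have qg : 0 ≤ ∏ l ∈ (Icc 1 N).filter Nat.Prime, (if l ∣ G then (1 + 2000 / (l : ℝ)) else 1) :=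
    Finset.prod_nonneg (fun l _ => by split_ifs <;> positivity)
  calc _ ≤ Real.exp 4000 * (1001 * (668 * cG G)) := by
        apply mul_le_mul p1 _ (by positivity) (by positivity)
        apply mul_le_mul p2 _ (by positivity) (by norm_num)
        exact mul_le_mul p3 pg qg (by norm_num)
    _ = _ := by ring

theorem ssum : ∃ K : ℝ, 0 < K ∧ ∀ G : ℕ, 1 ≤ G → ∀ N : ℕ,
    ∑ m ∈ Icc 1 N, (AG G m : ℝ) * gg m ^ 4 / (m : ℝ) ^ 4 ≤ K * cG G := by
  obtain ⟨K, hK, hp⟩ := prd
  refine ⟨K, hK, ?_⟩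
  intro G hG N
  refine (eul (fun m => (AG G m : ℝ) * gg m ^ 4 / (m : ℝ) ^ 4)
    (fun l => if l ∣ 6 * G then 2000 / (l : ℝ) else 2000 / (l : ℝ) ^ 2) ?_ ?_ ?_ ?_ N).trans (hp G hG N)
  · intro n; positivity
  · simp only [AG_unit, gg_unit]
    norm_num
  · intro m n hm hn hmn
    have hm' : (m : ℝ) ≠ 0 := by exact_mod_cast hm
    have hn' : (n : ℝ) ≠ 0 := by exact_mod_cast hn
    simp only [AG_mul G hm hn hmn, gg_mul_cop hmn]
    push_cast
    field_simp
  · intro l hl E
    by_cases h : l ∣ 6 * G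
    · simp only [if_pos h]
      exact loc_bad hl E
    · simp only [if_neg h]
      exact loc_good hl h E

end Pool.Agent.PPW
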