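import Pool.Agent.PPW.Defs
import Pool.Agent.PPS.Rrl

/-!
# The weight and the bad part are controlled by `H` (difficulty 3)
-/

set_option autoImplicit false

namespace Pool.Agent.PPW

open Finset Pool.Agent.PPS

private theorem Wle_two {l : ℕ} {a b c : ℤ} (h : ¬ nu l a b c ≤ 1) :
    ((l : ℤ) ^ 2) ∣ a * b * c := by
  unfold nu at h
  by_cases ha : (l : ℤ) ∣ a <;> by_cases hb : (l : ℤ) ∣ b <;> by_cases hc : (l : ℤ) ∣ c <;>
    simp only [ha, hb, hc, if_true, if_false] at h <;> try omega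
  · rw [sq]
    exact Dvd.dvd.mul_right (mul_dvd_mul ha hb) c
  · rw [sq]
    exact Dvd.dvd.mul_right (mul_dvd_mul ha hb) c
  · rw [sq, mul_right_comm]
    exact Dvd.dvd.mul_right (mul_dvd_mul ha hc) b
  · rw [sq, mul_assoc]
    exact Dvd.dvd.mul_left (mul_dvd_mul hb hc) a

private theorem Wle_loc {G l : ℕ} {p a b c : ℤ} (h : del p a b c ≠ 0)
    (hl : l ∈ (del p a b c).natAbs.primeFactors) :
    om G l ((del p a b c).natAbs.factorization l) p a b c ^ 3 ≤
      ((del p a b c).natAbs.factorization l + 1) ^ 9 *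
        l ^ ex G l ((del p a b c).natAbs.factorization l) p := by
  have hn : (del p a b c).natAbs ≠ 0 := by simpa using h
  have hlp : l.Prime := Nat.prime_of_mem_primeFactors hl
  have hld : l ∣ (del p a b c).natAbs := Nat.dvd_of_mem_primeFactors hl
  have hldz : (l : ℤ) ∣ del p a b c := Int.natCast_dvd.2 hld
  set k := (del p a b c).natAbs.factorization l with hk
  have hk1 : 1 ≤ k := (hlp.dvd_iff_one_le_factorization hn).1 hld
  have hl1 : 1 ≤ l := hlp.one_le
  have hpow : ∀ e : ℕ, 1 ≤ l ^ e := fun e => Nat.one_le_pow _ _ hl1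
  have h512 : 512 ≤ (k + 1) ^ 9 := by
    calc 512 = 2 ^ 9 := by norm_num
      _ ≤ (k + 1) ^ 9 := Nat.pow_le_pow_left (by omega) 9
  unfold om ex
  by_cases hp : (l : ℤ) ∣ p
  · rw [if_pos hp, if_pos hp]
    by_cases hnu : nu l a b c ≤ 1
    · rw [if_pos hnu]
      have := hpow (if k ≤ 1 then 1 else 3)
      nlinarith
    · rw [if_neg hnu]
      have h2 : ((l : ℤ) ^ 2) ∣ del p a b c := by
        unfold del
        refine dvd_sub (Wle_two hnu) ?_
        exact (pow_dvd_pow_of_dvd hp 2).trans (pow_dvd_pow p (by norm_num))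
      have h3 : l ^ 2 ∣ (del p a b c).natAbs := by
        rw [← Int.natCast_dvd]
        push_cast
        exact h2
      have hk2 : 2 ≤ k := (hlp.pow_dvd_iff_le_factorization hn).1 h3
      rw [if_neg (by omega : ¬ k ≤ 1)]
      calc (3 * l) ^ 3 = 27 * l ^ 3 := by ring
        _ ≤ (k + 1) ^ 9 * l ^ 3 := Nat.mul_le_mul_right _ (by omega)
  · rw [if_neg hp, if_neg hp]
    by_cases hG : l ∣ 6 * G ∨ 3 ≤ k
    · rw [if_pos hG, if_pos hG]
      have h1 : l ^ (3 * (k / 2)) ≤ l ^ (max (3 * (k / 2)) k) :=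
        Nat.pow_le_pow_right hl1 (le_max_left _ _)
      have h27 : 27 ≤ (k + 1) ^ 6 := by
        calc 27 ≤ 2 ^ 6 := by norm_num
          _ ≤ (k + 1) ^ 6 := Nat.pow_le_pow_left (by omega) 6
      calc (3 * (k + 1) * l ^ (k / 2)) ^ 3 = 27 * (k + 1) ^ 3 * l ^ (3 * (k / 2)) := by
            rw [mul_pow, mul_pow, ← pow_mul, mul_comm (k / 2) 3]; norm_num
        _ ≤ (k + 1) ^ 6 * (k + 1) ^ 3 * l ^ (max (3 * (k / 2)) k) :=
            Nat.mul_le_mul (Nat.mul_le_mul_right _ h27) h1
        _ = (k + 1) ^ 9 * l ^ (max (3 * (k / 2)) k) := by rw [← pow_add]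
    · rw [if_neg hG, if_neg hG]
      by_cases hk2 : k = 2
      · rw [if_pos hk2, if_pos hk2]
        have := hpow 2
        nlinarith
      · rw [if_neg hk2, if_neg hk2]
        have hla : ¬ (l : ℤ) ∣ a := by
          intro hla
          apply hp
          have h4 : (l : ℤ) ∣ p ^ 3 := by
            have h5 : p ^ 3 = a * b * c - del p a b c := by unfold del; ring
            rw [h5]
            exact dvd_sub (Dvd.dvd.mul_right (Dvd.dvd.mul_right hla b) c) hldz
          exact (Nat.prime_iff_prime_int.1 hlp).dvd_of_dvd_pow h4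
        have h6 := rr_le hlp b hla
        have h7 : rr l a b ^ 3 ≤ 3 ^ 3 := Nat.pow_le_pow_left h6 3
        rw [pow_zero, mul_one]
        omega

theorem wle {G : ℕ} {p a b c : ℤ} (h : del p a b c ≠ 0) :
    Wt G p a b c ^ 3 ≤ (del p a b c).natAbs.divisors.card ^ 9 * HH G p (del p a b c).natAbs := by
  have hn : (del p a b c).natAbs ≠ 0 := by simpa using h
  unfold Wt HH
  rw [Nat.card_divisors hn, ← Finset.prod_pow, ← Finset.prod_pow, ← Finset.prod_mul_distrib]
  exact Finset.prod_le_prod' fun l hl => Wle_loc h hl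

theorem mst_le (G : ℕ) (p : ℤ) {n : ℕ} (hn : n ≠ 0) : mst G p n ≤ HH G p n := by
  unfold mst HH
  refine Finset.prod_le_prod' fun l hl => ?_
  have hlp : l.Prime := Nat.prime_of_mem_primeFactors hl
  refine Nat.pow_le_pow_right hlp.one_le ?_
  unfold be ex
  by_cases hp : (l : ℤ) ∣ p
  · rw [if_pos hp, if_pos hp]
    split_ifs <;> omega
  · rw [if_neg hp, if_neg hp]
    by_cases hG : l ∣ 6 * G ∨ 3 ≤ n.factorization l
    · rw [if_pos hG]
      split_ifs
      · exact le_max_right _ _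
      · exact Nat.zero_le _
    · rw [if_neg hG]
      have h1 : ¬ l ∣ 6 * G := fun h => hG (Or.inl h)
      have h2 : ¬ 3 ≤ n.factorization l := fun h => hG (Or.inr h)
      by_cases h3 : n.factorization l = 2
      · rw [if_pos h3]
        split_ifs <;> omega
      · rw [if_neg h3, if_neg]
        rintro (h | h)
        · exact h1 h
        · omega

end Pool.Agent.PPW
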